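import Pool.Agent.Lib.MP_2794d1_ag.WV.M2
import Pool.Agent.Lib.MP_2794d1_ag.AH.Fin

/-!
Fin: the final statement. `main_h` (AH/Fin) gives everything except the last clause; for this, let `l < D`, `D = σ + 1`, `α` from `IndX V D` (`hD.1`; `hqD (σ + 1) = hq σ` by definition), `charts_count` (M2). The passage from `q` to `log h` is as in `main_h`: `q = ⌈(log h) ^ (1 / (D - l))⌉₊ ≤ c₀ (log h) ^ (1 / (D - l))`,
`log h ≤ q ^ (D - l)`, `C q ^ j ≤ |C| c₀ ^ (D + k) (log h) ^ (j / (D - l))` for `j ≤ D + k`.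
-/

namespace MP2794d1.WV

open Matrix Complex Filter Topology MP2794d1 MP2794d1.AH MP2794d1.PC
open scoped ContDiff Manifold

variable {n m : ℕ} {X G : Type} [TopologicalSpace X] [ChartedSpace (Fin m → ℂ) X]
  [IsManifold 𝓘(ℂ, Fin m → ℂ) ω X] [ConnectedSpace X] [Group G] [MulAction G X]

theorem charts_h (V : MVHS n m X G) (D : ℕ) (hD : IndX V D) (l k J : ℕ) (hl : l < D)
    (ch : Fin J → Chart V l) (hk : ∀ j, (ch j).I.card ≤ k) :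
    ∃ C : ℝ, ∀ h : ℝ, 2 ≤ h → ∃ (d : ℕ) (F : (Jx V → ℂ) → ℂ),
      (d : ℝ) ≤ C * Real.log h ^ (((l : ℝ) + k) / ((D : ℝ) - l)) ∧
      AC.IF d (Real.exp (C * Real.log h ^ (((D : ℝ) + k) / ((D : ℝ) - l)))) F ∧
      (∃ x v, PX V x v ∧ F v ≠ 0) ∧
      ∀ j, ∀ u ∈ Fund (ch j).I, IsCMX V ((ch j).c u) h → ∀ v, PX V ((ch j).c u) v → F v = 0 := by
  obtain ⟨σ, rfl⟩ : ∃ σ, D = σ + 1 := ⟨D - 1, by omega⟩
  obtain ⟨α, hα⟩ := hD
  obtain ⟨C, hCC⟩ := charts_count V σ k (by omega) α (fun t ht c hc => hα t ht c hc) J ch hk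
  have hltR : (0 : ℝ) < ((σ + 1 : ℕ) : ℝ) - l := by
    have : (l : ℝ) < ((σ + 1 : ℕ) : ℝ) := by exact_mod_cast hl
    linarith
  -- the constant
  set e : ℝ := 1 / (((σ + 1 : ℕ) : ℝ) - l) with he
  have he0 : 0 < e := by positivity
  set c₀ : ℝ := 1 + Real.log 2 ^ (-e) with hc₀
  have hl2 : 0 < Real.log 2 := Real.log_pos (by norm_num)
  have hc₀0 : 0 < c₀ := by positivity
  have hc₀1 : 1 ≤ c₀ := by
    have : 0 < Real.log 2 ^ (-e) := by positivity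
    linarith
  refine ⟨|C| * c₀ ^ (σ + 1 + k), fun h hh => ?_⟩
  set L : ℝ := Real.log h with hL
  have hL2 : Real.log 2 ≤ L := Real.log_le_log (by norm_num) hh
  have hL0 : 0 < L := by linarith
  set q : ℕ := ⌈L ^ e⌉₊ with hq
  have hLe : 0 < L ^ e := by positivity
  have hq1 : 1 ≤ q := Nat.one_le_iff_ne_zero.2 (Nat.ceil_pos.2 hLe).ne'
  have hqL : L ≤ (q : ℝ) ^ (σ + 1 - l) := by
    have h1 : (L ^ e) ^ (σ + 1 - l) ≤ (q : ℝ) ^ (σ + 1 - l) :=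
      pow_le_pow_left₀ hLe.le (Nat.le_ceil _) _
    have h2 : (L ^ e) ^ (σ + 1 - l) = L := by
      rw [← Real.rpow_natCast, ← Real.rpow_mul hL0.le, Nat.cast_sub hl.le, he,
        one_div_mul_cancel hltR.ne', Real.rpow_one]
    linarith
  have hqu : (q : ℝ) ≤ c₀ * L ^ e := by
    have h1 : (q : ℝ) < L ^ e + 1 := Nat.ceil_lt_add_one hLe.le
    have h2 : 1 ≤ Real.log 2 ^ (-e) * L ^ e := by
      rw [Real.rpow_neg hl2.le, inv_mul_eq_div, one_le_div (by positivity)]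
      exact Real.rpow_le_rpow hl2.le hL2 he0.le
    have h3 : c₀ * L ^ e = L ^ e + Real.log 2 ^ (-e) * L ^ e := by rw [hc₀]; ring
    linarith
  have hpow : ∀ j : ℕ, j ≤ σ + 1 + k →
      C * (q : ℝ) ^ j ≤ |C| * c₀ ^ (σ + 1 + k) * L ^ ((j : ℝ) / (((σ + 1 : ℕ) : ℝ) - l)) := by
    intro j hj
    have h1 : (q : ℝ) ^ j ≤ c₀ ^ (σ + 1 + k) * L ^ ((j : ℝ) / (((σ + 1 : ℕ) : ℝ) - l)) := by
      have h2 : (q : ℝ) ^ j ≤ (c₀ * L ^ e) ^ j := pow_le_pow_left₀ (by positivity) hqu j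
      have h3 : (L ^ e) ^ j = L ^ ((j : ℝ) / (((σ + 1 : ℕ) : ℝ) - l)) := by
        rw [← Real.rpow_natCast, ← Real.rpow_mul hL0.le, he]
        congr 1
        field_simp
      have h4 : c₀ ^ j ≤ c₀ ^ (σ + 1 + k) := pow_le_pow_right₀ hc₀1 hj
      rw [mul_pow, h3] at h2
      have h5 : 0 < L ^ ((j : ℝ) / (((σ + 1 : ℕ) : ℝ) - l)) := by positivity
      nlinarith
    have h2 : C * (q : ℝ) ^ j ≤ |C| * (q : ℝ) ^ j :=
      mul_le_mul_of_nonneg_right (le_abs_self C) (by positivity)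
    have h3 := mul_le_mul_of_nonneg_left h1 (abs_nonneg C)
    linarith [mul_assoc |C| (c₀ ^ (σ + 1 + k)) (L ^ ((j : ℝ) / (((σ + 1 : ℕ) : ℝ) - l)))]
  obtain ⟨d, F, hd, hF, hne, hv⟩ := hCC q hq1
  have p1 := hpow (l + k) (by omega)
  have p2 := hpow (σ + 1 + k) le_rfl
  have c1 : ((l + k : ℕ) : ℝ) = (l : ℝ) + k := by push_cast; ring
  have c2 : ((σ + 1 + k : ℕ) : ℝ) = ((σ + 1 : ℕ) : ℝ) + k := by push_cast; ring
  rw [c1] at p1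
  rw [c2] at p2
  exact ⟨d, F, hd.trans p1, IF_mono hF (Real.exp_le_exp.2 p2), hne,
    fun j u hu hcm => hv j u hu h hh hqL hcm⟩

theorem whole (V : MVHS n m X G) (hC : CurvesSpan m X G) :
    ∃ ρ D : ℕ, IsGreatest (Set.range (rankX V)) ρ ∧ IsGreatest {D | IndX V D} D ∧
    (IsShimuraDom V ρ ∨ (∀ (x : X) (h : ℝ), ¬ IsCMX V x h) ∨
    (ρ < D ∧
      (∀ K : Set X, IsCompact K → ∃ C : ℝ, ∀ h : ℝ, 2 ≤ h →
        ∃ (d : ℕ) (F : (Jx V → ℂ) → ℂ), (d : ℝ) ≤ C * Real.log h ^ ((ρ : ℝ) / ((D : ℝ) - ρ)) ∧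
          AC.IF d (Real.exp (C * Real.log h ^ ((D : ℝ) / ((D : ℝ) - ρ)))) F ∧
          (∃ x v, PX V x v ∧ F v ≠ 0) ∧
          ∀ x ∈ K, IsCMX V x h → ∀ v, PX V x v → F v = 0) ∧
      ∀ l k J : ℕ, l < D → ∀ ch : Fin J → Chart V l, (∀ j, (ch j).I.card ≤ k) →
        ∃ C : ℝ, ∀ h : ℝ, 2 ≤ h → ∃ (d : ℕ) (F : (Jx V → ℂ) → ℂ),
          (d : ℝ) ≤ C * Real.log h ^ (((l : ℝ) + k) / ((D : ℝ) - l)) ∧
          AC.IF d (Real.exp (C * Real.log h ^ (((D : ℝ) + k) / ((D : ℝ) - l)))) F ∧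
          (∃ x v, PX V x v ∧ F v ≠ 0) ∧
          ∀ j, ∀ u ∈ Fund (ch j).I, IsCMX V ((ch j).c u) h → ∀ v, PX V ((ch j).c u) v → F v = 0)) := by
  obtain ⟨ρ, D, hρ, hD, h⟩ := main_h V hC
  refine ⟨ρ, D, hρ, hD, ?_⟩
  rcases h with h | h | ⟨hlt, h⟩
  · exact Or.inl h
  · exact Or.inr (Or.inl h)
  · exact Or.inr (Or.inr ⟨hlt, h, fun l k J hl ch hk => charts_h V D hD.1 l k J hl ch hk⟩)

end MP2794d1.WV
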