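import Mathlib

/-!
C2: the choice of the parameters (compare `numX`, AH/A08). Let `E = q ^ (σ + 1 - ρ)`, `M = q ^ (ρ + k)`, `L = q ^ (σ + 1 + k) = M E`, `a ≥ 1` a constant chosen below,
`H = ⌈exp (a L)⌉₊`, `t = ⌈a M⌉₊`, `N = ⌈C (log H + (σ + 1) t (E + 1) + 1)⌉₊`. Then `a L ≤ log H ≤ 2 a L`, `a M ≤ t ≤ 2 a M`, `t (E + 1) ≤ 2 a M * 2 E = 4 a L`, so `N ≤ K a L` with
`K = C (4 σ + 8)` as in AH/A08. Last condition: the left side is at most `2 C² q ^ ((σ + 1 - ρ) k) (K a L) ^ (ρ + 1)`, the right side is greater than `(a M) ^ (σ + 1) * a L = a ^ (σ + 2) M ^ (σ + 1) L`, and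
`q ^ ((σ + 1 - ρ) k) L ^ ρ = M ^ (σ + 1)`: the exponents are `(σ + 1 - ρ) k + (σ + 1 + k) ρ = (σ + 1) (ρ + k)` (write `σ + 1 = ρ + δ`). So it is enough that
`2 C² K ^ (ρ + 1) a ^ (ρ + 1) < a ^ (σ + 2)`: `a = 2 C² K ^ (ρ + 1) + 1`. `C' ` large.
-/

namespace MP2794d1.WV

theorem numW (ρ σ k : ℕ) (hσ : ρ ≤ σ) (C : ℝ) (hC : 1 ≤ C) : ∃ C' : ℝ, 0 < C' ∧ ∀ q : ℕ, 1 ≤ q →
    ∃ t N H : ℕ, 1 ≤ t ∧ 1 ≤ N ∧ 1 ≤ H ∧ (((σ + 1) * t : ℕ) : ℝ) ≤ C' * (q : ℝ) ^ (ρ + k) ∧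
      Real.log (((t : ℝ) + 1) ^ (σ + 1) * H) ≤ C' * (q : ℝ) ^ (σ + 1 + k) ∧
      C * (Real.log H + ((σ + 1) * t : ℕ) * ((q : ℝ) ^ (σ + 1 - ρ) + 1) + 1) ≤ N ∧
      2 * ((C * (q : ℝ) ^ ((σ + 1 - ρ) * k)) * (N : ℝ) ^ ρ) * (C * N) <
        ((t : ℝ) + 1) ^ (σ + 1) * Real.log (H + 1) := by
  have hσ0 : (0 : ℝ) ≤ σ := Nat.cast_nonneg σ
  obtain ⟨K, hK⟩ : ∃ K : ℝ, K = C * (4 * σ + 8) := ⟨_, rfl⟩
  have hK1 : 1 ≤ K := by rw [hK]; exact one_le_mul_of_one_le_of_one_le hC (by linarith)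
  obtain ⟨a, ha⟩ : ∃ a : ℝ, a = 2 * C ^ 2 * K ^ (ρ + 1) := ⟨_, rfl⟩
  have ha1 : 1 ≤ a := by
    rw [ha]
    exact one_le_mul_of_one_le_of_one_le (by nlinarith) (one_le_pow₀ hK1)
  have ha0 : 0 < a := by linarith
  refine ⟨(σ + 1) * (2 * a) + 2 * a, by positivity, ?_⟩
  intro q hq
  have hq1 : (1 : ℝ) ≤ q := by exact_mod_cast hq
  have hq0 : (0 : ℝ) < q := by linarith
  obtain ⟨M, hM⟩ : ∃ M : ℝ, M = (q : ℝ) ^ (ρ + k) := ⟨_, rfl⟩
  obtain ⟨E, hE⟩ : ∃ E : ℝ, E = (q : ℝ) ^ (σ + 1 - ρ) := ⟨_, rfl⟩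
  obtain ⟨L, hL⟩ : ∃ L : ℝ, L = (q : ℝ) ^ (σ + 1 + k) := ⟨_, rfl⟩
  have hLM : L = M * E := by
    rw [hL, hM, hE, ← pow_add]
    congr 1
    omega
  have hM1 : 1 ≤ M := by rw [hM]; exact one_le_pow₀ hq1
  have hE1 : 1 ≤ E := by rw [hE]; exact one_le_pow₀ hq1
  have hL1 : 1 ≤ L := by rw [hL]; exact one_le_pow₀ hq1
  have hM0 : 0 < M := by linarith
  have hE0 : 0 < E := by linarith
  have hL0 : 0 < L := by linarith
  have hML : M ≤ L := by rw [hLM]; exact le_mul_of_one_le_right hM0.le hE1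
  have haL : 1 ≤ a * L := one_le_mul_of_one_le_of_one_le ha1 hL1
  obtain ⟨H, hH⟩ : ∃ H : ℕ, H = ⌈Real.exp (a * L)⌉₊ := ⟨_, rfl⟩
  obtain ⟨t, ht⟩ : ∃ t : ℕ, t = ⌈a * M⌉₊ := ⟨_, rfl⟩
  have hHl : Real.exp (a * L) ≤ H := by rw [hH]; exact Nat.le_ceil _
  have hHu : (H : ℝ) ≤ 2 * Real.exp (a * L) := by
    have h1 : (H : ℝ) < Real.exp (a * L) + 1 := by
      rw [hH]; exact Nat.ceil_lt_add_one (Real.exp_pos _).le
    have h2 : 1 ≤ Real.exp (a * L) := Real.one_le_exp (by positivity)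
    linarith
  have hH0 : (0 : ℝ) < H := (Real.exp_pos _).trans_le hHl
  have hlogHl : a * L ≤ Real.log H := by
    rw [Real.le_log_iff_exp_le hH0]; exact hHl
  have hlogHu : Real.log H ≤ 2 * a * L := by
    have h1 : Real.log H ≤ Real.log (2 * Real.exp (a * L)) := Real.log_le_log hH0 hHu
    rw [Real.log_mul (by norm_num) (Real.exp_pos _).ne', Real.log_exp] at h1
    have := Real.log_two_lt_d9
    linarith
  have htl : a * M ≤ t := by rw [ht]; exact Nat.le_ceil _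
  have haM1 : 1 ≤ a * M := one_le_mul_of_one_le_of_one_le ha1 hM1
  have haM : 0 < a * M := by positivity
  have htu : (t : ℝ) ≤ 2 * a * M := by
    have h1 : (t : ℝ) ≤ a * M + 1 := by
      rw [ht]; exact (Nat.ceil_lt_add_one (by positivity)).le
    linarith
  have htE : (t : ℝ) * (E + 1) ≤ 4 * a * L := by
    calc (t : ℝ) * (E + 1) ≤ (2 * a * M) * (2 * E) := by
          apply mul_le_mul htu (by linarith) (by linarith) (by positivity)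
      _ = 4 * a * L := by rw [hLM]; ring
  obtain ⟨N, hN⟩ : ∃ N : ℕ, N = ⌈C * (Real.log H + ((σ + 1) * t : ℕ) * (E + 1) + 1)⌉₊ := ⟨_, rfl⟩
  have hcast : (((σ + 1) * t : ℕ) : ℝ) = (σ + 1) * t := by push_cast; ring
  have hlogH0 : 0 < Real.log H := lt_of_lt_of_le (by positivity) hlogHl
  have hinner0 : 0 < C * (Real.log H + ((σ + 1) * t : ℕ) * (E + 1) + 1) := by
    have : (0 : ℝ) ≤ ((σ + 1) * t : ℕ) := Nat.cast_nonneg _
    have h7 : (0 : ℝ) ≤ ((σ + 1) * t : ℕ) * (E + 1) := mul_nonneg this (by linarith)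
    exact mul_pos (by linarith) (by linarith)
  have hNl : C * (Real.log H + ((σ + 1) * t : ℕ) * (E + 1) + 1) ≤ N := by
    rw [hN]; exact Nat.le_ceil _
  have hNu : (N : ℝ) ≤ K * a * L := by
    have h1 : (N : ℝ) ≤ C * (Real.log H + ((σ + 1) * t : ℕ) * (E + 1) + 1) + 1 := by
      rw [hN]; exact (Nat.ceil_lt_add_one hinner0.le).le
    rw [hcast] at h1
    have h2 : (σ + 1 : ℝ) * t * (E + 1) ≤ (σ + 1) * (4 * a * L) := by
      rw [mul_assoc]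
      exact mul_le_mul_of_nonneg_left htE (by linarith)
    have h3 : Real.log H + (σ + 1 : ℝ) * t * (E + 1) + 1 ≤
        2 * a * L + (σ + 1) * (4 * a * L) + a * L := by linarith
    have h4 : C * (Real.log H + (σ + 1 : ℝ) * t * (E + 1) + 1) ≤
        C * (2 * a * L + (σ + 1) * (4 * a * L) + a * L) :=
      mul_le_mul_of_nonneg_left h3 (by linarith)
    have h5 : (1 : ℝ) ≤ C * (a * L) := one_le_mul_of_one_le_of_one_le hC haL
    calc (N : ℝ) ≤ C * (2 * a * L + (σ + 1) * (4 * a * L) + a * L) + C * (a * L) := by linarith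
      _ = K * a * L := by rw [hK]; ring
  have hlogH1 : Real.log H ≤ Real.log (H + 1) := Real.log_le_log hH0 (by linarith)
  rw [← hE, ← hM, ← hL]
  refine ⟨t, N, H, ?_, ?_, ?_, ?_, ?_, hNl, ?_⟩
  · rw [ht]; exact Nat.ceil_pos.2 haM
  · rw [hN]; exact Nat.ceil_pos.2 hinner0
  · rw [hH]; exact Nat.ceil_pos.2 (Real.exp_pos _)
  · rw [hcast]
    have h1 : (σ + 1 : ℝ) * t ≤ (σ + 1) * (2 * a * M) :=
      mul_le_mul_of_nonneg_left htu (by linarith)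
    nlinarith
  · rw [Real.log_mul (by positivity) hH0.ne', Real.log_pow]
    have h1 : Real.log ((t : ℝ) + 1) ≤ t := by
      have := Real.log_le_sub_one_of_pos (show (0 : ℝ) < t + 1 by positivity)
      linarith
    have h2 : ((σ + 1 : ℕ) : ℝ) * Real.log ((t : ℝ) + 1) ≤ (σ + 1) * (2 * a * L) := by
      have h3 : Real.log ((t : ℝ) + 1) ≤ 2 * a * L := by
        refine h1.trans (htu.trans ?_)
        exact mul_le_mul_of_nonneg_left hML (by positivity)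
      push_cast
      exact mul_le_mul_of_nonneg_left h3 (by linarith)
    calc ((σ + 1 : ℕ) : ℝ) * Real.log ((t : ℝ) + 1) + Real.log H
        ≤ (σ + 1) * (2 * a * L) + 2 * a * L := by linarith
      _ = ((σ + 1) * (2 * a) + 2 * a) * L := by ring
  · have hN0 : (0 : ℝ) ≤ N := Nat.cast_nonneg N
    have h1 : 2 * ((C * (q : ℝ) ^ ((σ + 1 - ρ) * k)) * (N : ℝ) ^ ρ) * (C * N) =
        2 * C ^ 2 * (q : ℝ) ^ ((σ + 1 - ρ) * k) * (N : ℝ) ^ (ρ + 1) := by ring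
    have h2 : (N : ℝ) ^ (ρ + 1) ≤ (K * a * L) ^ (ρ + 1) := pow_le_pow_left₀ hN0 hNu _
    have h3 : 2 * C ^ 2 * (q : ℝ) ^ ((σ + 1 - ρ) * k) * (N : ℝ) ^ (ρ + 1) ≤
        2 * C ^ 2 * (q : ℝ) ^ ((σ + 1 - ρ) * k) * (K * a * L) ^ (ρ + 1) :=
      mul_le_mul_of_nonneg_left h2 (by positivity)
    have h4 : 2 * C ^ 2 * (q : ℝ) ^ ((σ + 1 - ρ) * k) * (K * a * L) ^ (ρ + 1) ≤
        (a * M) ^ (σ + 1) * (a * L) := by
      have e1 : 2 * C ^ 2 * (q : ℝ) ^ ((σ + 1 - ρ) * k) * (K * a * L) ^ (ρ + 1) =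
          (2 * C ^ 2 * K ^ (ρ + 1)) * (a ^ (ρ + 1) * ((q : ℝ) ^ ((σ + 1 - ρ) * k) *
            L ^ (ρ + 1))) := by
        rw [mul_assoc K, mul_pow, mul_pow]; ring
      rw [e1, ← ha]
      have e2 : (q : ℝ) ^ ((σ + 1 - ρ) * k) * L ^ (ρ + 1) = M ^ (σ + 1) * L := by
        rw [hL, hM, ← pow_mul, ← pow_mul, ← pow_add, ← pow_add]
        congr 1
        obtain ⟨δ, hδ⟩ : ∃ δ, σ + 1 = ρ + δ := ⟨σ + 1 - ρ, by omega⟩
        rw [hδ, Nat.add_sub_cancel_left]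
        ring
      have e3 : a ^ (ρ + 1) ≤ a ^ (σ + 1) := pow_le_pow_right₀ ha1 (by omega)
      rw [e2]
      calc a * (a ^ (ρ + 1) * (M ^ (σ + 1) * L)) ≤ a * (a ^ (σ + 1) * (M ^ (σ + 1) * L)) := by
            gcongr
        _ = (a * M) ^ (σ + 1) * (a * L) := by rw [mul_pow]; ring
    have h5 : (a * M) ^ (σ + 1) < ((t : ℝ) + 1) ^ (σ + 1) :=
      pow_lt_pow_left₀ (by linarith) haM.le (Nat.succ_ne_zero σ)
    rw [h1]
    refine h3.trans_lt (h4.trans_lt ?_)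
    have h6 : a * L ≤ Real.log (H + 1) := hlogHl.trans hlogH1
    exact mul_lt_mul h5 h6 (by positivity) (by positivity)

end MP2794d1.WV
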