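import Pool.Agent.Lib.MP_2794d1_ag.AH.ADefs
import Pool.Agent.Lib.MP_2794d1_ag.AC.D1
import Pool.Agent.Lib.MP_2794d1_ag.AC.D3

/-!
C3: a form which is very small at one vector of a line containing a vector of small height vanishes on the line (compare `cm_vanish`, AH/A14). `ν = card κ ≥ 1` (the eigenvector in `IntRep` is not `0`), `B' = exp (C E) ≥ 1`.
`v₀ = c • v₁` (`hL.uniq`), `‖c‖ ‖v₁‖ = ‖v₀‖ ≤ ν B'` (`IntRep.norm_le`, `pi_norm_le_iff_of_nonneg`), so `‖c‖ ≤ ν B' exp (C E) = ν exp (2 C E)`. `F v₀ = c ^ d F v₁` (`hIF.hom'.hom`). If `F v₀ ≠ 0`, `IF.liouville` (AC/D3):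
`1 ≤ (S B' ^ d) ^ ν ‖F v₀‖ ≤ (S exp (C E) ^ d) ^ ν (ν exp (2 C E)) ^ d 2 S exp (C E) ^ d (1/2) ^ N`; logarithms.
-/

namespace MP2794d1.WV

open Matrix Complex Filter Topology MP2794d1.PC MP2794d1.AC MP2794d1.AH

theorem vanish_W {X : Type} {ι κ : Type} [Fintype ι] [Fintype κ] [DecidableEq κ]
    {L : X → (ι → ℂ) → Prop} (hL : LFX L) (C : ℝ) (hC : 1 ≤ C) :
    ∃ C₁ : ℝ, 1 ≤ C₁ ∧ ∀ E : ℝ, 1 ≤ E → ∀ (d N : ℕ) (S : ℝ) (F : (ι → ℂ) → ℂ), 1 ≤ S → IF d S F →
      C₁ * (Real.log S + d * (E + 1) + 1) ≤ N →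
      ∀ (x : X) (v₀ v₁ : ι → ℂ), L x v₀ → L x v₁ → IntRep κ (Real.exp (C * E)) v₀ →
        Real.exp (-(C * E)) ≤ ‖v₁‖ → ‖F v₁‖ ≤ 2 * (S * Real.exp (C * E) ^ d) * (1 / 2) ^ N →
        ∀ v, L x v → F v = 0 := by
  set ν : ℕ := Fintype.card κ with hν
  have hν0 : (0 : ℝ) ≤ ν := Nat.cast_nonneg ν
  have hlν : 0 ≤ Real.log ν := Real.log_natCast_nonneg ν
  have hl2 : 0 < Real.log 2 := Real.log_pos (by norm_num)
  have hl2' : Real.log 2 < 1 := by
    have := Real.log_two_lt_d9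
    linarith
  have hC0 : 0 < C := by linarith
  set A : ℝ := (ν : ℝ) + 2 + ((ν : ℝ) + 3) * C + Real.log ν with hA
  have hA0 : 0 ≤ A := by positivity
  refine ⟨A / Real.log 2 + 1, by
    have : 0 ≤ A / Real.log 2 := by positivity
    linarith, ?_⟩
  intro E hE d N S F hS hIF hN x v₀ v₁ h0 h1 hrep hv₁ hF v hv
  have hS0 : 0 < S := by linarith
  have hlS : 0 ≤ Real.log S := Real.log_nonneg hS
  have hCE : 0 ≤ C * E := by positivity
  have hB' : 1 ≤ Real.exp (C * E) := Real.one_le_exp hCE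
  have hB0 : 0 < Real.exp (C * E) := Real.exp_pos _
  have hd0 : (0 : ℝ) ≤ d := Nat.cast_nonneg d
  have hF0 : F v₀ = 0 := by
    by_contra hne
    have hcard : 0 < ν := by
      obtain ⟨_, w, hw, -, -⟩ := hrep
      rw [hν, Fintype.card_pos_iff]
      by_contra hemp
      rw [not_nonempty_iff] at hemp
      exact hw (funext fun a => hemp.elim a)
    have hcard' : (0 : ℝ) < ν := by exact_mod_cast hcard
    obtain ⟨c, hc⟩ := hL.uniq x v₁ v₀ h1 h0
    have e1 : ‖v₀‖ ≤ ν * Real.exp (C * E) :=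
      (pi_norm_le_iff_of_nonneg (by positivity)).2 fun i => hrep.norm_le i
    have e2 : ‖v₀‖ = ‖c‖ * ‖v₁‖ := by rw [hc, norm_smul]
    have e3 : ‖c‖ ≤ ν * (Real.exp (C * E) * Real.exp (C * E)) := by
      have f1 : ‖c‖ * Real.exp (-(C * E)) ≤ ν * Real.exp (C * E) := by
        calc ‖c‖ * Real.exp (-(C * E)) ≤ ‖c‖ * ‖v₁‖ :=
              mul_le_mul_of_nonneg_left hv₁ (norm_nonneg c)
          _ ≤ _ := by rw [← e2]; exact e1
      have f2 : Real.exp (-(C * E)) * Real.exp (C * E) = 1 := by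
        rw [← Real.exp_add, neg_add_cancel, Real.exp_zero]
      calc ‖c‖ = ‖c‖ * Real.exp (-(C * E)) * Real.exp (C * E) := by
            rw [mul_assoc, f2, mul_one]
        _ ≤ ν * Real.exp (C * E) * Real.exp (C * E) := mul_le_mul_of_nonneg_right f1 hB0.le
        _ = _ := by ring
    have e4 : F v₀ = c ^ d * F v₁ := by
      rw [hc]
      exact hIF.hom'.hom c v₁
    have e5 := IF.liouville hS hB' hIF v₀ hrep hne
    have e6 : ‖F v₀‖ ≤ (ν * (Real.exp (C * E) * Real.exp (C * E))) ^ d *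
        (2 * (S * Real.exp (C * E) ^ d) * (1 / 2) ^ N) := by
      rw [e4, norm_mul, norm_pow]
      exact mul_le_mul (pow_le_pow_left₀ (norm_nonneg c) e3 d) hF (norm_nonneg _) (by positivity)
    have e7 : 1 ≤ (S * Real.exp (C * E) ^ d) ^ ν *
        ((ν * (Real.exp (C * E) * Real.exp (C * E))) ^ d *
        (2 * (S * Real.exp (C * E) ^ d) * (1 / 2) ^ N)) :=
      e5.trans (mul_le_mul_of_nonneg_left e6 (by positivity))
    have e8 := Real.log_nonneg e7
    have hq0 : (0 : ℝ) < ((1 : ℝ) / 2) ^ N := by positivity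
    have hlq : Real.log (((1 : ℝ) / 2) ^ N) = -(N * Real.log 2) := by
      rw [Real.log_pow, one_div, Real.log_inv]
      ring
    have g1 : Real.exp (C * E) ^ d ≠ 0 := by positivity
    have g2 : S * Real.exp (C * E) ^ d ≠ 0 := by positivity
    have g3 : (S * Real.exp (C * E) ^ d) ^ ν ≠ 0 := by positivity
    have g4 : (ν * (Real.exp (C * E) * Real.exp (C * E))) ^ d ≠ 0 := by positivity
    have g5 : (2 * (S * Real.exp (C * E) ^ d) * (1 / 2) ^ N) ≠ 0 := by positivity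
    have g6 : 2 * (S * Real.exp (C * E) ^ d) ≠ 0 := by positivity
    have g7 : Real.exp (C * E) * Real.exp (C * E) ≠ 0 := by positivity
    have e9 : Real.log ((S * Real.exp (C * E) ^ d) ^ ν *
        ((ν * (Real.exp (C * E) * Real.exp (C * E))) ^ d *
        (2 * (S * Real.exp (C * E) ^ d) * (1 / 2) ^ N))) =
        ν * (Real.log S + d * (C * E)) + (d * (Real.log ν + (C * E + C * E)) +
        ((Real.log 2 + (Real.log S + d * (C * E))) - N * Real.log 2)) := by
      rw [Real.log_mul g3 (mul_ne_zero g4 g5), Real.log_mul g4 g5, Real.log_mul g6 hq0.ne', hlq,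
        Real.log_mul (by norm_num) g2, Real.log_pow, Real.log_mul hS0.ne' g1, Real.log_pow,
        Real.log_exp, Real.log_pow, Real.log_mul hcard'.ne' g7, Real.log_mul hB0.ne' hB0.ne',
        Real.log_exp]
      ring
    rw [e9] at e8
    have e10 : N * Real.log 2 ≤ A * (Real.log S + d * (E + 1) + 1) := by
      have k1 : N * Real.log 2 ≤ ((ν : ℝ) + 1) * Real.log S + d * (((ν : ℝ) + 3) * C * E + Real.log ν) + 1 := by
        nlinarith
      have k2 : ((ν : ℝ) + 3) * C * E + Real.log ν ≤ A * (E + 1) := by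
        rw [hA]
        have : 0 ≤ ((ν : ℝ) + 2) * (E + 1) + ((ν : ℝ) + 3) * C + Real.log ν * E := by positivity
        nlinarith
      have k3 : ((ν : ℝ) + 1) * Real.log S ≤ A * Real.log S := by
        refine mul_le_mul_of_nonneg_right ?_ hlS
        rw [hA]
        have : 0 ≤ ((ν : ℝ) + 3) * C + Real.log ν := by positivity
        linarith
      have k4 : (1 : ℝ) ≤ A := by
        rw [hA]
        have : 0 ≤ ((ν : ℝ) + 3) * C + Real.log ν := by positivity
        linarith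
      have k5 := mul_le_mul_of_nonneg_left k2 hd0
      calc N * Real.log 2 ≤ ((ν : ℝ) + 1) * Real.log S + d * (((ν : ℝ) + 3) * C * E + Real.log ν) + 1 := k1
        _ ≤ A * Real.log S + d * (A * (E + 1)) + A := by linarith
        _ = _ := by ring
    have hU : 0 < Real.log S + d * (E + 1) + 1 := by positivity
    have e11 : (N : ℝ) ≤ A / Real.log 2 * (Real.log S + d * (E + 1) + 1) := by
      rw [div_mul_eq_mul_div, le_div_iff₀ hl2]
      exact e10
    have e12 : (A / Real.log 2 + 1) * (Real.log S + d * (E + 1) + 1) =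
        A / Real.log 2 * (Real.log S + d * (E + 1) + 1) + (Real.log S + d * (E + 1) + 1) := by ring
    rw [e12] at hN
    linarith
  obtain ⟨c, rfl⟩ := hL.uniq x v₀ v h0 hv
  rw [hIF.hom'.hom, hF0, mul_zero]

end MP2794d1.WV
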