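import Pool.Agent.Lib.MP_2794d1_ag.WV.C1
import Pool.Agent.Lib.MP_2794d1_ag.WV.C2
import Pool.Agent.Lib.MP_2794d1_ag.WV.C3
import Pool.Agent.Lib.MP_2794d1_ag.AH.A15

/-!
C4: the count, abstract form (compare `caseA_abs`, AH/A15). `η, C₀` from `small_fam ρ σ` (C1), `C₁` from `hdata η`, `C₂` from `vanish_W hL C₁` (C3), `numW ρ σ k hσ C` (C2) with `C = 2 C₂ + C₀ (C₁ + 1) + C₁ + 1`.
For `q ≥ 1` put `E = q ^ (σ + 1 - ρ) ≥ 1`, `m = exp (C₁ E)` (`log m + 1 = C₁ E + 1 ≤ (C₁ + 1) (E + 1)`), `t, N, H` from `numW`, `β, ψ` from `hdata` for `E` (`card β ≤ C₁ E ^ k = C₁ q ^ ((σ + 1 - ρ) k)`, `pow_mul`).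
`small_fam` gives `c`; `F v = hq σ t c (v ∘ α)`, `d = (σ + 1) t`, `S = (t + 1) ^ (σ + 1) H`: `IF d S F` (`hq_IF`, AH/A01, see AH/A15), `S ≤ exp (C' q ^ (σ + 1 + k))`, `log S ≤ log H + d`. For `x ∈ Z E`:
`v₀` and `b, s` from `hdata`, `v₁ = ψ b s`, `‖F v₁‖ ≤ 2 (S m ^ d) (1/2) ^ N` by `small_fam`, and `vanish_W`. `F` does not vanish on all lines: `hα`.
-/

namespace MP2794d1.WV

open Matrix Complex Filter Topology MP2794d1.PC MP2794d1.AC MP2794d1.AH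

theorem caseW_abs {X : Type} {ι κ : Type} [Fintype ι] [Fintype κ] [DecidableEq κ] {ρ σ k : ℕ}
    (hσ : ρ ≤ σ) {L : X → (ι → ℂ) → Prop} (hL : LFX L) (α : Fin (σ + 2) → ι)
    (hα : ∀ t : ℕ, 1 ≤ t → ∀ c : (Fin (σ + 1) → Fin (t + 1)) → ℤ, c ≠ 0 →
      ∃ x v, L x v ∧ hq σ t c (v ∘ α) ≠ 0)
    (Z : ℝ → Set X)
    (hdata : ∀ η : ℝ, 0 < η → ∃ C₁ : ℝ, 1 ≤ C₁ ∧ ∀ E : ℝ, 1 ≤ E →
      (∀ x ∈ Z E, ∃ v, L x v ∧ IntRep κ (Real.exp (C₁ * E)) v) ∧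
      ∃ (β : Type) (_ : Fintype β) (ψ : β → (Fin ρ → ℂ) → ι → ℂ),
        (Fintype.card β : ℝ) ≤ C₁ * E ^ k ∧ (∀ b, DifferentiableOn ℂ (ψ b) (Metric.ball 0 1)) ∧
        (∀ b, ∀ s ∈ Metric.ball (0 : Fin ρ → ℂ) 1,
          Real.exp (-(C₁ * E)) ≤ ‖ψ b s‖ ∧ ‖ψ b s‖ ≤ Real.exp (C₁ * E)) ∧
        ∀ x ∈ Z E, ∃ b, ∃ s ∈ Metric.ball (0 : Fin ρ → ℂ) 1, s ∈ Metric.closedBall (0 : Fin ρ → ℂ) η ∧
          L x (ψ b s)) :
    ∃ C : ℝ, ∀ q : ℕ, 1 ≤ q → ∃ (d : ℕ) (F : (ι → ℂ) → ℂ), (d : ℝ) ≤ C * (q : ℝ) ^ (ρ + k) ∧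
      IF d (Real.exp (C * (q : ℝ) ^ (σ + 1 + k))) F ∧ (∃ x v, L x v ∧ F v ≠ 0) ∧
      ∀ x ∈ Z ((q : ℝ) ^ (σ + 1 - ρ)), ∀ v, L x v → F v = 0 := by
  classical
  obtain ⟨η, hη0, hη1, C₀, hC₀, hsf⟩ := small_fam ρ σ
  obtain ⟨C₁, hC₁, hdat⟩ := hdata η hη0
  obtain ⟨C₂, hC₂, hvan⟩ := vanish_W (κ := κ) hL C₁ hC₁
  obtain ⟨C, hCd⟩ : ∃ C : ℝ, C = 2 * C₂ + C₀ * (C₁ + 1) + C₁ + 1 := ⟨_, rfl⟩
  have hp : 0 ≤ C₀ * (C₁ + 1) := by positivity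
  have hC1 : 1 ≤ C := by rw [hCd]; linarith
  obtain ⟨C', hC', hnum⟩ := numW ρ σ k hσ C hC1
  refine ⟨C', fun q hq1 => ?_⟩
  obtain ⟨t, N, H, ht, hN, hH, h1, h2, h3, h4⟩ := hnum q hq1
  obtain ⟨E, hE⟩ : ∃ E : ℝ, E = (q : ℝ) ^ (σ + 1 - ρ) := ⟨_, rfl⟩
  have hEk : (q : ℝ) ^ ((σ + 1 - ρ) * k) = E ^ k := by rw [hE, pow_mul]
  rw [← hE] at h3
  rw [hEk] at h4
  have hq1r : (1 : ℝ) ≤ q := by exact_mod_cast hq1
  have hE1 : 1 ≤ E := by rw [hE]; exact one_le_pow₀ hq1r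
  obtain ⟨hZ, β, hβ, ψ, hcard, hψd, hψb, hψL⟩ := hdat E hE1
  rw [← hE]
  obtain ⟨d, hd⟩ : ∃ d : ℕ, d = (σ + 1) * t := ⟨_, rfl⟩
  rw [← hd] at h1 h3
  have hd0 : (0 : ℝ) ≤ d := Nat.cast_nonneg d
  have hH1 : (1 : ℝ) ≤ H := by exact_mod_cast hH
  have hlogH : 0 ≤ Real.log H := Real.log_nonneg hH1
  have ht1 : (1 : ℝ) ≤ t := by exact_mod_cast ht
  have hN0 : (0 : ℝ) ≤ N := Nat.cast_nonneg N
  have hm : 1 ≤ Real.exp (C₁ * E) := Real.one_le_exp (by positivity)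
  have hdE : 0 ≤ (d : ℝ) * (E + 1) := by positivity
  have h5 : C₀ * (Real.log H + (((σ + 1) * t : ℕ) : ℝ) * (Real.log (Real.exp (C₁ * E)) + 1) + 1) ≤ N := by
    rw [← hd, Real.log_exp]
    refine le_trans ?_ h3
    have a1 : C₁ * E + 1 ≤ (C₁ + 1) * (E + 1) := by nlinarith
    have a2 : (d : ℝ) * (C₁ * E + 1) ≤ d * ((C₁ + 1) * (E + 1)) := mul_le_mul_of_nonneg_left a1 hd0
    have a3 : Real.log H + d * (C₁ * E + 1) + 1 ≤ (C₁ + 1) * (Real.log H + d * (E + 1) + 1) := by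
      nlinarith
    have a4 : 0 ≤ Real.log H + d * (E + 1) + 1 := by positivity
    calc C₀ * (Real.log H + d * (C₁ * E + 1) + 1)
        ≤ C₀ * ((C₁ + 1) * (Real.log H + d * (E + 1) + 1)) := mul_le_mul_of_nonneg_left a3 (by linarith)
      _ = (C₀ * (C₁ + 1)) * (Real.log H + d * (E + 1) + 1) := by ring
      _ ≤ C * (Real.log H + d * (E + 1) + 1) :=
          mul_le_mul_of_nonneg_right (by rw [hCd]; linarith) a4
  have h6 : 2 * ((Fintype.card β : ℝ) * (N : ℝ) ^ ρ) * (C₀ * N) <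
      ((t : ℝ) + 1) ^ (σ + 1) * Real.log (H + 1) := by
    refine lt_of_le_of_lt ?_ h4
    have hEk0 : 0 ≤ E ^ k := by positivity
    have a1 : (Fintype.card β : ℝ) ≤ C * E ^ k :=
      hcard.trans (mul_le_mul_of_nonneg_right (by rw [hCd]; linarith) hEk0)
    have a2 : C₀ ≤ C := by
      have : C₀ * 1 ≤ C₀ * (C₁ + 1) := mul_le_mul_of_nonneg_left (by linarith) (by linarith)
      rw [hCd]
      linarith
    have a3 : C₀ * (N : ℝ) ≤ C * N := mul_le_mul_of_nonneg_right a2 hN0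
    have a4 : 0 ≤ (N : ℝ) ^ ρ := by positivity
    have a5 : (Fintype.card β : ℝ) * (N : ℝ) ^ ρ ≤ C * E ^ k * (N : ℝ) ^ ρ := mul_le_mul_of_nonneg_right a1 a4
    exact mul_le_mul (by linarith) a3 (by positivity) (by positivity)
  obtain ⟨c, hc, hcH, hsmall⟩ := hsf β (Real.exp (C₁ * E)) hm t N H ht hN hH h5 h6 ι ψ α hψd
    (fun b s hs => (hψb b s hs).2)
  obtain ⟨S, hSd⟩ : ∃ S : ℝ, S = ((t : ℝ) + 1) ^ (σ + 1) * H := ⟨_, rfl⟩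
  have hS1 : 1 ≤ S := by
    rw [hSd]
    exact one_le_mul_of_one_le_of_one_le (one_le_pow₀ (by linarith)) hH1
  have hS0 : 0 < S := by linarith
  have hIF : IF d S (fun v => hq σ t c (v ∘ α)) := by
    have b1 := hq_IF σ t c α
    rw [← hd] at b1
    refine b1.mono ?_
    calc ∑ e, |(c e : ℝ)| ≤ ∑ _e : Fin (σ + 1) → Fin (t + 1), (H : ℝ) :=
          Finset.sum_le_sum fun e _ => hcH e
      _ = S := by
          rw [Finset.sum_const, Finset.card_univ, Fintype.card_fun, Fintype.card_fin,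
            Fintype.card_fin, nsmul_eq_mul, hSd]
          push_cast
          ring
  have hlogS : Real.log S ≤ Real.log H + d := by
    have b1 : Real.log S = ((σ + 1 : ℕ) : ℝ) * Real.log ((t : ℝ) + 1) + Real.log H := by
      rw [hSd, Real.log_mul (by positivity) (by positivity), Real.log_pow]
    have b2 : Real.log ((t : ℝ) + 1) ≤ t := by
      have := Real.log_le_sub_one_of_pos (show (0 : ℝ) < (t : ℝ) + 1 by positivity)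
      linarith
    have b3 : ((σ + 1 : ℕ) : ℝ) * Real.log ((t : ℝ) + 1) ≤ ((σ + 1 : ℕ) : ℝ) * t :=
      mul_le_mul_of_nonneg_left b2 (Nat.cast_nonneg _)
    have b4 : (d : ℝ) = ((σ + 1 : ℕ) : ℝ) * t := by
      rw [hd]
      push_cast
      ring
    rw [b1, b4]
    linarith
  refine ⟨d, fun v => hq σ t c (v ∘ α), h1, hIF.mono ?_, hα t ht c hc, ?_⟩
  · rw [← hSd] at h2
    calc S = Real.exp (Real.log S) := (Real.exp_log hS0).symm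
      _ ≤ Real.exp (C' * (q : ℝ) ^ (σ + 1 + k)) := Real.exp_le_exp.2 h2
  · intro x hx v hv
    obtain ⟨v₀, hv₀, hrep⟩ := hZ x hx
    obtain ⟨b, s, hs1, hs2, hLs⟩ := hψL x hx
    have hN2 : C₂ * (Real.log S + d * (E + 1) + 1) ≤ N := by
      refine le_trans ?_ h3
      have a2 : 0 ≤ Real.log H + d * (E + 1) + 1 := by positivity
      have a3 : (d : ℝ) ≤ d * (E + 1) := le_mul_of_one_le_right hd0 (by linarith)
      have a4 : Real.log S + d * (E + 1) + 1 ≤ 2 * (Real.log H + d * (E + 1) + 1) := by linarith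
      calc C₂ * (Real.log S + d * (E + 1) + 1)
          ≤ C₂ * (2 * (Real.log H + d * (E + 1) + 1)) := mul_le_mul_of_nonneg_left a4 (by linarith)
        _ = 2 * C₂ * (Real.log H + d * (E + 1) + 1) := by ring
        _ ≤ C * (Real.log H + d * (E + 1) + 1) :=
            mul_le_mul_of_nonneg_right (by rw [hCd]; linarith) a2
    refine hvan E hE1 d N S (fun v => hq σ t c (v ∘ α)) hS1 hIF hN2 x v₀ (ψ b s) hv₀ hLs hrep
      (hψb b s hs1).1 ?_ v hv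
    have b2 := hsmall b s hs2
    rw [← hSd, ← hd] at b2
    exact b2

end MP2794d1.WV
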