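import Pool.Agent.Lib.MP_2794d1_ag.WV.M1
import Pool.Agent.Lib.MP_2794d1_ag.WV.C4

/-!
M2: finitely many charts. `C_j` from `chart_data (ch j) η` (M1), `C₁ = ∑ j, C_j + 1` (so `C_j ≤ C₁`, and `∑ j, C_j E ^ card I_j ≤ C₁ E ^ k`), `β = Σ j, β_j` (`Fintype.card_sigma`). `IntRep` is monotone in the bound. Then `caseW_abs` (C4) with `κ = Fin n → Fin n`, `L = PX V` (`⟨PX_ne V, PX_smul V, PX_uniq V⟩`), `ρ = l`,
`Z E = {x | ∃ j, ∃ u ∈ Fund (ch j).I, x = (ch j).c u ∧ IsCMX V x (Real.exp E)}`. For `log h ≤ q ^ (σ + 1 - l)`: `h ≤ exp (q ^ (σ + 1 - l))` and `IsCMX` is monotone in `h` (`0 ≤ h`).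
-/

namespace MP2794d1.WV

open Matrix Complex Filter Topology MP2794d1 MP2794d1.AH MP2794d1.PC
open scoped ContDiff Manifold

variable {n m l : ℕ} {X G : Type} [TopologicalSpace X] [ChartedSpace (Fin m → ℂ) X]
  [IsManifold 𝓘(ℂ, Fin m → ℂ) ω X] [ConnectedSpace X] [Group G] [MulAction G X]

theorem charts_data (V : MVHS n m X G) (k J : ℕ) (ch : Fin J → Chart V l) (hk : ∀ j, (ch j).I.card ≤ k) (η : ℝ)
    (hη : 0 < η) : ∃ C₁ : ℝ, 1 ≤ C₁ ∧ ∀ E : ℝ, 1 ≤ E →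
      (∀ x ∈ {x | ∃ j, ∃ u ∈ Fund (ch j).I, x = (ch j).c u ∧ IsCMX V x (Real.exp E)},
        ∃ v, PX V x v ∧ IntRep (Fin n → Fin n) (Real.exp (C₁ * E)) v) ∧
      ∃ (β : Type) (_ : Fintype β) (ψ : β → (Fin l → ℂ) → Jx V → ℂ),
        (Fintype.card β : ℝ) ≤ C₁ * E ^ k ∧ (∀ b, DifferentiableOn ℂ (ψ b) (Metric.ball 0 1)) ∧
        (∀ b, ∀ s ∈ Metric.ball (0 : Fin l → ℂ) 1,
          Real.exp (-(C₁ * E)) ≤ ‖ψ b s‖ ∧ ‖ψ b s‖ ≤ Real.exp (C₁ * E)) ∧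
        ∀ x ∈ {x | ∃ j, ∃ u ∈ Fund (ch j).I, x = (ch j).c u ∧ IsCMX V x (Real.exp E)},
          ∃ b, ∃ s ∈ Metric.ball (0 : Fin l → ℂ) 1, s ∈ Metric.closedBall (0 : Fin l → ℂ) η ∧
            PX V x (ψ b s) := by
  classical
  choose Cj hCj1 hCj using fun j => chart_data V (ch j) η hη
  have hpos : ∀ j, 0 ≤ Cj j := fun j => by linarith [hCj1 j]
  have hle : ∀ j, Cj j ≤ ∑ j, Cj j + 1 := by
    intro j
    have h1 : Cj j ≤ ∑ j, Cj j := Finset.single_le_sum (fun i _ => hpos i) (Finset.mem_univ j)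
    linarith
  have hsum0 : 0 ≤ ∑ j, Cj j := Finset.sum_nonneg fun j _ => hpos j
  refine ⟨∑ j, Cj j + 1, by linarith, fun E hE => ?_⟩
  have hexp : ∀ j, Real.exp (Cj j * E) ≤ Real.exp ((∑ j, Cj j + 1) * E) := fun j =>
    Real.exp_le_exp.2 (mul_le_mul_of_nonneg_right (hle j) (by linarith))
  have hexp2 : ∀ j, Real.exp (-((∑ j, Cj j + 1) * E)) ≤ Real.exp (-(Cj j * E)) := fun j =>
    Real.exp_le_exp.2 (neg_le_neg (mul_le_mul_of_nonneg_right (hle j) (by linarith)))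
  refine ⟨?_, ?_⟩
  · rintro x ⟨j, u, hu, rfl, hcm⟩
    obtain ⟨v, hv1, hv2⟩ := (hCj j E hE).1 u hu hcm
    exact ⟨v, hv1, hv2.mono (hexp j)⟩
  · choose β fβ ψ h1 h2 h3 h4 using fun j => (hCj j E hE).2
    letI : ∀ j, Fintype (β j) := fβ
    refine ⟨(Σ j, β j), inferInstance, fun b => ψ b.1 b.2, ?_, fun b => h2 b.1 b.2, fun b s hs => ?_, ?_⟩
    · rw [Fintype.card_sigma, Nat.cast_sum]
      calc ∑ j, ((Fintype.card (β j) : ℕ) : ℝ) ≤ ∑ j, Cj j * E ^ k := by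
            refine Finset.sum_le_sum fun j _ => (h1 j).trans ?_
            exact mul_le_mul_of_nonneg_left (pow_le_pow_right₀ hE (hk j)) (hpos j)
        _ = (∑ j, Cj j) * E ^ k := by rw [Finset.sum_mul]
        _ ≤ (∑ j, Cj j + 1) * E ^ k := mul_le_mul_of_nonneg_right (by linarith) (by positivity)
    · obtain ⟨g1, g2⟩ := h3 b.1 b.2 s hs
      exact ⟨(hexp2 b.1).trans g1, g2.trans (hexp b.1)⟩
    · rintro x ⟨j, u, hu, rfl, hcm⟩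
      obtain ⟨b, s, hs, hs2, hP⟩ := h4 j u hu hcm
      exact ⟨⟨j, b⟩, s, hs, hs2, hP⟩

theorem charts_count (V : MVHS n m X G) (σ k : ℕ) (hσ : l ≤ σ) (α : Fin (σ + 2) → Jx V)
    (hα : ∀ t : ℕ, 1 ≤ t → ∀ c : (Fin (σ + 1) → Fin (t + 1)) → ℤ, c ≠ 0 →
      ∃ x v, PX V x v ∧ hq σ t c (v ∘ α) ≠ 0)
    (J : ℕ) (ch : Fin J → Chart V l) (hk : ∀ j, (ch j).I.card ≤ k) :
    ∃ C : ℝ, ∀ q : ℕ, 1 ≤ q → ∃ (d : ℕ) (F : (Jx V → ℂ) → ℂ), (d : ℝ) ≤ C * (q : ℝ) ^ (l + k) ∧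
      AC.IF d (Real.exp (C * (q : ℝ) ^ (σ + 1 + k))) F ∧ (∃ x v, PX V x v ∧ F v ≠ 0) ∧
      ∀ j, ∀ u ∈ Fund (ch j).I, ∀ h : ℝ, 2 ≤ h → Real.log h ≤ (q : ℝ) ^ (σ + 1 - l) →
        IsCMX V ((ch j).c u) h → ∀ v, PX V ((ch j).c u) v → F v = 0 := by
  classical
  have hL : LFX (PX V) := ⟨PX_ne V, PX_smul V, PX_uniq V⟩
  obtain ⟨C, hC⟩ := caseW_abs (κ := Fin n → Fin n) (k := k) hσ hL α hα
    (fun E => {x | ∃ j, ∃ u ∈ Fund (ch j).I, x = (ch j).c u ∧ IsCMX V x (Real.exp E)}) (charts_data V k J ch hk)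
  refine ⟨C, fun q hq => ?_⟩
  obtain ⟨d, F, h1, h2, h3, h4⟩ := hC q hq
  refine ⟨d, F, h1, h2, h3, fun j u hu h hh hlog hcm v hv => h4 _ ⟨j, u, hu, rfl, ?_⟩ v hv⟩
  obtain ⟨A, a1, a2, a3⟩ := hcm
  refine ⟨A, a1, a2, a3.trans ?_⟩
  have h5 : h ≤ Real.exp ((q : ℝ) ^ (σ + 1 - l)) := by
    rw [← Real.exp_log (by linarith : (0 : ℝ) < h)]
    exact Real.exp_le_exp.2 hlog
  exact pow_le_pow_left₀ (by linarith) h5 2

end MP2794d1.WV
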