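import Pool.Agent.Lib.MP_2794d1_ag.WV.R1
import Pool.Agent.Lib.MP_2794d1_ag.AC.D1

/-!
R2: the Hilbert function, abstract form. `η, C₀` from `small_famT ρ` (R1), `C₁` from `hdata η`; `K = (C₀ + C₁) (C₁ + 8)`, `c₃ = 2 C₁ C₀ (2 K) ^ (ρ + 1)` (`≥ 1`), `a ≥ 1` with `log (2 c₃) + ρ log a + 2 ρ + k ≤ a` (exists: `a = 2 (log (2 c₃) + 2 ρ + k + 1) + 16 ρ ^ 2`, `log a ≤ 2 √a`; or
by a limit: `Real.isLittleO_log_id_atTop`), `C = max (c₃ a ^ ρ) (2 a + 1)`. Let `E ≥ 1`, `d ≥ 1`, `y = d E ≥ 1`, `s₀ = ⌊c₃ a ^ ρ d ^ ρ E ^ (ρ + k)⌋₊ + 1 ≤ card τ` (the floor is `< card τ`); `emb : Fin s₀ ↪ τ`; `H = ⌈exp (a y)⌉₊`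
(`a y ≤ log H ≤ 2 a y`, `log (H + 1) ≥ a y`), `N = ⌈K a y⌉₊` (`K a y ≤ N ≤ 2 K a y`). (i) `log s₀ ≤ log (2 c₃ a ^ ρ d ^ ρ E ^ (ρ + k)) ≤ log (2 c₃) + ρ log a + (2 ρ + k) y ≤ a y`. (ii) with `S = s₀ H`: `C₀ (log s₀ + log H + d log m + 1) ≤ N` and `C₁ (log S + d (E + 1) + 1) ≤ N`, as
`log S ≤ 3 a y`, `d log m ≤ C₁ y`, `d (E + 1) + 1 ≤ 3 y`. (iii) `2 card β N ^ ρ C₀ N ≤ 2 C₁ E ^ k C₀ (2 K a y) ^ (ρ + 1) = c₃ a ^ ρ d ^ ρ E ^ (ρ + k) (a y) < s₀ log (H + 1)`. `small_famT` for `τ' = Fin s₀`, `I ∘ emb`, gives `c'`; `F v = ∑ j, c' j * ∏ i, v (I (emb j) i)` is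
`IF d S` (`IF.single`, `IF.zsmul`, `IF.sum`, `IF.mono`, AC/D1). By `hdata` `F` vanishes on the lines over `Z E`. `c t = c' j` if `t = emb j`, `0` otherwise (`Function.extend emb c' 0`, or `∑ j, if emb j = t then c' j else 0`); `|c t| ≤ H ≤ exp (2 a y) ≤ exp (C d E)`.
-/

namespace MP2794d1.WV

open Matrix Complex Filter Topology MP2794d1.PC MP2794d1.AC MP2794d1.AH

private theorem r2_a (ρ : ℕ) (A₀ : ℝ) (hA : 0 ≤ A₀) : ∃ a : ℝ, 1 ≤ a ∧ A₀ + ρ * Real.log a ≤ a := by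
  have hρ : (0 : ℝ) ≤ ρ := Nat.cast_nonneg ρ
  have hr : (1 : ℝ) ≤ 2 * ρ + A₀ + 1 := by linarith
  refine ⟨(2 * ρ + A₀ + 1) ^ 2, one_le_pow₀ hr, ?_⟩
  have h1 : Real.log (2 * ρ + A₀ + 1) ≤ 2 * ρ + A₀ + 1 - 1 :=
    Real.log_le_sub_one_of_pos (by linarith)
  rw [Real.log_pow]
  push_cast
  have h2 : (ρ : ℝ) * (2 * Real.log (2 * ρ + A₀ + 1)) ≤ ρ * (2 * (2 * ρ + A₀)) :=
    mul_le_mul_of_nonneg_left (by linarith) hρ
  nlinarith [mul_nonneg hρ hA, mul_nonneg hρ hρ, mul_nonneg hA hA]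

/-- the choice of the parameters -/
private theorem r2_num (ρ k : ℕ) (C₀ C₁ : ℝ) (hC₀ : 1 ≤ C₀) (hC₁ : 1 ≤ C₁) :
    ∃ C : ℝ, 1 ≤ C ∧ ∀ E : ℝ, 1 ≤ E → ∀ d : ℕ, 1 ≤ d → ∀ T : ℕ,
      C * (d : ℝ) ^ ρ * E ^ (ρ + k) < T → ∀ m B : ℝ, 1 ≤ m → Real.log m ≤ C₁ * E →
      B ≤ C₁ * E ^ k →
      ∃ s N H : ℕ, 1 ≤ s ∧ s ≤ T ∧ 1 ≤ N ∧ 1 ≤ H ∧ (H : ℝ) ≤ Real.exp (C * d * E) ∧
        C₀ * (Real.log s + Real.log H + d * Real.log m + 1) ≤ N ∧
        C₁ * (Real.log ((s : ℝ) * H) + d * (E + 1) + 1) ≤ N ∧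
        2 * (B * (N : ℝ) ^ ρ) * (C₀ * N) < s * Real.log (H + 1) := by
  set K : ℝ := (C₀ + C₁) * (C₁ + 8) with hK
  have hK1 : 1 ≤ K := one_le_mul_of_one_le_of_one_le (by linarith) (by linarith)
  have hKa : C₀ * (4 + C₁) ≤ K := by
    rw [hK]
    nlinarith
  have hKb : C₁ * 6 ≤ K := by
    rw [hK]
    nlinarith
  set c₃ : ℝ := 2 * C₁ * C₀ * (2 * K) ^ (ρ + 1) with hc₃
  have hc₃1 : 1 ≤ c₃ := by
    rw [hc₃]
    refine one_le_mul_of_one_le_of_one_le ?_ (one_le_pow₀ (by linarith))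
    nlinarith
  have hc₃0 : 0 < c₃ := by linarith
  have hlog3 : 0 ≤ Real.log (2 * c₃) := Real.log_nonneg (by linarith)
  have hρ0 : (0 : ℝ) ≤ ρ := Nat.cast_nonneg ρ
  have hk0 : (0 : ℝ) ≤ k := Nat.cast_nonneg k
  obtain ⟨a, ha1, ha⟩ := r2_a ρ (Real.log (2 * c₃) + 2 * ρ + k) (by positivity)
  have ha0 : 0 < a := by linarith
  have hloga : 0 ≤ Real.log a := Real.log_nonneg ha1
  refine ⟨max (c₃ * a ^ ρ) (2 * a + 1), le_max_of_le_right (by linarith), ?_⟩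
  intro E hE d hd T hT m B hm hmE hB
  have hE0 : 0 < E := by linarith
  have hd1 : (1 : ℝ) ≤ d := by exact_mod_cast hd
  have hd0 : (0 : ℝ) < d := by linarith
  set y : ℝ := d * E with hy
  have hy1 : 1 ≤ y := one_le_mul_of_one_le_of_one_le hd1 hE
  have hy0 : 0 < y := by linarith
  have hdy : (d : ℝ) ≤ y := le_mul_of_one_le_right hd0.le hE
  have hEy : E ≤ y := le_mul_of_one_le_left hE0.le hd1
  have hay : 1 ≤ a * y := one_le_mul_of_one_le_of_one_le ha1 hy1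
  set x₀ : ℝ := c₃ * a ^ ρ * (d : ℝ) ^ ρ * E ^ (ρ + k) with hx₀
  have hx₀1 : 1 ≤ x₀ := by
    rw [hx₀]
    refine one_le_mul_of_one_le_of_one_le (one_le_mul_of_one_le_of_one_le
      (one_le_mul_of_one_le_of_one_le hc₃1 (one_le_pow₀ ha1)) (one_le_pow₀ hd1))
      (one_le_pow₀ hE)
  have hx₀T : x₀ < T := by
    refine lt_of_le_of_lt ?_ hT
    rw [hx₀]
    gcongr
    exact le_max_left _ _
  obtain ⟨s, hs⟩ : ∃ s : ℕ, s = ⌊x₀⌋₊ + 1 := ⟨_, rfl⟩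
  have hsT : s ≤ T := by
    have h1 : ⌊x₀⌋₊ < T := (Nat.floor_lt (by linarith)).mpr hx₀T
    omega
  have hsx : x₀ < s := by
    rw [hs]
    push_cast
    exact Nat.lt_floor_add_one x₀
  have hs2 : (s : ℝ) ≤ 2 * x₀ := by
    rw [hs]
    push_cast
    have := Nat.floor_le (show 0 ≤ x₀ by linarith)
    linarith
  have hs0 : (0 : ℝ) < s := by linarith
  have hlogs : Real.log s ≤ a * y := by
    have h1 : Real.log s ≤ Real.log (2 * x₀) := Real.log_le_log hs0 hs2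
    have h2 : Real.log (2 * x₀) = Real.log (2 * c₃) + ρ * Real.log a + ρ * Real.log d +
        (ρ + k : ℕ) * Real.log E := by
      rw [hx₀, show 2 * (c₃ * a ^ ρ * (d : ℝ) ^ ρ * E ^ (ρ + k)) =
        (2 * c₃) * a ^ ρ * (d : ℝ) ^ ρ * E ^ (ρ + k) by ring,
        Real.log_mul (by positivity) (by positivity), Real.log_mul (by positivity) (by positivity),
        Real.log_mul (by positivity) (by positivity), Real.log_pow, Real.log_pow, Real.log_pow]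
    have h3 : Real.log d ≤ y := by
      have := Real.log_le_sub_one_of_pos hd0
      linarith
    have h4 : Real.log E ≤ y := by
      have := Real.log_le_sub_one_of_pos hE0
      linarith
    have h5 : (ρ : ℝ) * Real.log d ≤ ρ * y := mul_le_mul_of_nonneg_left h3 hρ0
    have h6 : ((ρ + k : ℕ) : ℝ) * Real.log E ≤ (ρ + k : ℕ) * y :=
      mul_le_mul_of_nonneg_left h4 (Nat.cast_nonneg _)
    push_cast at h6 h2
    have h7 : Real.log (2 * c₃) + ρ * Real.log a ≤ (Real.log (2 * c₃) + ρ * Real.log a) * y :=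
      le_mul_of_one_le_right (by positivity) hy1
    have h8 : (Real.log (2 * c₃) + 2 * ρ + k + ρ * Real.log a) * y ≤ a * y :=
      mul_le_mul_of_nonneg_right ha hy0.le
    nlinarith
  obtain ⟨H, hH⟩ : ∃ H : ℕ, H = ⌈Real.exp (a * y)⌉₊ := ⟨_, rfl⟩
  have hHl : Real.exp (a * y) ≤ H := by rw [hH]; exact Nat.le_ceil _
  have hHu : (H : ℝ) ≤ 2 * Real.exp (a * y) := by
    have h1 : (H : ℝ) < Real.exp (a * y) + 1 := by
      rw [hH]; exact Nat.ceil_lt_add_one (Real.exp_pos _).le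
    have h2 : 1 ≤ Real.exp (a * y) := Real.one_le_exp (by positivity)
    linarith
  have hH0 : (0 : ℝ) < H := (Real.exp_pos _).trans_le hHl
  have hlogHl : a * y ≤ Real.log H := by
    rw [Real.le_log_iff_exp_le hH0]; exact hHl
  have hlogHu : Real.log H ≤ 2 * (a * y) := by
    have h1 : Real.log H ≤ Real.log (2 * Real.exp (a * y)) := Real.log_le_log hH0 hHu
    rw [Real.log_mul (by norm_num) (Real.exp_pos _).ne', Real.log_exp] at h1
    have := Real.log_two_lt_d9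
    linarith
  obtain ⟨N, hN⟩ : ∃ N : ℕ, N = ⌈K * (a * y)⌉₊ := ⟨_, rfl⟩
  have hKay : 1 ≤ K * (a * y) := one_le_mul_of_one_le_of_one_le hK1 hay
  have hNl : K * (a * y) ≤ N := by rw [hN]; exact Nat.le_ceil _
  have hNu : (N : ℝ) ≤ 2 * K * (a * y) := by
    have h1 : (N : ℝ) < K * (a * y) + 1 := by
      rw [hN]; exact Nat.ceil_lt_add_one (by linarith)
    linarith
  have hlogm : 0 ≤ Real.log m := Real.log_nonneg hm
  have hdm : d * Real.log m ≤ C₁ * (a * y) := by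
    calc d * Real.log m ≤ d * (C₁ * E) := mul_le_mul_of_nonneg_left hmE hd0.le
      _ = C₁ * y := by rw [hy]; ring
      _ ≤ C₁ * (a * y) := by
        refine mul_le_mul_of_nonneg_left ?_ (by linarith)
        exact le_mul_of_one_le_left hy0.le ha1
  have hyay : y ≤ a * y := le_mul_of_one_le_left hy0.le ha1
  refine ⟨s, N, H, by omega, hsT, ?_, ?_, ?_, ?_, ?_, ?_⟩
  · rw [hN]; exact Nat.ceil_pos.2 (by linarith)
  · rw [hH]; exact Nat.ceil_pos.2 (Real.exp_pos _)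
  · rw [← Real.log_le_iff_le_exp hH0]
    refine hlogHu.trans ?_
    have h1 : 2 * a ≤ max (c₃ * a ^ ρ) (2 * a + 1) := le_max_of_le_right (by linarith)
    calc 2 * (a * y) = 2 * a * y := by ring
      _ ≤ max (c₃ * a ^ ρ) (2 * a + 1) * y := mul_le_mul_of_nonneg_right h1 hy0.le
      _ = max (c₃ * a ^ ρ) (2 * a + 1) * d * E := by rw [hy]; ring
  · refine le_trans ?_ hNl
    calc C₀ * (Real.log s + Real.log H + d * Real.log m + 1) ≤ C₀ * ((4 + C₁) * (a * y)) := by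
          refine mul_le_mul_of_nonneg_left ?_ (by linarith)
          linarith
      _ = C₀ * (4 + C₁) * (a * y) := by ring
      _ ≤ K * (a * y) := mul_le_mul_of_nonneg_right hKa (by linarith)
  · refine le_trans ?_ hNl
    rw [Real.log_mul hs0.ne' hH0.ne']
    have h1 : d * (E + 1) ≤ 2 * y := by
      rw [hy]
      nlinarith
    calc C₁ * (Real.log s + Real.log H + d * (E + 1) + 1) ≤ C₁ * (6 * (a * y)) := by
          refine mul_le_mul_of_nonneg_left ?_ (by linarith)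
          linarith
      _ = C₁ * 6 * (a * y) := by ring
      _ ≤ K * (a * y) := mul_le_mul_of_nonneg_right hKb (by linarith)
  · have hN0 : (0 : ℝ) ≤ N := Nat.cast_nonneg N
    calc 2 * (B * (N : ℝ) ^ ρ) * (C₀ * N) = 2 * C₀ * (N : ℝ) ^ (ρ + 1) * B := by ring
      _ ≤ 2 * C₀ * (N : ℝ) ^ (ρ + 1) * (C₁ * E ^ k) :=
          mul_le_mul_of_nonneg_left hB (by positivity)
      _ ≤ 2 * C₀ * (2 * K * (a * y)) ^ (ρ + 1) * (C₁ * E ^ k) := by gcongr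
      _ = x₀ * (a * y) := by
          rw [hx₀, hc₃, hy]
          ring_nf
      _ < s * (a * y) := mul_lt_mul_of_pos_right hsx (by linarith)
      _ ≤ s * Real.log (H + 1) := by
          refine mul_le_mul_of_nonneg_left ?_ hs0.le
          exact hlogHl.trans (Real.log_le_log hH0 (by linarith))

theorem rel_abs {X ι : Type} [Fintype ι] {ρ k : ℕ} {L : X → (ι → ℂ) → Prop} (Z : ℝ → Set X)
    (hdata : ∀ η : ℝ, 0 < η → ∃ C₁ : ℝ, 1 ≤ C₁ ∧ ∀ E : ℝ, 1 ≤ E →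
      ∃ (β : Type) (_ : Fintype β) (ψ : β → (Fin ρ → ℂ) → ι → ℂ) (m : ℝ),
        1 ≤ m ∧ Real.log m ≤ C₁ * E ∧ (Fintype.card β : ℝ) ≤ C₁ * E ^ k ∧
        (∀ b, DifferentiableOn ℂ (ψ b) (Metric.ball 0 1)) ∧
        (∀ b, ∀ s ∈ Metric.ball (0 : Fin ρ → ℂ) 1, ‖ψ b s‖ ≤ m) ∧
        ∀ (d N : ℕ) (S : ℝ) (F : (ι → ℂ) → ℂ), 1 ≤ S → IF d S F →
          C₁ * (Real.log S + d * (E + 1) + 1) ≤ N →
          (∀ b, ∀ s ∈ Metric.ball (0 : Fin ρ → ℂ) 1, s ∈ Metric.closedBall (0 : Fin ρ → ℂ) η →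
            ‖F (ψ b s)‖ ≤ 2 * (S * m ^ d) * (1 / 2) ^ N) →
          ∀ x ∈ Z E, ∀ v, L x v → F v = 0) :
    ∃ C : ℝ, 1 ≤ C ∧ ∀ E : ℝ, 1 ≤ E → ∀ d : ℕ, 1 ≤ d → ∀ (τ : Type) [Fintype τ] (I : τ → Fin d → ι),
      C * (d : ℝ) ^ ρ * E ^ (ρ + k) < Fintype.card τ →
      ∃ c : τ → ℤ, c ≠ 0 ∧ (∀ t, |(c t : ℝ)| ≤ Real.exp (C * d * E)) ∧
        ∀ x ∈ Z E, ∀ v, L x v → ∑ t, (c t : ℂ) * ∏ i, v (I t i) = 0 := by
  classical
  obtain ⟨η, hη0, hη1, C₀, hC₀, hfam⟩ := small_famT ρ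
  obtain ⟨C₁, hC₁, hdat⟩ := hdata η hη0
  obtain ⟨C, hC, hnum⟩ := r2_num ρ k C₀ C₁ hC₀ hC₁
  refine ⟨C, hC, ?_⟩
  intro E hE d hd τ _ I hτ
  obtain ⟨β, _, ψ, m, hm1, hmE, hβ, hψd, hψb, hvan⟩ := hdat E hE
  obtain ⟨s, N, H, hs1, hsT, hN1, hH1, hHC, h1, h2, h3⟩ :=
    hnum E hE d hd (Fintype.card τ) hτ m (Fintype.card β) hm1 hmE hβ
  obtain ⟨emb⟩ : Nonempty (Fin s ↪ τ) :=
    Function.Embedding.nonempty_of_card_le (by rw [Fintype.card_fin]; exact hsT)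
  obtain ⟨c', hc'0, hc'H, hc's⟩ := hfam β (Fin s) m hm1 d N H hN1 hH1
    (by rw [Fintype.card_fin]; exact h1) (by rw [Fintype.card_fin]; exact h3) ι ψ
    (fun j => I (emb j)) hψd hψb
  have hIF : IF d ((s : ℝ) * H) (fun v : ι → ℂ => ∑ j, (c' j : ℂ) * ∏ i, v (I (emb j) i)) := by
    have h4 := IF.sum (Finset.univ : Finset (Fin s)) (k := d)
      (F := fun j (v : ι → ℂ) => (c' j : ℂ) * ∏ i, v (I (emb j) i))
      (fun j _ => (IF.single (I (emb j))).zsmul (c' j))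
    refine h4.mono ?_
    calc ∑ j, |(c' j : ℝ)| * 1 ≤ ∑ _j : Fin s, (H : ℝ) :=
          Finset.sum_le_sum fun j _ => by rw [mul_one]; exact hc'H j
      _ = s * H := by rw [Finset.sum_const, Finset.card_univ, Fintype.card_fin, nsmul_eq_mul]
  have hS1 : (1 : ℝ) ≤ (s : ℝ) * H :=
    one_le_mul_of_one_le_of_one_le (by exact_mod_cast hs1) (by exact_mod_cast hH1)
  have hv := hvan d N ((s : ℝ) * H) _ hS1 hIF h2 (by
    intro b t _ ht
    have h5 := hc's b t ht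
    rw [Fintype.card_fin] at h5
    exact h5)
  have hext : ∀ j, Function.extend emb c' 0 (emb j) = c' j := fun j => emb.injective.extend_apply c' 0 j
  refine ⟨Function.extend emb c' 0, ?_, ?_, ?_⟩
  · intro h0
    apply hc'0
    funext j
    rw [← hext j, h0]
    rfl
  · intro t
    by_cases ht : ∃ j, emb j = t
    · obtain ⟨j, rfl⟩ := ht
      rw [hext]
      exact (hc'H j).trans hHC
    · rw [Function.extend_apply' _ _ _ ht]
      simp only [Pi.zero_apply, Int.cast_zero, abs_zero]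
      exact (Real.exp_pos _).le
  · intro x hx v hLv
    have h6 := hv x hx v hLv
    rw [← h6]
    have h7 : ∑ t : τ, ((Function.extend emb c' 0 t : ℤ) : ℂ) * ∏ i, v (I t i) =
        ∑ t ∈ Finset.univ.map emb, ((Function.extend emb c' 0 t : ℤ) : ℂ) * ∏ i, v (I t i) := by
      symm
      refine Finset.sum_subset (Finset.subset_univ _) fun t _ ht => ?_
      have h8 : ¬ ∃ j, emb j = t := by
        rintro ⟨j, rfl⟩
        exact ht (Finset.mem_map_of_mem _ (Finset.mem_univ j))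
      rw [Function.extend_apply' _ _ _ h8]
      simp
    rw [h7, Finset.sum_map]
    refine Finset.sum_congr rfl fun j _ => ?_
    rw [hext]

end MP2794d1.WV
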