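import Pool.Agent.Lib.MP_2794d1_ag.WV.R0
import Pool.Agent.Lib.MP_2794d1_ag.WV.R2
import Pool.Agent.Lib.MP_2794d1_ag.WV.M2

/-!
R4: Hilbert functions of the CM points in charts. `rel_abs` (R2) with `ρ = l`, `Z E = {x | ∃ j, ∃ u ∈ Fund (ch j).I, x = (ch j).c u ∧ IsCMX V x (Real.exp E)}`, `L = PX V` (`hL : LFX (PX V) := ⟨PX_ne V, PX_smul V, PX_uniq V⟩`). Data: given `η`, `charts_data V k J ch hk η` (M2; the statement of `charts_data` is `hdata` of
C4 for this `Z`): `C₂`, and for `E`: `β, ψ`; `m = exp (C₂ E)`; `vanish_W hL C₂` (C3): `C₃`. `C₁ = C₂ + C₃`. For `x ∈ Z E`: `v₀` with `IntRep`, `b, s` with `PX V x (ψ b s)`, `v₁ = ψ b s`, `exp (-(C₂ E)) ≤ ‖v₁‖`; `vanish_W`. The passage from `h` to `E = max 1 (log h)` as in R3: `1 ≤ E ≤ log h / log 2`.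
-/

namespace MP2794d1.WV

open Matrix Complex Filter Topology MP2794d1 MP2794d1.AH MP2794d1.PC
open scoped ContDiff Manifold

private theorem R4_log2 : 0 < Real.log 2 := Real.log_pos (by norm_num)

/-- from `E` to `h` -/
private theorem R4_pass {n m : ℕ} {X G : Type} [TopologicalSpace X] [ChartedSpace (Fin m → ℂ) X]
    [Group G] [MulAction G X] [Nonempty X] (V : MVHS n m X G) (Z Z' : ℝ → Set X) (a b : ℕ)
    (hZ : ∀ h : ℝ, 2 ≤ h → Z' h ⊆ Z (max 1 (Real.log h)))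
    (H : ∃ C : ℝ, 1 ≤ C ∧ ∀ E : ℝ, 1 ≤ E → ∀ d : ℕ, 1 ≤ d → ∀ (τ : Type) [Fintype τ]
      (I : τ → Fin d → Jx V), C * (d : ℝ) ^ a * E ^ b < Fintype.card τ →
      ∃ c : τ → ℤ, c ≠ 0 ∧ (∀ t, |(c t : ℝ)| ≤ Real.exp (C * d * E)) ∧
        ∀ x ∈ Z E, ∀ v, PX V x v → ∑ t, (c t : ℂ) * ∏ i, v (I t i) = 0) :
    HilbertBd V Z' a b := by
  obtain ⟨C, hC, H⟩ := H
  have hl2 : 0 < Real.log 2 := R4_log2
  have hl2' : Real.log 2 ≤ 1 := by
    have := Real.log_le_sub_one_of_pos (show (0 : ℝ) < 2 by norm_num)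
    linarith
  have hinv : 1 ≤ 1 / Real.log 2 := by
    rw [le_div_iff₀ hl2]
    linarith
  refine ⟨C * (1 / Real.log 2) ^ (b + 1), fun h hh d hd τ _ I hcard => ?_⟩
  have hlh : Real.log 2 ≤ Real.log h := Real.log_le_log (by norm_num) hh
  have hlh0 : 0 < Real.log h := lt_of_lt_of_le hl2 hlh
  have hE1 : (1 : ℝ) ≤ max 1 (Real.log h) := le_max_left _ _
  have hE2 : max 1 (Real.log h) ≤ (1 / Real.log 2) * Real.log h := by
    refine max_le ?_ ?_
    · rw [div_mul_eq_mul_div, one_mul, le_div_iff₀ hl2]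
      linarith
    · exact le_mul_of_one_le_left hlh0.le hinv
  obtain ⟨E, hEd⟩ : ∃ E : ℝ, E = max 1 (Real.log h) := ⟨_, rfl⟩
  rw [← hEd] at hE1 hE2
  have hd0 : (0 : ℝ) ≤ d := Nat.cast_nonneg d
  have hC0 : 0 ≤ C := by linarith
  have h1 : C * (d : ℝ) ^ a * E ^ b < Fintype.card τ := by
    refine lt_of_le_of_lt ?_ hcard
    have e1 : E ^ b ≤ ((1 / Real.log 2) * Real.log h) ^ b :=
      pow_le_pow_left₀ (by linarith) hE2 b
    calc C * (d : ℝ) ^ a * E ^ b ≤ C * (d : ℝ) ^ a * ((1 / Real.log 2) * Real.log h) ^ b :=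
          mul_le_mul_of_nonneg_left e1 (by positivity)
      _ = (C * (1 / Real.log 2) ^ b * (d : ℝ) ^ a * Real.log h ^ b) * 1 := by
          rw [mul_pow]
          ring
      _ ≤ (C * (1 / Real.log 2) ^ b * (d : ℝ) ^ a * Real.log h ^ b) * (1 / Real.log 2) :=
          mul_le_mul_of_nonneg_left hinv (by positivity)
      _ = C * (1 / Real.log 2) ^ (b + 1) * (d : ℝ) ^ a * Real.log h ^ b := by
          rw [pow_succ]
          ring
  obtain ⟨c, hc0, hcb, hc⟩ := H E hE1 d hd τ I h1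
  refine ⟨c, hc0, fun t => (hcb t).trans (Real.exp_le_exp.2 ?_), fun x hx v hv => ?_⟩
  · have e1 : 1 ≤ (1 / Real.log 2) ^ b := one_le_pow₀ hinv
    calc C * d * E ≤ C * d * ((1 / Real.log 2) * Real.log h) :=
          mul_le_mul_of_nonneg_left hE2 (by positivity)
      _ = 1 * (C * d * ((1 / Real.log 2) * Real.log h)) := by ring
      _ ≤ (1 / Real.log 2) ^ b * (C * d * ((1 / Real.log 2) * Real.log h)) :=
          mul_le_mul_of_nonneg_right e1 (by positivity)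
      _ = C * (1 / Real.log 2) ^ (b + 1) * d * Real.log h := by
          rw [pow_succ]
          ring
  · exact hc x (by rw [hEd]; exact hZ h hh hx) v hv

/-- monotonicity of `IsCMX` -/
private theorem R4_monoE {n m : ℕ} {X G : Type} [TopologicalSpace X] [ChartedSpace (Fin m → ℂ) X]
    [Group G] [MulAction G X] (V : MVHS n m X G) (x : X) {h : ℝ} (hh : 2 ≤ h)
    (H : IsCMX V x h) : IsCMX V x (Real.exp (max 1 (Real.log h))) := by
  obtain ⟨A, h1, h2, h3⟩ := H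
  have e1 : h ≤ Real.exp (max 1 (Real.log h)) := by
    calc h = Real.exp (Real.log h) := (Real.exp_log (by linarith)).symm
      _ ≤ _ := Real.exp_le_exp.2 (le_max_right _ _)
  exact ⟨A, h1, h2, h3.trans (pow_le_pow_left₀ (by linarith) e1 2)⟩

variable {n m l : ℕ} {X G : Type} [TopologicalSpace X] [ChartedSpace (Fin m → ℂ) X]
  [IsManifold 𝓘(ℂ, Fin m → ℂ) ω X] [ConnectedSpace X] [Group G] [MulAction G X]

theorem charts_rel (V : MVHS n m X G) (k J : ℕ) (ch : Fin J → Chart V l)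
    (hk : ∀ j, (ch j).I.card ≤ k) : HilbertBd V (CMin V (Cov ch)) l (l + k) := by
  have hL : LFX (PX V) := ⟨PX_ne V, PX_smul V, PX_uniq V⟩
  refine R4_pass V (fun E => {x | ∃ j, ∃ u ∈ Fund (ch j).I, x = (ch j).c u ∧
    IsCMX V x (Real.exp E)}) _ l (l + k) ?_ ?_
  · rintro h hh x ⟨⟨j, u, hu, hxu⟩, hx⟩
    exact ⟨j, u, hu, hxu, R4_monoE V x hh hx⟩
  · refine rel_abs (k := k) (L := PX V) (fun E => {x | ∃ j, ∃ u ∈ Fund (ch j).I,
      x = (ch j).c u ∧ IsCMX V x (Real.exp E)}) (fun η hη => ?_)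
    obtain ⟨C₂, hC₂, hdat⟩ := charts_data V k J ch hk η hη
    obtain ⟨C₃, hC₃, hvan⟩ := vanish_W (κ := Fin n → Fin n) hL C₂ hC₂
    refine ⟨C₂ + C₃, by linarith, fun E hE => ?_⟩
    obtain ⟨hrep, β, hβ, ψ, hcard, hdiff, hbd, hcov⟩ := hdat E hE
    have hC₂E : 0 ≤ C₂ * E := by positivity
    refine ⟨β, hβ, ψ, Real.exp (C₂ * E), Real.one_le_exp hC₂E, ?_, ?_, hdiff,
      fun b s hs => (hbd b s hs).2, ?_⟩
    · rw [Real.log_exp]
      exact mul_le_mul_of_nonneg_right (by linarith) (by linarith)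
    · refine hcard.trans (mul_le_mul_of_nonneg_right (by linarith) (by positivity))
    · intro d N S F hS hIF hN hsmall x hx v hv
      obtain ⟨v₀, hv₀, hint⟩ := hrep x hx
      obtain ⟨b, s, hs1, hs2, hLs⟩ := hcov x hx
      have hlS : 0 ≤ Real.log S := Real.log_nonneg hS
      have hQ : 0 ≤ Real.log S + d * (E + 1) + 1 := by positivity
      refine hvan E hE d N S F hS hIF ?_ x v₀ (ψ b s) hv₀ hLs hint (hbd b s hs1).1
        (hsmall b s hs1 hs2) v hv
      exact le_trans (mul_le_mul_of_nonneg_right (by linarith) hQ) hN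

end MP2794d1.WV
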