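import Pool.Agent.Lib.MP_2794d1_ag.WV.R3
import Pool.Agent.Lib.MP_2794d1_ag.WV.R4
import Pool.Agent.Lib.MP_2794d1_ag.WV.Fin

/-!
Fin2: the final statement.
-/

namespace MP2794d1.WV

open Matrix Complex Filter Topology MP2794d1 MP2794d1.AH MP2794d1.PC
open scoped ContDiff Manifold

variable {n m : ℕ} {X G : Type} [TopologicalSpace X] [ChartedSpace (Fin m → ℂ) X]
  [IsManifold 𝓘(ℂ, Fin m → ℂ) ω X] [ConnectedSpace X] [Group G] [MulAction G X]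

theorem whole2 (V : MVHS n m X G) (hC : CurvesSpan m X G) :
    ∃ ρ D : ℕ, IsGreatest (Set.range (rankX V)) ρ ∧ IsGreatest {D | IndX V D} D ∧
    (∀ K : Set X, IsCompact K → HilbertBd V (CMin V K) ρ ρ) ∧
    (∀ (l k J : ℕ) (ch : Fin J → Chart V l), (∀ j, (ch j).I.card ≤ k) →
      HilbertBd V (CMin V (Cov ch)) l (l + k)) ∧
    (IsShimuraDom V ρ ∨ (∀ (x : X) (h : ℝ), ¬ IsCMX V x h) ∨
    (ρ < D ∧
      (∀ K : Set X, IsCompact K →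
        HypersurfaceBd V (CMin V K) ((ρ : ℝ) / ((D : ℝ) - ρ)) ((D : ℝ) / ((D : ℝ) - ρ))) ∧
      ∀ (l k J : ℕ) (ch : Fin J → Chart V l), l < D → (∀ j, (ch j).I.card ≤ k) →
        HypersurfaceBd V (CMin V (Cov ch)) (((l : ℝ) + k) / ((D : ℝ) - l))
          (((D : ℝ) + k) / ((D : ℝ) - l)))) := by
  obtain ⟨ρ, D, hρ, hD, h⟩ := whole V hC
  refine ⟨ρ, D, hρ, hD, fun K hK => compact_rel V ρ (fun x => hρ.2 ⟨x, rfl⟩) K hK,
    fun l k J ch hk => charts_rel V k J ch hk, ?_⟩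
  rcases h with h | h | ⟨hlt, h1, h2⟩
  · exact Or.inl h
  · exact Or.inr (Or.inl h)
  refine Or.inr (Or.inr ⟨hlt, fun K hK => ?_, fun l k J ch hl hk => ?_⟩)
  · obtain ⟨C, hCC⟩ := h1 K hK
    refine ⟨C, fun h hh => ?_⟩
    obtain ⟨d, F, e1, e2, e3, e4⟩ := hCC h hh
    exact ⟨d, F, e1, e2, e3, fun x hx => e4 x hx.1 hx.2⟩
  · obtain ⟨C, hCC⟩ := h2 l k J hl ch hk
    refine ⟨C, fun h hh => ?_⟩
    obtain ⟨d, F, e1, e2, e3, e4⟩ := hCC h hh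
    refine ⟨d, F, e1, e2, e3, ?_⟩
    rintro x ⟨⟨j, u, hu, rfl⟩, hx⟩
    exact e4 j u hu hx

end MP2794d1.WV
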