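import Pool.Agent.Lib.MP_2794d1_ag.WV.Defs
import Pool.Agent.Lib.MP_2794d1_ag.W00

/-!
# CM points on all of a quasi-projective base: auxiliary definitions and elementary facts
-/

namespace MP2794d1.WV

open Matrix Complex Filter Topology MP2794d1.AH
open scoped ContDiff Manifold

/-- the scale of the coordinate `i` at the point `u` -/
noncomputable def rr {l : ℕ} (I : Finset (Fin l)) (u : Fin l → ℂ) (i : Fin l) : ℝ :=
  if i ∈ I then (u i).im else 1

/-- parametrisation of a polydisc around `u` by the unit polydisc -/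
noncomputable def pd {l : ℕ} (I : Finset (Fin l)) (ε : ℝ) (u s : Fin l → ℂ) : Fin l → ℂ :=
  fun i => u i + ((ε * rr I u i : ℝ) : ℂ) * s i

/-- the product of the imaginary parts -/
noncomputable def Pr {l : ℕ} (I : Finset (Fin l)) (u : Fin l → ℂ) : ℝ := ∏ i ∈ I, (u i).im

theorem Fund_sub {l : ℕ} (I : Finset (Fin l)) : Fund I ⊆ Dom I := by
  rintro u ⟨h1, h2⟩
  exact ⟨fun i hi => by linarith [(h1 i hi).2], fun i hi => by linarith [h2 i hi]⟩

theorem rr_pos {l : ℕ} {I : Finset (Fin l)} {u : Fin l → ℂ} (hu : u ∈ Dom I) (i : Fin l) :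
    0 < rr I u i := by
  unfold rr
  split_ifs with h
  · exact hu.1 i h
  · exact one_pos

theorem one_le_rr {l : ℕ} {I : Finset (Fin l)} {u : Fin l → ℂ} (hu : u ∈ Fund I) (i : Fin l) :
    1 ≤ rr I u i := by
  unfold rr
  split_ifs with h
  · exact (hu.1 i h).2
  · exact le_rfl

theorem one_le_Pr {l : ℕ} {I : Finset (Fin l)} {u : Fin l → ℂ} (hu : u ∈ Fund I) : 1 ≤ Pr I u := by
  unfold Pr
  exact Finset.prod_induction _ (fun x : ℝ => 1 ≤ x) (fun a b ha hb => one_le_mul_of_one_le_of_one_le ha hb)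
    le_rfl fun i hi => (hu.1 i hi).2

theorem close_Dom {l : ℕ} {I : Finset (Fin l)} {u₀ u : Fin l → ℂ} (hu : u₀ ∈ Fund I) {δ : ℝ}
    (hδ : δ < 1 / 2) (h : ∀ i, ‖u i - u₀ i‖ ≤ δ * rr I u₀ i) : u ∈ Dom I := by
  constructor
  · intro i hi
    have h1 := h i
    have h2 : 1 ≤ (u₀ i).im := (hu.1 i hi).2
    unfold rr at h1
    rw [if_pos hi] at h1
    have h3 : |(u i - u₀ i).im| ≤ ‖u i - u₀ i‖ := Complex.abs_im_le_norm _
    rw [Complex.sub_im] at h3
    have h4 := (abs_le.1 (h3.trans h1)).1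
    nlinarith
  · intro i hi
    have h1 := h i
    have h2 : ‖u₀ i‖ ≤ 1 / 2 := hu.2 i hi
    unfold rr at h1
    rw [if_neg hi, mul_one] at h1
    have h3 : ‖u i‖ ≤ ‖u i - u₀ i‖ + ‖u₀ i‖ := by
      have := norm_add_le (u i - u₀ i) (u₀ i)
      rwa [sub_add_cancel] at this
    linarith

theorem pd_close {l : ℕ} {I : Finset (Fin l)} {u₀ : Fin l → ℂ} (hu : u₀ ∈ Fund I) {ε : ℝ} (hε : 0 < ε)
    {s : Fin l → ℂ} (hs : s ∈ Metric.ball (0 : Fin l → ℂ) 1) (i : Fin l) :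
    ‖pd I ε u₀ s i - u₀ i‖ ≤ ε * rr I u₀ i := by
  have h1 : pd I ε u₀ s i - u₀ i = ((ε * rr I u₀ i : ℝ) : ℂ) * s i := by
    unfold pd
    ring
  have h2 : 0 < ε * rr I u₀ i := mul_pos hε (rr_pos (Fund_sub I hu) i)
  have h3 : ‖s i‖ ≤ 1 := (norm_le_pi_norm s i).trans (mem_ball_zero_iff.1 hs).le
  rw [h1, norm_mul, Complex.norm_real, Real.norm_eq_abs, abs_of_pos h2]
  exact mul_le_of_le_one_right h2.le h3

theorem prj_congr {n : ℕ} {wt wt' : ℤ} {Q Q' : Matrix (Fin n) (Fin n) ℤ}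
    {Fl Fl' : ℤ → Submodule ℂ (Fin n → ℂ)} (h : IsPHS wt Q Fl) (h' : IsPHS wt' Q' Fl') (hwt : wt = wt')
    (hF : ∀ p, Fl p = Fl' p) (p : ℤ) : prj h p = prj h' p := by
  obtain rfl : Fl = Fl' := funext hF
  subst hwt
  rfl

end MP2794d1.WV
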