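import Pool.Agent.Lib.MP_2794d1_ag.AH.A07

/-!
C1: an integral form which is small on a finite family of analytic polydiscs. Copy of `A07_count`, `small_form` (AH/A07) with two changes: (1) the family
`ψ b`, `b : β`: `pigeon` (AH/A02) is applied with `G = β × (Fin ρ → Fin N)` (`Fintype.card β * N ^ ρ` elements), so the counting condition is
`N' ^ (2 (card β) N ^ ρ) < (H + 1) ^ ((t + 1) ^ (σ + 1))`; (2) the constant does not depend on the bound `m` of the `‖ψ b s‖`: `C = 4 + log (2 C₀)` (`C₀` from `interp ρ`, AH/A06).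
With `d = (σ + 1) t`: `log N' ≤ log 6 + log ((t + 1) ^ (σ + 1)) + d log m + log H + N log (2 C₀) ≤ 2 + d + d log m + log H + N log (2 C₀) ≤ 2 N + N + N log (2 C₀) ≤ C N`
since `log H + d (log m + 1) + 1 ≤ N / C ≤ N` and `1 ≤ N`.
-/

namespace MP2794d1.WV

open Matrix Complex Filter Topology MP2794d1.PC MP2794d1.AC MP2794d1.AH

private theorem C1_count {b ρ σ t N H : ℕ} {m C₀ : ℝ} (hm : 1 ≤ m) (hC₀ : 1 ≤ C₀) (hH : 1 ≤ H)
    (h1 : (4 + Real.log (2 * C₀)) * (Real.log H + ((σ + 1) * t : ℕ) * (Real.log m + 1) + 1) ≤ N)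
    (h2 : 2 * ((b : ℝ) * (N : ℝ) ^ ρ) * ((4 + Real.log (2 * C₀)) * N) <
      ((t : ℝ) + 1) ^ (σ + 1) * Real.log (H + 1)) :
    (⌈4 * (((t : ℝ) + 1) ^ (σ + 1) * m ^ ((σ + 1) * t)) * H * (2 * C₀) ^ N⌉₊ + 1) ^ (2 * (b * N ^ ρ)) <
      (H + 1) ^ ((t + 1) ^ (σ + 1)) := by
  have hlm : 0 ≤ Real.log m := Real.log_nonneg hm
  have hlC : 0 ≤ Real.log (2 * C₀) := Real.log_nonneg (by linarith)
  have hHR : (1 : ℝ) ≤ H := by exact_mod_cast hH
  have hlH : 0 ≤ Real.log H := Real.log_nonneg hHR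
  set C : ℝ := 4 + Real.log (2 * C₀) with hC
  have hC1 : 1 ≤ C := by rw [hC]; linarith
  set d : ℕ := (σ + 1) * t with hd
  have hd0 : (0 : ℝ) ≤ (d : ℝ) := Nat.cast_nonneg _
  have hdm : 0 ≤ (d : ℝ) * (Real.log m + 1) := by positivity
  have h3 : Real.log H + (d : ℝ) * (Real.log m + 1) + 1 ≤ N := by
    have : 1 * (Real.log H + (d : ℝ) * (Real.log m + 1) + 1) ≤ C * (Real.log H + (d : ℝ) * (Real.log m + 1) + 1) :=
      mul_le_mul_of_nonneg_right hC1 (by positivity)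
    linarith
  have hN1 : (1 : ℝ) ≤ N := by linarith
  -- the size of the number of subdivisions
  set D : ℝ := ((t : ℝ) + 1) ^ (σ + 1) with hD
  have ht1 : (1 : ℝ) ≤ (t : ℝ) + 1 := by
    have : (0 : ℝ) ≤ t := Nat.cast_nonneg _
    linarith
  have hD1 : 1 ≤ D := one_le_pow₀ ht1
  have hmd : 1 ≤ m ^ d := one_le_pow₀ hm
  have hCN : 1 ≤ (2 * C₀) ^ N := one_le_pow₀ (by linarith)
  set X : ℝ := D * m ^ d * H * (2 * C₀) ^ N with hX
  have hX1 : 1 ≤ X := by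
    rw [hX]
    have e1 : 1 ≤ D * m ^ d := one_le_mul_of_one_le_of_one_le hD1 hmd
    have e2 : 1 ≤ D * m ^ d * H := one_le_mul_of_one_le_of_one_le e1 hHR
    exact one_le_mul_of_one_le_of_one_le e2 hCN
  have hXX : 4 * (D * m ^ d) * H * (2 * C₀) ^ N = 4 * X := by rw [hX]; ring
  rw [hXX]
  have hN' : ((⌈4 * X⌉₊ + 1 : ℕ) : ℝ) ≤ 6 * X := by
    have := Nat.ceil_lt_add_one (show (0 : ℝ) ≤ 4 * X by linarith)
    push_cast
    linarith
  have hlogX : Real.log X ≤ (d : ℝ) + d * Real.log m + Real.log H + N * Real.log (2 * C₀) := by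
    have e0 : (0 : ℝ) < D := by linarith
    have e1 : (0 : ℝ) < m ^ d := by linarith
    have e2 : (0 : ℝ) < H := by linarith
    have e3 : (0 : ℝ) < (2 * C₀) ^ N := by linarith
    rw [hX, Real.log_mul (by positivity) e3.ne', Real.log_mul (by positivity) e2.ne',
      Real.log_mul e0.ne' e1.ne', Real.log_pow m d, Real.log_pow (2 * C₀) N]
    have e4 : Real.log D ≤ d := by
      rw [hD, Real.log_pow, hd]
      push_cast
      have e5 : Real.log ((t : ℝ) + 1) ≤ t := by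
        have := Real.log_le_sub_one_of_pos (show (0 : ℝ) < (t : ℝ) + 1 by linarith)
        linarith
      exact mul_le_mul_of_nonneg_left e5 (by positivity)
    linarith
  have hlogN : Real.log ((⌈4 * X⌉₊ + 1 : ℕ) : ℝ) ≤ C * N := by
    have e1 : Real.log ((⌈4 * X⌉₊ + 1 : ℕ) : ℝ) ≤ Real.log (6 * X) :=
      Real.log_le_log (by positivity) hN'
    have e2 : Real.log (6 * X) = Real.log 6 + Real.log X :=
      Real.log_mul (by norm_num) (by linarith)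
    have e3 : Real.log 6 ≤ 2 := by
      have h6 : (6 : ℝ) ≤ Real.exp 2 := by
        have h7 : Real.exp 2 = Real.exp 1 * Real.exp 1 := by
          rw [← Real.exp_add]; norm_num
        have h8 := Real.exp_one_gt_d9
        rw [h7]
        nlinarith
      calc Real.log 6 ≤ Real.log (Real.exp 2) := Real.log_le_log (by norm_num) h6
        _ = 2 := Real.log_exp 2
    rw [e2] at e1
    have e5 : C * N = 4 * N + N * Real.log (2 * C₀) := by rw [hC]; ring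
    rw [e5]
    have e6 : (d : ℝ) * (Real.log m + 1) = d * Real.log m + d := by ring
    linarith
  have hfin : (((⌈4 * X⌉₊ + 1) ^ (2 * (b * N ^ ρ)) : ℕ) : ℝ) < (((H + 1) ^ ((t + 1) ^ (σ + 1)) : ℕ) : ℝ) := by
    rw [← Real.log_lt_log_iff (by positivity) (by positivity)]
    rw [Nat.cast_pow, Nat.cast_pow (H + 1), Real.log_pow, Real.log_pow]
    push_cast at hlogN ⊢
    have e1 : 2 * ((b : ℝ) * (N : ℝ) ^ ρ) * Real.log ((⌈4 * X⌉₊ : ℝ) + 1) ≤ 2 * ((b : ℝ) * (N : ℝ) ^ ρ) * (C * N) :=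
      mul_le_mul_of_nonneg_left hlogN (by positivity)
    linarith
  exact_mod_cast hfin

theorem small_fam (ρ σ : ℕ) : ∃ η : ℝ, 0 < η ∧ η < 1 ∧ ∃ C : ℝ, 1 ≤ C ∧
    ∀ (β : Type) [Fintype β] (m : ℝ), 1 ≤ m → ∀ t N H : ℕ, 1 ≤ t → 1 ≤ N → 1 ≤ H →
      C * (Real.log H + ((σ + 1) * t : ℕ) * (Real.log m + 1) + 1) ≤ N →
      2 * ((Fintype.card β : ℝ) * (N : ℝ) ^ ρ) * (C * N) < ((t : ℝ) + 1) ^ (σ + 1) * Real.log (H + 1) →
      ∀ (ι : Type) [Fintype ι] (ψ : β → (Fin ρ → ℂ) → ι → ℂ) (α : Fin (σ + 2) → ι),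
        (∀ b, DifferentiableOn ℂ (ψ b) (Metric.ball 0 1)) →
        (∀ b, ∀ s ∈ Metric.ball (0 : Fin ρ → ℂ) 1, ‖ψ b s‖ ≤ m) →
        ∃ c : (Fin (σ + 1) → Fin (t + 1)) → ℤ, c ≠ 0 ∧ (∀ e, |(c e : ℝ)| ≤ H) ∧
          ∀ b, ∀ s ∈ Metric.closedBall (0 : Fin ρ → ℂ) η, ‖hq σ t c (ψ b s ∘ α)‖ ≤
            2 * (((t : ℝ) + 1) ^ (σ + 1) * H * m ^ ((σ + 1) * t)) * (1 / 2) ^ N := by
  obtain ⟨η, C₀, hη0, hη1, hC₀, hint⟩ := interp ρ
  have hlC : 0 ≤ Real.log (2 * C₀) := Real.log_nonneg (by linarith)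
  refine ⟨η, hη0, hη1, 4 + Real.log (2 * C₀), by linarith, ?_⟩
  intro β _ m hm t N H ht hN hH h1 h2 ι _ ψ α hψ hψm
  obtain ⟨ζ, hζ, hf⟩ := hint N hN
  have hHR : (1 : ℝ) ≤ H := by exact_mod_cast hH
  have ht1 : (1 : ℝ) ≤ (t : ℝ) + 1 := by
    have : (0 : ℝ) ≤ t := Nat.cast_nonneg _
    linarith
  have hD1 : 1 ≤ ((t : ℝ) + 1) ^ (σ + 1) := one_le_pow₀ ht1
  have hmd : 1 ≤ m ^ ((σ + 1) * t) := one_le_pow₀ hm
  -- coordinates
  have hx : ∀ b, ∀ s ∈ Metric.ball (0 : Fin ρ → ℂ) 1, ∀ i, ‖(ψ b s ∘ α) i‖ ≤ m := fun b s hs i =>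
    (norm_le_pi_norm (ψ b s) (α i)).trans (hψm b s hs)
  have hnode : ∀ g : Fin ρ → Fin N, (fun i => ζ (g i)) ∈ Metric.ball (0 : Fin ρ → ℂ) 1 := by
    intro g
    rw [mem_ball_zero_iff]
    refine lt_of_le_of_lt ((pi_norm_le_iff_of_nonneg hη0.le).2 fun i => ?_) hη1
    exact hζ (g i)
  set A : ℝ := ((t : ℝ) + 1) ^ (σ + 1) * m ^ ((σ + 1) * t) with hA
  have hA1 : 1 ≤ A := one_le_mul_of_one_le_of_one_le hD1 hmd
  set N' : ℕ := ⌈4 * A * H * (2 * C₀) ^ N⌉₊ + 1 with hN'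
  have hcnt := C1_count (b := Fintype.card β) (ρ := ρ) (σ := σ) (t := t) (N := N) (H := H) hm hC₀ hH h1 h2
  obtain ⟨c, hc0, hcH, hcn⟩ := pigeon (E := Fin (σ + 1) → Fin (t + 1)) (G := β × (Fin ρ → Fin N))
    (fun g e => (∏ i : Fin (σ + 1), (ψ g.1 (fun j => ζ (g.2 j)) ∘ α) i.castSucc ^ (e i : ℕ)) *
      (ψ g.1 (fun j => ζ (g.2 j)) ∘ α) (Fin.last (σ + 1)) ^ ((σ + 1) * t - ∑ i : Fin (σ + 1), (e i : ℕ)))
    (A := A) (by
      intro g
      refine (Finset.sum_le_sum fun e _ => hq_mono_le σ t _ hm (hx _ _ (hnode g.2)) e).trans ?_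
      rw [Finset.sum_const, nsmul_eq_mul, Finset.card_univ, Fintype.card_fun, Fintype.card_fin,
        Fintype.card_fin]
      push_cast
      exact le_of_eq rfl)
    (by linarith) H N' (by rw [hN']; omega)
    (by
      rw [Fintype.card_prod, Fintype.card_fun, Fintype.card_fun, Fintype.card_fin, Fintype.card_fin,
        Fintype.card_fin, Fintype.card_fin]
      exact hcnt)
  refine ⟨c, hc0, hcH, ?_⟩
  have hCN : 0 < (2 * C₀) ^ N := by
    have : 0 < 2 * C₀ := by linarith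
    positivity
  have heps : ∀ (b : β) (g : Fin ρ → Fin N),
      ‖(fun s => hq σ t c (ψ b s ∘ α)) (fun i => ζ (g i))‖ ≤ ((2 * C₀) ^ N)⁻¹ := by
    intro b g
    refine (hcn (b, g)).trans ?_
    have hN'pos : (0 : ℝ) < (N' : ℝ) := by
      rw [hN']
      positivity
    rw [div_le_iff₀ hN'pos, inv_mul_eq_div, le_div_iff₀ hCN]
    have := Nat.le_ceil (4 * A * H * (2 * C₀) ^ N)
    rw [hN']
    push_cast
    linarith
  intro b s hs
  have hB := hf (fun s => hq σ t c (ψ b s ∘ α)) (A07_diff α (hψ b) c)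
    (((t : ℝ) + 1) ^ (σ + 1) * H * m ^ ((σ + 1) * t)) (((2 * C₀) ^ N)⁻¹) (by positivity)
    (by positivity) (fun s hs => A07_bound hm c hcH _ (hx b s hs)) (heps b) s hs
  refine hB.trans ?_
  have e1 : C₀ ^ N * ((2 * C₀) ^ N)⁻¹ = (1 / 2) ^ N := by
    have hC0 : C₀ ≠ 0 := by linarith
    rw [mul_pow]
    field_simp
    rw [← mul_pow]
    norm_num
  rw [e1]
  have e2 : 1 ≤ ((t : ℝ) + 1) ^ (σ + 1) * H * m ^ ((σ + 1) * t) :=
    one_le_mul_of_one_le_of_one_le (one_le_mul_of_one_le_of_one_le hD1 hHR) hmd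
  have e3 : (0 : ℝ) ≤ (1 / 2) ^ N := by positivity
  nlinarith [mul_le_mul_of_nonneg_right e2 e3]

end MP2794d1.WV
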