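import Pool.Agent.Lib.MP_2794d1_ag.AH.Defs

/-!
# CM points on all of a quasi-projective base: definitions
-/

namespace MP2794d1.WV

open Matrix Complex Filter Topology MP2794d1.AH
open scoped ContDiff Manifold

/-- the product of upper half planes (the coordinates in `I`) and open unit discs (the other coordinates) -/
def Dom {l : ℕ} (I : Finset (Fin l)) : Set (Fin l → ℂ) :=
  {u | (∀ i ∈ I, 0 < (u i).im) ∧ ∀ i ∉ I, ‖u i‖ < 1}

/-- the part `|Re u_i| ≤ 1`, `Im u_i ≥ 1` (`i ∈ I`), `|u_i| ≤ 1 / 2` (`i ∉ I`) of `Dom I`. The map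
`u_i ↦ exp (2 π i u_i)` (`i ∈ I`) maps it onto the part `|q_i| ≤ exp (- 2 π)`, `|u_i| ≤ 1 / 2` of a product of
punctured unit discs and unit discs. -/
def Fund {l : ℕ} (I : Finset (Fin l)) : Set (Fin l → ℂ) :=
  {u | (∀ i ∈ I, |(u i).re| ≤ 1 ∧ 1 ≤ (u i).im) ∧ ∀ i ∉ I, ‖u i‖ ≤ 1 / 2}

/-- A holomorphic map from a product of punctured discs (`i ∈ I`) and discs (`i ∉ I`) to `G \ X`, lifted to a map
from the product `Dom I` of half planes and discs to `X`: the element `T i` of `G` translates `u_i` by `1`. Its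
monodromy has infinite order. -/
structure Chart {n m : ℕ} {X G : Type} [TopologicalSpace X] [ChartedSpace (Fin m → ℂ) X] [Group G]
    [MulAction G X] (V : MVHS n m X G) (l : ℕ) where
  /-- the coordinates in half planes -/
  I : Finset (Fin l)
  /-- the map -/
  c : (Fin l → ℂ) → X
  hol : ∀ u ∈ Dom I, ContMDiffAt 𝓘(ℂ, Fin l → ℂ) 𝓘(ℂ, Fin m → ℂ) ω c u
  /-- the elements of the group -/
  T : Fin l → G
  eqv : ∀ u ∈ Dom I, ∀ i ∈ I, c (Function.update u i (u i + 1)) = T i • c u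
  inf : ∀ i ∈ I, ∀ k : ℕ, 0 < k → V.rho (T i) ^ k ≠ 1

end MP2794d1.WV
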