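import Pool.Agent.Lib.MP_2794d1_ag.WV.S3
import Pool.Agent.Lib.MP_2794d1_ag.AH.A17
import Pool.Agent.Lib.MP_2794d1_ag.AH.B05

/-!
H1: heights of the CM points in a chart. `C₁, K₁` from `frame_W` (S3), `C₂` from `cm_rep_u n (Ls V)` (AH/A17). Let `A` be as in `IsCMX V x h`, `x = C.c u`, `S, d` adapted at `x` (`exists_adapted`): `rosati_frob` (U01): `∑ a, ∑ b, normSq ((S⁻¹ * im A * S) a b) = trace ≤ h ^ 2`, so the entries
of `S⁻¹ * im A * S` are at most `h` in absolute value, and those of `im A = S (S⁻¹ im A S) S⁻¹` are at most `n ^ 2 (C₁ P ^ K₁) ^ 2 h =: h'`, so `IsCM (cst V x) Complex.I h'` and `1 ≤ h'` may be arranged (take `h' = (n ^ 2 + 1) (C₁ P ^ K₁) ^ 2 h`). `cm_rep_u` for `cst V x` (AH/A16), with `r = rX V`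
(`= rk (cst V x)`, `rk_const`, AH/B05; see AH/A19), `cst_PL` (AH/A16): `IntRep (Fin n → Fin n) (C₂ * h' ^ C₂) v`. `C₂ h' ^ C₂ ≤ C₀ (P h) ^ K` for `K = (2 K₁ + 1) C₂`, `C₀ = C₂ ((n ^ 2 + 1) C₁ ^ 2) ^ C₂` (`1 ≤ P`, `1 ≤ h`); `IntRep` is monotone in the bound.
-/

namespace MP2794d1.WV

open Matrix Complex Filter Topology MP2794d1 MP2794d1.AH MP2794d1.PC
open scoped ContDiff Manifold

variable {n m l : ℕ} {X G : Type} [TopologicalSpace X] [ChartedSpace (Fin m → ℂ) X]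
  [IsManifold 𝓘(ℂ, Fin m → ℂ) ω X] [ConnectedSpace X] [Group G] [MulAction G X]

theorem heights_W (V : MVHS n m X G) (C : Chart V l) : ∃ (C₀ : ℝ) (K : ℕ), 1 ≤ C₀ ∧ ∀ u ∈ Fund C.I,
    ∀ h : ℝ, 1 ≤ h → IsCMX V (C.c u) h → ∃ v, PX V (C.c u) v ∧
      IntRep (Fin n → Fin n) (C₀ * (Pr C.I u * h) ^ K) v := by
  obtain ⟨C₁, K₁, hC₁, hfr⟩ := frame_W V C
  obtain ⟨C₂, hC₂, hrep⟩ := cm_rep_u n (Ls V)
  have hC₂r : (1 : ℝ) ≤ (C₂ : ℝ) := by exact_mod_cast hC₂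
  have hM1 : (1 : ℝ) ≤ ((n : ℝ) ^ 2 + 1) * C₁ ^ 2 := by
    have h1 : (0 : ℝ) ≤ (n : ℝ) ^ 2 := by positivity
    have h2 : (1 : ℝ) ≤ C₁ ^ 2 := one_le_pow₀ hC₁
    nlinarith
  refine ⟨(C₂ : ℝ) * (((n : ℝ) ^ 2 + 1) * C₁ ^ 2) ^ C₂, (2 * K₁ + 1) * C₂, ?_, ?_⟩
  · have h2 : (1 : ℝ) ≤ (((n : ℝ) ^ 2 + 1) * C₁ ^ 2) ^ C₂ := one_le_pow₀ hM1
    nlinarith
  intro u hu h hh hcm
  obtain ⟨A, hsep, hst, htr⟩ := hcm
  obtain ⟨S, d, hS⟩ := exists_adapted (V.phs (C.c u))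
  have hent := hfr u hu S d hS
  have hP : 1 ≤ Pr C.I u := one_le_Pr hu
  set P : ℝ := Pr C.I u with hPdef
  have hPK : 1 ≤ P ^ K₁ := one_le_pow₀ hP
  set E : ℝ := C₁ * P ^ K₁ with hE
  have hE1 : 1 ≤ E := by
    rw [hE]
    nlinarith
  have hE0 : 0 ≤ E := by linarith
  rw [rosati_frob (V.phs (C.c u)) hS A hst] at htr
  set M : Matrix (Fin n) (Fin n) ℂ := S⁻¹ * im A * S with hM
  have hMle : ∀ a b, ‖M a b‖ ≤ h := by
    intro a b
    have b1 : Complex.normSq (M a b) ≤ ∑ a, ∑ b, Complex.normSq (M a b) := by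
      refine le_trans ?_ (Finset.single_le_sum (f := fun a => ∑ b, Complex.normSq (M a b))
        (fun a _ => Finset.sum_nonneg fun b _ => Complex.normSq_nonneg _) (Finset.mem_univ a))
      exact Finset.single_le_sum (f := fun b => Complex.normSq (M a b))
        (fun b _ => Complex.normSq_nonneg _) (Finset.mem_univ b)
    rw [Complex.normSq_eq_norm_sq] at b1
    exact le_of_sq_le_sq (b1.trans htr) (by linarith)
  have hSu := hS.inv
  have hAeq : im A = S * M * S⁻¹ := by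
    rw [hM]
    calc im A = (S * S⁻¹) * im A * (S * S⁻¹) := by
          rw [Matrix.mul_nonsing_inv _ hSu, Matrix.one_mul, Matrix.mul_one]
      _ = _ := by simp only [Matrix.mul_assoc]
  have hEh : 1 ≤ E ^ 2 * h := by
    have h1 : 1 ≤ E ^ 2 := one_le_pow₀ hE1
    nlinarith
  have hAle : ∀ i j, |(A i j : ℝ)| ≤ ((n : ℝ) ^ 2 + 1) * (E ^ 2 * h) := by
    intro i j
    have hnorm : |(A i j : ℝ)| = ‖im A i j‖ := by
      simp [im]
    have h5 : ‖im A i j‖ ≤ (n : ℝ) ^ 2 * (E ^ 2 * h) := by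
      rw [hAeq, Matrix.mul_apply]
      have b1 : ∀ b : Fin n, ‖(S * M) i b * S⁻¹ b j‖ ≤ (n : ℝ) * (E ^ 2 * h) := by
        intro b
        rw [norm_mul, Matrix.mul_apply]
        have b2 : ‖∑ a, S i a * M a b‖ ≤ (n : ℝ) * (E * h) := by
          refine (norm_sum_le _ _).trans ?_
          refine (Finset.sum_le_card_nsmul _ _ (E * h) fun a _ => ?_).trans ?_
          · rw [norm_mul]
            exact mul_le_mul (hent i a).1 (hMle a b) (norm_nonneg _) hE0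
          · simp
        calc ‖∑ a, S i a * M a b‖ * ‖S⁻¹ b j‖ ≤ ((n : ℝ) * (E * h)) * E :=
              mul_le_mul b2 (hent b j).2 (norm_nonneg _) (by positivity)
          _ = (n : ℝ) * (E ^ 2 * h) := by ring
      refine (norm_sum_le _ _).trans ?_
      refine (Finset.sum_le_card_nsmul _ _ _ fun b _ => b1 b).trans ?_
      simp only [Finset.card_univ, Fintype.card_fin, nsmul_eq_mul]
      exact le_of_eq (by ring)
    rw [hnorm]
    refine h5.trans ?_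
    nlinarith
  set h' : ℝ := ((n : ℝ) ^ 2 + 1) * (E ^ 2 * h) with hh'
  have hh'1 : 1 ≤ h' := by
    have h1 : (0 : ℝ) ≤ (n : ℝ) ^ 2 := by positivity
    rw [hh']
    nlinarith
  have hr : rX V = rk (cst V (C.c u)) := by
    funext p
    exact (rk_const V (C.c u) p).symm
  obtain ⟨v, hv, hv'⟩ := hrep (cst V (C.c u)) (cst_len V (C.c u)) (rX V) hr Complex.I
    (by rw [Complex.I_im]; exact one_pos) h' hh'1 ⟨A, hAle, hsep, hst⟩
  refine ⟨v, (cst_PL V (C.c u) Complex.I v).1 hv, hv'.mono ?_⟩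
  have hPh : 1 ≤ P * h := by nlinarith
  have e1 : h' = (((n : ℝ) ^ 2 + 1) * C₁ ^ 2) * (P ^ (2 * K₁) * h) := by
    rw [hh', hE]
    ring
  have e2 : P ^ (2 * K₁) * h ≤ (P * h) ^ (2 * K₁ + 1) := by
    rw [pow_succ]
    apply mul_le_mul
    · exact pow_le_pow_left₀ (by linarith) (by nlinarith) _
    · nlinarith
    · linarith
    · positivity
  have e3 : (P ^ (2 * K₁) * h) ^ C₂ ≤ (P * h) ^ ((2 * K₁ + 1) * C₂) := by
    rw [pow_mul (P * h)]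
    exact pow_le_pow_left₀ (by positivity) e2 _
  calc (C₂ : ℝ) * h' ^ C₂
      = (C₂ : ℝ) * (((n : ℝ) ^ 2 + 1) * C₁ ^ 2) ^ C₂ * (P ^ (2 * K₁) * h) ^ C₂ := by
        rw [e1, mul_pow _ (P ^ (2 * K₁) * h)]
        ring
    _ ≤ (C₂ : ℝ) * (((n : ℝ) ^ 2 + 1) * C₁ ^ 2) ^ C₂ * (P * h) ^ ((2 * K₁ + 1) * C₂) :=
        mul_le_mul_of_nonneg_left e3 (by positivity)

end MP2794d1.WV
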