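import Mathlib

/-!
K1: nets for one coordinate. `net_cusp`: `δ = log (1 + ε / 2) > 0`; heights `y_j = exp (δ j)`, `0 ≤ j ≤ ⌊E / δ⌋` (`y_j ≤ exp E`); real parts `x_r = -1 + r ε / 2` for `0 ≤ r ≤ ⌊4 / ε⌋` (`|x_r| ≤ 1`). For `w` with `1 ≤ Im w ≤ exp E`, `j = ⌊log (Im w) / δ⌋`: `y_j ≤ Im w < exp δ y_j`, `|Im w - y_j| ≤ (ε / 2) y_j`;
`r = ⌊(Re w + 1) / (ε / 2)⌋`: `|Re w - x_r| ≤ ε / 2 ≤ (ε / 2) y_j`. So `‖w - (x_r + i y_j)‖ ≤ ε y_j` (`Complex.norm_le_abs_re_add_abs_im`). The number is at most `(E / δ + 1) (4 / ε + 1) ≤ (1 / δ + 1) (4 / ε + 1) E`. `net_disc`: compactness of the closed ball (`Metric.finite_approx...`, `IsCompact.finite_cover_balls`).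
-/

namespace MP2794d1.WV

theorem net_cusp (ε : ℝ) (hε : 0 < ε) : ∃ C₀ : ℝ, 1 ≤ C₀ ∧ ∀ E : ℝ, 1 ≤ E → ∃ T : Finset ℂ,
    (T.card : ℝ) ≤ C₀ * E ∧ (∀ w ∈ T, |w.re| ≤ 1 ∧ 1 ≤ w.im ∧ w.im ≤ Real.exp E) ∧
    ∀ w : ℂ, |w.re| ≤ 1 → 1 ≤ w.im → w.im ≤ Real.exp E → ∃ w₀ ∈ T, ‖w - w₀‖ ≤ ε * w₀.im := by
  set δ : ℝ := Real.log (1 + ε / 2) with hδ
  have hδ0 : 0 < δ := Real.log_pos (by linarith)
  have hexp : Real.exp δ = 1 + ε / 2 := Real.exp_log (by linarith)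
  refine ⟨(1 / δ + 1) * (4 / ε + 1), ?_, fun E hE => ?_⟩
  · have h1 : 0 < 1 / δ := by positivity
    have h2 : 0 < 4 / ε := by positivity
    nlinarith [mul_pos h1 h2]
  · refine ⟨((Finset.range (⌊E / δ⌋₊ + 1)) ×ˢ (Finset.range (⌊4 / ε⌋₊ + 1))).image
      (fun p : ℕ × ℕ => (⟨-1 + (p.2 : ℝ) * (ε / 2), Real.exp (δ * (p.1 : ℝ))⟩ : ℂ)), ?_, ?_, ?_⟩
    · have h1 : (((Finset.range (⌊E / δ⌋₊ + 1)) ×ˢ (Finset.range (⌊4 / ε⌋₊ + 1))).image
          (fun p : ℕ × ℕ => (⟨-1 + (p.2 : ℝ) * (ε / 2), Real.exp (δ * (p.1 : ℝ))⟩ : ℂ))).card ≤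
          (⌊E / δ⌋₊ + 1) * (⌊4 / ε⌋₊ + 1) := by
        refine Finset.card_image_le.trans ?_
        rw [Finset.card_product, Finset.card_range, Finset.card_range]
      have h2 : ((⌊E / δ⌋₊ : ℕ) : ℝ) ≤ E / δ := Nat.floor_le (by positivity)
      have h3 : ((⌊4 / ε⌋₊ : ℕ) : ℝ) ≤ 4 / ε := Nat.floor_le (by positivity)
      have h4 : E / δ + 1 ≤ (1 / δ + 1) * E := by
        have e1 : E / δ = 1 / δ * E := by ring
        rw [e1, add_mul, one_mul]
        linarith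
      calc _ ≤ (((⌊E / δ⌋₊ + 1) * (⌊4 / ε⌋₊ + 1) : ℕ) : ℝ) := by exact_mod_cast h1
        _ = (((⌊E / δ⌋₊ : ℕ) : ℝ) + 1) * (((⌊4 / ε⌋₊ : ℕ) : ℝ) + 1) := by push_cast; ring
        _ ≤ ((1 / δ + 1) * E) * (4 / ε + 1) := by
            refine mul_le_mul (by linarith) (by linarith) (by positivity) (by positivity)
        _ = (1 / δ + 1) * (4 / ε + 1) * E := by ring
    · intro w hw
      rw [Finset.mem_image] at hw
      obtain ⟨⟨j, r⟩, hp, rfl⟩ := hw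
      rw [Finset.mem_product, Finset.mem_range, Finset.mem_range] at hp
      obtain ⟨hj, hr⟩ := hp
      simp only at hj hr ⊢
      have hj2 : (j : ℝ) ≤ E / δ :=
        (Nat.cast_le.2 (Nat.lt_succ_iff.1 hj)).trans (Nat.floor_le (by positivity))
      have hr2 : (r : ℝ) ≤ 4 / ε :=
        (Nat.cast_le.2 (Nat.lt_succ_iff.1 hr)).trans (Nat.floor_le (by positivity))
      have hj3 : (j : ℝ) * δ ≤ E := by rwa [le_div_iff₀ hδ0] at hj2
      have hr3 : (r : ℝ) * ε ≤ 4 := by rwa [le_div_iff₀ hε] at hr2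
      have hr0 : (0 : ℝ) ≤ r := Nat.cast_nonneg r
      have hj0 : (0 : ℝ) ≤ j := Nat.cast_nonneg j
      refine ⟨?_, ?_, ?_⟩
      · rw [abs_le]
        constructor <;> nlinarith
      · rw [← Real.exp_zero]
        exact Real.exp_le_exp.2 (by positivity)
      · exact Real.exp_le_exp.2 (by linarith)
    · intro w h1 h2 h3
      have hre := abs_le.1 h1
      have him0 : 0 < w.im := by linarith
      have hl0 : 0 ≤ Real.log w.im := Real.log_nonneg h2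
      have hlE : Real.log w.im ≤ E := by
        rw [← Real.log_exp E]
        exact Real.log_le_log him0 h3
      set j : ℕ := ⌊Real.log w.im / δ⌋₊ with hj
      set r : ℕ := ⌊(w.re + 1) / (ε / 2)⌋₊ with hr
      have hε2 : 0 < ε / 2 := by positivity
      have hj1 : (j : ℝ) ≤ Real.log w.im / δ := Nat.floor_le (by positivity)
      have hj2 : Real.log w.im / δ < j + 1 := Nat.lt_floor_add_one _
      have hr1 : (r : ℝ) ≤ (w.re + 1) / (ε / 2) := Nat.floor_le (div_nonneg (by linarith) hε2.le)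
      have hr2 : (w.re + 1) / (ε / 2) < r + 1 := Nat.lt_floor_add_one _
      rw [le_div_iff₀ hδ0] at hj1
      rw [div_lt_iff₀ hδ0] at hj2
      rw [le_div_iff₀ hε2] at hr1
      rw [div_lt_iff₀ hε2] at hr2
      have hy1 : Real.exp (δ * (j : ℝ)) ≤ w.im := by
        rw [← Real.exp_log him0]
        exact Real.exp_le_exp.2 (by linarith)
      have hy2 : w.im < (1 + ε / 2) * Real.exp (δ * (j : ℝ)) := by
        rw [← hexp, ← Real.exp_add]
        nth_rw 1 [← Real.exp_log him0]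
        exact Real.exp_lt_exp.2 (by linarith)
      have hy0 : 1 ≤ Real.exp (δ * (j : ℝ)) := by
        rw [← Real.exp_zero]
        exact Real.exp_le_exp.2 (by positivity)
      refine ⟨⟨-1 + (r : ℝ) * (ε / 2), Real.exp (δ * (j : ℝ))⟩, ?_, ?_⟩
      · rw [Finset.mem_image]
        refine ⟨(j, r), ?_, rfl⟩
        rw [Finset.mem_product, Finset.mem_range, Finset.mem_range]
        refine ⟨Nat.lt_succ_iff.2 (Nat.floor_le_floor ?_), Nat.lt_succ_iff.2 (Nat.floor_le_floor ?_)⟩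
        · exact div_le_div_of_nonneg_right hlE hδ0.le
        · rw [div_le_div_iff₀ hε2 hε]
          nlinarith
      · refine (Complex.norm_le_abs_re_add_abs_im _).trans ?_
        simp only [Complex.sub_re, Complex.sub_im]
        have a1 : |w.re - (-1 + (r : ℝ) * (ε / 2))| ≤ ε / 2 := by
          rw [abs_le]
          constructor <;> linarith
        have a2 : |w.im - Real.exp (δ * (j : ℝ))| ≤ ε / 2 * Real.exp (δ * (j : ℝ)) := by
          rw [abs_le]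
          constructor <;> nlinarith
        nlinarith

theorem net_disc (ε : ℝ) (hε : 0 < ε) : ∃ T : Finset ℂ, (∀ w ∈ T, ‖w‖ ≤ 1 / 2) ∧
    ∀ w : ℂ, ‖w‖ ≤ 1 / 2 → ∃ w₀ ∈ T, ‖w - w₀‖ ≤ ε := by
  obtain ⟨t, ht1, ht2, ht3⟩ := (isCompact_closedBall (0 : ℂ) (1 / 2)).finite_cover_balls hε
  refine ⟨ht2.toFinset, fun w hw => ?_, fun w hw => ?_⟩
  · rw [Set.Finite.mem_toFinset] at hw
    simpa using ht1 hw
  · have h1 := ht3 (mem_closedBall_zero_iff.2 hw)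
    rw [Set.mem_iUnion₂] at h1
    obtain ⟨w₀, hw₀, h2⟩ := h1
    refine ⟨w₀, ht2.mem_toFinset.2 hw₀, ?_⟩
    rw [Metric.mem_ball, dist_eq_norm] at h2
    exact h2.le

end MP2794d1.WV
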