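import Pool.Agent.Lib.MP_2794d1_ag.WV.ADefs
import Pool.Agent.Lib.MP_2794d1_ag.WV.K1

/-!
K2: nets of polydiscs: `Fintype.piFinset (fun i => if i ∈ I then T₁ else T₂)` with `T₁` from `net_cusp` (K1) for `E` and `T₂` from `net_disc`; its cardinality is the product (`Fintype.card_piFinset`), at most `(C₁ E) ^ card I * (card T₂) ^ (l - card I) ≤ C₁ ^ l (card T₂ + 1) ^ l E ^ card I`.
-/

namespace MP2794d1.WV

theorem net_W {l : ℕ} (I : Finset (Fin l)) (ε : ℝ) (hε : 0 < ε) : ∃ C₀ : ℝ, 1 ≤ C₀ ∧ ∀ E : ℝ, 1 ≤ E →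
    ∃ T : Finset (Fin l → ℂ), (T.card : ℝ) ≤ C₀ * E ^ I.card ∧
      (∀ u ∈ T, u ∈ Fund I ∧ ∀ i ∈ I, (u i).im ≤ Real.exp E) ∧
      ∀ u ∈ Fund I, (∀ i ∈ I, (u i).im ≤ Real.exp E) → ∃ u₀ ∈ T, ∀ i, ‖u i - u₀ i‖ ≤ ε * rr I u₀ i := by
  obtain ⟨C₁, hC₁, hcusp⟩ := net_cusp ε hε
  obtain ⟨T₂, hT₂, hdisc⟩ := net_disc ε hε
  have hc2 : (1 : ℝ) ≤ (T₂.card : ℝ) + 1 := by
    have : (0 : ℝ) ≤ (T₂.card : ℝ) := Nat.cast_nonneg _
    linarith
  have hC : 1 ≤ C₁ * ((T₂.card : ℝ) + 1) := one_le_mul_of_one_le_of_one_le hC₁ hc2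
  refine ⟨(C₁ * ((T₂.card : ℝ) + 1)) ^ l, one_le_pow₀ hC, fun E hE => ?_⟩
  obtain ⟨T₁, hcard, hT₁, hcov⟩ := hcusp E hE
  refine ⟨Fintype.piFinset (fun i => if i ∈ I then T₁ else T₂), ?_, ?_, ?_⟩
  · rw [Fintype.card_piFinset, Nat.cast_prod]
    have h1 : ∀ i : Fin l, (((if i ∈ I then T₁ else T₂).card : ℕ) : ℝ) ≤
        (C₁ * ((T₂.card : ℝ) + 1)) * (if i ∈ I then E else 1) := by
      intro i
      by_cases hi : i ∈ I
      · rw [if_pos hi, if_pos hi]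
        refine hcard.trans ?_
        have h2 : C₁ * 1 ≤ C₁ * ((T₂.card : ℝ) + 1) := mul_le_mul_of_nonneg_left hc2 (by linarith)
        rw [mul_one] at h2
        exact mul_le_mul_of_nonneg_right h2 (by linarith)
      · rw [if_neg hi, if_neg hi, mul_one]
        have h2 : 1 * ((T₂.card : ℝ) + 1) ≤ C₁ * ((T₂.card : ℝ) + 1) :=
          mul_le_mul_of_nonneg_right hC₁ (by linarith)
        linarith
    refine (Finset.prod_le_prod (fun i _ => Nat.cast_nonneg _) fun i _ => h1 i).trans (le_of_eq ?_)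
    rw [Finset.prod_mul_distrib, Finset.prod_const, Finset.card_univ, Fintype.card_fin,
      Finset.prod_ite_mem, Finset.univ_inter, Finset.prod_const]
  · intro u hu
    rw [Fintype.mem_piFinset] at hu
    refine ⟨⟨fun i hi => ?_, fun i hi => ?_⟩, fun i hi => ?_⟩
    · have h1 := hu i
      rw [if_pos hi] at h1
      exact ⟨(hT₁ _ h1).1, (hT₁ _ h1).2.1⟩
    · have h1 := hu i
      rw [if_neg hi] at h1
      exact hT₂ _ h1
    · have h1 := hu i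
      rw [if_pos hi] at h1
      exact (hT₁ _ h1).2.2
  · intro u hu him
    have h1 : ∀ i : Fin l, ∃ w₀ : ℂ, w₀ ∈ (if i ∈ I then T₁ else T₂) ∧
        ‖u i - w₀‖ ≤ ε * (if i ∈ I then w₀.im else 1) := by
      intro i
      by_cases hi : i ∈ I
      · obtain ⟨w₀, h2, h3⟩ := hcov (u i) (hu.1 i hi).1 (hu.1 i hi).2 (him i hi)
        refine ⟨w₀, ?_, ?_⟩
        · rw [if_pos hi]
          exact h2
        · rw [if_pos hi]
          exact h3
      · obtain ⟨w₀, h2, h3⟩ := hdisc (u i) (hu.2 i hi)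
        refine ⟨w₀, ?_, ?_⟩
        · rw [if_neg hi]
          exact h2
        · rw [if_neg hi, mul_one]
          exact h3
    choose u₀ h2 h3 using h1
    exact ⟨u₀, Fintype.mem_piFinset.2 h2, fun i => h3 i⟩

end MP2794d1.WV
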