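import Pool.Agent.Lib.MP_2794d1_ag.Base

/-!
L1: linear algebra. `E` = the diagonal matrix with entries `1` on the range of `e`. (1) Let `P x = x`, `x ≠ 0`, `|x a|` maximal. If `a` is not in the range of `e`: `|x a| = |∑ b, P a b x b| ≤ n / (2 n + 1) |x a| < |x a|`, a contradiction. So the
maximum of `|x|` is attained on the range of `e`. (2) `W` as in the theorem, `y : Fin r → ℂ`, `y ≠ 0`: `x = W y ≠ 0` and `P x = x`, so `(W.submatrix e id) y ≠ 0` by (1): `minor W e = det (W.submatrix e id) ≠ 0`. (3) `W' = W (W.submatrix e id)⁻¹`: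
`W'.submatrix e id = 1`, the columns `x` of `W'` satisfy `P x = x`, so `|W' a j| ≤ max over the range of e = 1` by (1). `minor W f = minor W' f * minor W e` (`Matrix.submatrix_mul`, `det_mul`), `|minor W' f| ≤ r !` (`Matrix.det_le`
or Leibniz formula `Matrix.det_apply`: `r !` terms of absolute value at most `1`).
-/

namespace MP2794d1.WV

open Matrix Complex MP2794d1

open Classical in
private theorem L1_max {n r : ℕ} (P : Matrix (Fin n) (Fin n) ℂ) (e : Fin r → Fin n)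
    (hP : ∀ a b, ‖P a b - (if a = b ∧ ∃ i, e i = a then (1 : ℂ) else 0)‖ ≤ 1 / (2 * (n : ℝ) + 1))
    (x : Fin n → ℂ) (hx : P *ᵥ x = x) (C : ℝ) (hC : 0 ≤ C) (h : ∀ i, ‖x (e i)‖ ≤ C) (a : Fin n) :
    ‖x a‖ ≤ C := by
  haveI : Nonempty (Fin n) := ⟨a⟩
  obtain ⟨a₀, ha₀⟩ := Finite.exists_max (fun b => ‖x b‖)
  refine (ha₀ a).trans ?_
  by_cases hr : ∃ i, e i = a₀
  · obtain ⟨i, rfl⟩ := hr
    exact h i
  · have h1 : ∀ b, ‖P a₀ b‖ ≤ 1 / (2 * (n : ℝ) + 1) := by
      intro b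
      have h2 := hP a₀ b
      rwa [if_neg (fun h3 => hr h3.2), sub_zero] at h2
    have h2 : ‖x a₀‖ ≤ ∑ _b : Fin n, 1 / (2 * (n : ℝ) + 1) * ‖x a₀‖ := by
      calc ‖x a₀‖ = ‖(P *ᵥ x) a₀‖ := by rw [hx]
        _ = ‖∑ b, P a₀ b * x b‖ := rfl
        _ ≤ ∑ b, ‖P a₀ b * x b‖ := norm_sum_le _ _
        _ ≤ ∑ _b : Fin n, 1 / (2 * (n : ℝ) + 1) * ‖x a₀‖ := by
            refine Finset.sum_le_sum fun b _ => ?_
            rw [norm_mul]
            exact mul_le_mul (h1 b) (ha₀ b) (norm_nonneg _) (by positivity)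
    rw [Finset.sum_const, Finset.card_univ, Fintype.card_fin, nsmul_eq_mul] at h2
    have h3 : (0 : ℝ) < 2 * (n : ℝ) + 1 := by positivity
    have h4 : (n : ℝ) * (1 / (2 * (n : ℝ) + 1) * ‖x a₀‖) = (n : ℝ) * ‖x a₀‖ / (2 * (n : ℝ) + 1) := by
      ring
    rw [h4, le_div_iff₀ h3] at h2
    have h5 : 0 ≤ (n : ℝ) * ‖x a₀‖ := by positivity
    have h6 : ‖x a₀‖ ≤ 0 := by nlinarith
    exact h6.trans hC

open Classical in
theorem ratio_minor {n r : ℕ} (P : Matrix (Fin n) (Fin n) ℂ) (e : Fin r → Fin n)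
    (he : Function.Injective e)
    (hP : ∀ a b, ‖P a b - (if a = b ∧ ∃ i, e i = a then (1 : ℂ) else 0)‖ ≤ 1 / (2 * (n : ℝ) + 1))
    (W : Matrix (Fin n) (Fin r) ℂ) (hW : LinearIndependent ℂ Wᵀ) (hPW : P * W = W) :
    minor W e ≠ 0 ∧ ∀ f : Fin r → Fin n, ‖minor W f‖ ≤ (r.factorial : ℝ) * ‖minor W e‖ := by
  have hne : minor W e ≠ 0 := by
    intro h0
    obtain ⟨y, hy, hy0⟩ := Matrix.exists_mulVec_eq_zero_iff.2 h0
    have hx : P *ᵥ (W *ᵥ y) = W *ᵥ y := by
      rw [Matrix.mulVec_mulVec, hPW]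
    have h1 : ∀ i, ‖(W *ᵥ y) (e i)‖ ≤ 0 := by
      intro i
      have h2 : (W *ᵥ y) (e i) = ((W.submatrix e id) *ᵥ y) i := rfl
      rw [h2, hy0, Pi.zero_apply, norm_zero]
    have h3 : W *ᵥ y = 0 := by
      funext a
      have h4 := L1_max P e hP (W *ᵥ y) hx 0 le_rfl h1 a
      exact norm_le_zero_iff.1 h4
    apply hy
    have hinj : Function.Injective W.mulVec := Matrix.mulVec_injective_iff.2 hW
    apply hinj
    rw [h3, Matrix.mulVec_zero]
  refine ⟨hne, fun f => ?_⟩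
  have hunit : IsUnit (W.submatrix e id).det := isUnit_iff_ne_zero.2 hne
  set B : Matrix (Fin r) (Fin r) ℂ := W.submatrix e id with hB
  set W' : Matrix (Fin n) (Fin r) ℂ := W * B⁻¹ with hW'
  have h1 : W'.submatrix e id = 1 := by
    have h2 : W'.submatrix e id = W.submatrix e id * B⁻¹ := by
      ext i j
      rfl
    rw [h2, ← hB, Matrix.mul_nonsing_inv _ hunit]
  have h2 : W = W' * B := by
    rw [hW', Matrix.mul_assoc, Matrix.nonsing_inv_mul _ hunit, Matrix.mul_one]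
  have h3 : P * W' = W' := by
    rw [hW', ← Matrix.mul_assoc, hPW]
  have h4 : ∀ a j, ‖W' a j‖ ≤ 1 := by
    intro a j
    have h5 : P *ᵥ (fun b => W' b j) = fun b => W' b j := by
      funext b
      exact congrFun (congrFun h3 b) j
    refine L1_max P e hP (fun b => W' b j) h5 1 zero_le_one (fun i => ?_) a
    have h6 : W' (e i) j = (1 : Matrix (Fin r) (Fin r) ℂ) i j := congrFun (congrFun h1 i) j
    rw [h6, Matrix.one_apply]
    split_ifs
    · rw [norm_one]
    · rw [norm_zero]; exact zero_le_one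
  have h5 : minor W f = minor W' f * minor W e := by
    unfold minor
    rw [← Matrix.det_mul]
    congr 1
    have h6 : W.submatrix f id = (W' * B).submatrix f id := by rw [← h2]
    rw [h6]
    ext i j
    rfl
  rw [h5, norm_mul]
  refine mul_le_mul_of_nonneg_right ?_ (norm_nonneg _)
  have h7 : ‖minor W' f‖ ≤ ∑ _σ : Equiv.Perm (Fin r), (1 : ℝ) := by
    unfold minor
    rw [Matrix.det_apply']
    refine (norm_sum_le _ _).trans (Finset.sum_le_sum fun σ _ => ?_)
    rw [norm_mul, norm_prod]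
    have h8 : ‖((Equiv.Perm.sign σ : ℤ) : ℂ)‖ = 1 := by
      rcases Int.units_eq_one_or (Equiv.Perm.sign σ) with h9 | h9 <;> rw [h9] <;> simp
    rw [h8, one_mul]
    refine Finset.prod_le_one (fun i _ => norm_nonneg _) (fun i _ => ?_)
    exact h4 _ _
  rw [Finset.sum_const, Finset.card_univ, Fintype.card_perm, Fintype.card_fin, nsmul_eq_mul,
    mul_one] at h7
  exact h7

end MP2794d1.WV
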