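import Pool.Agent.Lib.MP_2794d1_ag.WV.L1
import Pool.Agent.Lib.MP_2794d1_ag.AH.B05
import Pool.Agent.Lib.MP_2794d1_ag.PC.CP1
import Pool.Agent.Lib.MP_2794d1_ag.J01

/-!
L2: the ratio lemma for Pluecker vectors. For a step `p : Fin (Ls V)` let `J p = {a | V.lo + p ≤ d a}`: `F^{lo + p}` at `x₀` is spanned by the columns `a ∈ J p` of `S` (`hS.fl`), so `(J p).card = rX V p` (`rk_const`, AH/B05; the columns of `S` are linearly
independent), and `e₀ p : Fin (rX V p) → Fin n` is an injective enumeration of `J p` (`Finset.orderEmbOfFin` or an equivalence). `S⁻¹ (prj (V.phs x₀) q) S` is the diagonal matrix with entries `1` on `{a | q ≤ d a}` (see J01: `prj_adapted`-like lemma, formula for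
`prj` in an adapted basis). So `P = S⁻¹ (prj (V.phs x) q) S`, `q = lo + p`, satisfies `hP` of `ratio_minor` (L1) for `e = e₀ p`. Let `v = c • pmin (rX V) W` be a Pluecker vector at `x` (definition of `PX`): `pt (rX V) S⁻¹ *ᵥ v = c • pmin (rX V) (fun p => S⁻¹ * W p)` (`pmin_mul`,
PC/CP1), and `W' = S⁻¹ * W p` satisfies `P W' = W'` (the columns of `W p` are in `F^q` at `x`, fixed by the projector), its columns are linearly independent. `ratio_minor`: `‖minor W' f‖ ≤ (rX V p)! ‖minor W' (e₀ p)‖ ≤ n ! ‖minor W' (e₀ p)‖` (`rX V p ≤ n`). Product over `p`.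
-/

namespace MP2794d1.WV

open Matrix Complex Filter Topology MP2794d1 MP2794d1.AH MP2794d1.PC
open scoped ContDiff Manifold

variable {n m : ℕ} {X G : Type} [TopologicalSpace X] [ChartedSpace (Fin m → ℂ) X]
  [IsManifold 𝓘(ℂ, Fin m → ℂ) ω X] [ConnectedSpace X] [Group G] [MulAction G X]

private theorem L2_card (V : MVHS n m X G) (x₀ : X) (S : Matrix (Fin n) (Fin n) ℂ) (d : Fin n → ℤ)
    (hS : Adapted V.wt V.Q (fun p => V.F p x₀) S d) (p : Fin (Ls V)) :
    (Finset.univ.filter (fun a : Fin n => V.lo + ((p : ℕ) : ℤ) ≤ d a)).card = rX V p := by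
  set J : Finset (Fin n) := Finset.univ.filter (fun a : Fin n => V.lo + ((p : ℕ) : ℤ) ≤ d a) with hJ
  set e : Fin J.card → Fin n := fun i => J.orderEmbOfFin rfl i with he
  have hinj : Function.Injective e := (J.orderEmbOfFin rfl).injective
  have hrange : Set.range e = {a | V.lo + ((p : ℕ) : ℤ) ≤ d a} := by
    have h1 : Set.range e = (J : Set (Fin n)) := Finset.range_orderEmbOfFin J rfl
    rw [h1, hJ]
    ext a
    simp
  have hSind : LinearIndependent ℂ Sᵀ := by
    have h1 : Function.Injective S.mulVec := by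
      intro y z hyz
      have h2 := congrArg (fun w => S⁻¹ *ᵥ w) hyz
      simpa only [Matrix.mulVec_mulVec, Matrix.nonsing_inv_mul _ hS.inv, Matrix.one_mulVec] using h2
    exact Matrix.mulVec_injective_iff.1 h1
  set W0 : Matrix (Fin n) (Fin J.card) ℂ := S.submatrix id e with hW0
  have hind : LinearIndependent ℂ W0ᵀ := hSind.comp e hinj
  have h1 : V.F (V.lo + ((p : ℕ) : ℤ)) x₀ = LinearMap.range W0.mulVecLin := by
    have h2 := hS.fl (V.lo + ((p : ℕ) : ℤ))
    rw [Matrix.range_mulVecLin]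
    have h3 : Set.range W0.col = Sᵀ '' {a | V.lo + ((p : ℕ) : ℤ) ≤ d a} := by
      rw [← hrange]
      ext y
      constructor
      · rintro ⟨i, rfl⟩
        exact ⟨e i, ⟨i, rfl⟩, rfl⟩
      · rintro ⟨a, ⟨i, rfl⟩, rfl⟩
        exact ⟨i, rfl⟩
    rw [h3]
    exact h2
  have h2 := rk_const V x₀ p
  rw [h1, CP3_rank _ hind] at h2
  exact h2

theorem ratio_PX (V : MVHS n m X G) (x₀ : X) (S : Matrix (Fin n) (Fin n) ℂ) (d : Fin n → ℤ)
    (hS : Adapted V.wt V.Q (fun p => V.F p x₀) S d) : ∃ e₀ : Jx V, ∀ x : X,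
      (∀ p a b, ‖(S⁻¹ * (prj (V.phs x) p - prj (V.phs x₀) p) * S) a b‖ ≤ 1 / (2 * (n : ℝ) + 1)) →
      ∀ v, PX V x v → (pt (rX V) S⁻¹ *ᵥ v) e₀ ≠ 0 ∧
        ∀ f, ‖(pt (rX V) S⁻¹ *ᵥ v) f‖ ≤ (n.factorial : ℝ) ^ Ls V * ‖(pt (rX V) S⁻¹ *ᵥ v) e₀‖ := by
  classical
  have hcard := L2_card V x₀ S d hS
  refine ⟨fun p => (Finset.univ.filter
    (fun a : Fin n => V.lo + ((p : ℕ) : ℤ) ≤ d a)).orderEmbOfFin (hcard p), ?_⟩
  set e₀ : Jx V := fun p => (Finset.univ.filter
    (fun a : Fin n => V.lo + ((p : ℕ) : ℤ) ≤ d a)).orderEmbOfFin (hcard p) with he₀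
  intro x hx v hv
  obtain ⟨W, c, hc, hW, rfl⟩ := hv
  have hSS : S * S⁻¹ = 1 := Matrix.mul_nonsing_inv _ hS.inv
  have hSS' : S⁻¹ * S = 1 := Matrix.nonsing_inv_mul _ hS.inv
  have key : ∀ p : Fin (Ls V), minor (S⁻¹ * W p) (e₀ p) ≠ 0 ∧ ∀ f : Fin (rX V p) → Fin n,
      ‖minor (S⁻¹ * W p) f‖ ≤ ((rX V p).factorial : ℝ) * ‖minor (S⁻¹ * W p) (e₀ p)‖ := by
    intro p
    set q : ℤ := V.lo + ((p : ℕ) : ℤ) with hq
    have hran : ∀ a : Fin n, (∃ i, e₀ p i = a) ↔ q ≤ d a := by
      intro a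
      have h1 : Set.range (e₀ p) =
          ((Finset.univ.filter (fun a : Fin n => q ≤ d a) : Finset (Fin n)) : Set (Fin n)) :=
        Finset.range_orderEmbOfFin _ (hcard p)
      have h2 : a ∈ Set.range (e₀ p) ↔ q ≤ d a := by
        rw [h1]
        simp
      exact h2
    refine ratio_minor (S⁻¹ * prj (V.phs x) q * S) (e₀ p) ?_ ?_ (S⁻¹ * W p) ?_ ?_
    · exact ((Finset.univ.filter
        (fun a : Fin n => V.lo + ((p : ℕ) : ℤ) ≤ d a)).orderEmbOfFin (hcard p)).injective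
    · intro a b
      have h1 := hx q a b
      have h2 : S⁻¹ * (prj (V.phs x) q - prj (V.phs x₀) q) * S =
          S⁻¹ * prj (V.phs x) q * S -
            Matrix.diagonal (fun a => if q ≤ d a then (1 : ℂ) else 0) := by
        rw [Matrix.mul_sub, Matrix.sub_mul, prj_adapted (V.phs x₀) hS q]
        congr 1
        calc S⁻¹ * (S * Matrix.diagonal (fun a => if q ≤ d a then (1 : ℂ) else 0) * S⁻¹) * S
            = (S⁻¹ * S) * Matrix.diagonal (fun a => if q ≤ d a then (1 : ℂ) else 0) *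
                (S⁻¹ * S) := by
              simp only [Matrix.mul_assoc]
          _ = Matrix.diagonal (fun a => if q ≤ d a then (1 : ℂ) else 0) := by
              rw [hSS', Matrix.one_mul, Matrix.mul_one]
      rw [h2, Matrix.sub_apply, Matrix.diagonal_apply] at h1
      have h3 : (if a = b ∧ ∃ i, e₀ p i = a then (1 : ℂ) else 0) =
          (if a = b then (if q ≤ d a then (1 : ℂ) else 0) else 0) := by
        by_cases hab : a = b
        · rw [if_pos hab]
          by_cases hqa : q ≤ d a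
          · rw [if_pos hqa, if_pos ⟨hab, (hran a).2 hqa⟩]
          · rw [if_neg hqa, if_neg (fun h => hqa ((hran a).1 h.2))]
        · rw [if_neg hab, if_neg (fun h => hab h.1)]
      rw [h3]
      exact h1
    · exact CP4_ind S⁻¹ S hSS (W p) (hW p).1
    · have h1 : prj (V.phs x) q * W p = W p := by
        ext i j
        have h2 : (fun k => W p k j) ∈ V.F q x := by
          rw [(hW p).2]
          refine ⟨Pi.single j 1, ?_⟩
          rw [Matrix.mulVecLin_apply, Matrix.mulVec_single_one]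
          rfl
        have h3 := (prj_mem (V.phs x) q _).1 h2
        exact congrFun h3 i
      calc S⁻¹ * prj (V.phs x) q * S * (S⁻¹ * W p)
          = S⁻¹ * (prj (V.phs x) q * ((S * S⁻¹) * W p)) := by simp only [Matrix.mul_assoc]
        _ = S⁻¹ * W p := by rw [hSS, Matrix.one_mul, h1]
  have hval : ∀ f : Jx V, (pt (rX V) S⁻¹ *ᵥ (c • pmin (rX V) W)) f =
      c * ∏ p, minor (S⁻¹ * W p) (f p) := by
    intro f
    rw [Matrix.mulVec_smul, ← pmin_mul]
    rfl
  constructor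
  · rw [hval]
    exact mul_ne_zero hc (Finset.prod_ne_zero_iff.2 fun p _ => (key p).1)
  · intro f
    rw [hval, hval, norm_mul, norm_mul, norm_prod, norm_prod]
    have h1 : ∏ p, ‖minor (S⁻¹ * W p) (f p)‖ ≤
        ∏ p : Fin (Ls V), ((n.factorial : ℝ) * ‖minor (S⁻¹ * W p) (e₀ p)‖) := by
      refine Finset.prod_le_prod (fun p _ => norm_nonneg _) (fun p _ => ?_)
      refine ((key p).2 (f p)).trans ?_
      refine mul_le_mul_of_nonneg_right ?_ (norm_nonneg _)
      have h2 : rX V p ≤ n := by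
        rw [← hcard p]
        refine (Finset.card_le_univ _).trans ?_
        rw [Fintype.card_fin]
      exact_mod_cast Nat.factorial_le h2
    rw [Finset.prod_mul_distrib, Finset.prod_const, Finset.card_univ, Fintype.card_fin] at h1
    calc ‖c‖ * ∏ p, ‖minor (S⁻¹ * W p) (f p)‖
        ≤ ‖c‖ * ((n.factorial : ℝ) ^ Ls V * ∏ p, ‖minor (S⁻¹ * W p) (e₀ p)‖) :=
          mul_le_mul_of_nonneg_left h1 (norm_nonneg _)
      _ = (n.factorial : ℝ) ^ Ls V * (‖c‖ * ∏ p, ‖minor (S⁻¹ * W p) (e₀ p)‖) := by ring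

end MP2794d1.WV
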