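import Pool.Agent.Lib.MP_2794d1_ag.WV.ADefs
import Pool.Agent.Lib.MP_2794d1_ag.AH.B06

/-!
L3: local analytic Pluecker vectors along a chart. For every `p`, `B06_loc` (AH/B06) at `x = C.c u`: `W p : X → Matrix _ _ ℂ` holomorphic at `x`, a basis of the step `p` near `x`. `B01_comp` (AH/B01) with `c = C.c` (`C.hol u hu`): `y ↦ W p (C.c y) i j` is analytic at `u`. `M y = pmin (rX V) (fun p => W p (C.c y))`;
`B06_minor` for the minors, finite products of analytic functions are analytic (`Finset.analyticAt_prod` or `Finset.induction_on`). `PX V (C.c y) (M y)` (with the factor `1`) for `y` near `u`: `C.c` is continuous at `u` (`(C.hol u hu).continuousAt`), finitely many `p`.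
-/

namespace MP2794d1.WV

open Matrix Complex Filter Topology MP2794d1 MP2794d1.AH MP2794d1.PC
open scoped ContDiff Manifold

variable {n m l : ℕ} {X G : Type} [TopologicalSpace X] [ChartedSpace (Fin m → ℂ) X]
  [IsManifold 𝓘(ℂ, Fin m → ℂ) ω X] [ConnectedSpace X] [Group G] [MulAction G X]

theorem PX_liftW (V : MVHS n m X G) (C : Chart V l) (u : Fin l → ℂ) (hu : u ∈ Dom C.I) :
    ∃ M : (Fin l → ℂ) → Jx V → ℂ, (∀ i, AnalyticAt ℂ (fun y => M y i) u) ∧
      ∀ᶠ y in 𝓝 u, PX V (C.c y) (M y) := by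
  choose W hW1 hW2 using B06_loc V (C.c u)
  have ht : Tendsto C.c (𝓝 u) (𝓝 (C.c u)) := (C.hol u hu).continuousAt
  refine ⟨fun y => pmin (rX V) (fun p => W p (C.c y)), ?_, ?_⟩
  · intro f
    show AnalyticAt ℂ (fun y => ∏ p, minor (W p (C.c y)) (f p)) u
    apply Finset.analyticAt_fun_prod
    intro p _
    exact B06_minor (fun y => W p (C.c y)) u
      (fun i j => (B01_comp (C.hol u hu) (hW1 p i j)).1) (f p)
  · filter_upwards [ht.eventually (eventually_all.2 hW2)] with y hy
    exact ⟨fun p => W p (C.c y), 1, one_ne_zero, fun p => hy p, by rw [one_smul]⟩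

end MP2794d1.WV
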