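import Pool.Agent.Lib.MP_2794d1_ag.WV.S2
import Pool.Agent.Lib.MP_2794d1_ag.BW.F1

/-!
S3: adapted frames in a chart: `growth_W` (S2) and `frame_poly` (BW/F1) for `cst V x` at `Complex.I`, as BW/F2; `one_le_Pr` (ADefs).
-/

namespace MP2794d1.WV

open Matrix Complex Filter Topology MP2794d1 MP2794d1.AH MP2794d1.BW
open scoped ContDiff Manifold

variable {n m l : ℕ} {X G : Type} [TopologicalSpace X] [ChartedSpace (Fin m → ℂ) X]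
  [IsManifold 𝓘(ℂ, Fin m → ℂ) ω X] [Group G] [MulAction G X]

theorem frame_W (V : MVHS n m X G) (C : Chart V l) : ∃ (C₀ : ℝ) (K : ℕ), 1 ≤ C₀ ∧ ∀ u ∈ Fund C.I,
    ∀ (S : Matrix (Fin n) (Fin n) ℂ) (d : Fin n → ℤ), Adapted V.wt V.Q (fun p => V.F p (C.c u)) S d →
      ∀ a b, ‖S a b‖ ≤ C₀ * Pr C.I u ^ K ∧ ‖S⁻¹ a b‖ ≤ C₀ * Pr C.I u ^ K := by
  obtain ⟨C₁, hC₁, h1⟩ := frame_poly V.Q
  obtain ⟨C₂, K, hC₂, h2⟩ := growth_W V C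
  refine ⟨2 * C₁ * C₂, K, by nlinarith, ?_⟩
  intro u hu S d hS a b
  have hP : 1 ≤ Pr C.I u := one_le_Pr hu
  have hPK : 1 ≤ Pr C.I u ^ K := one_le_pow₀ hP
  have h3 := h1 (cst V (C.c u)) rfl Complex.I (by rw [Complex.I_im]; norm_num)
    (C₂ * Pr C.I u ^ K) (by nlinarith) (h2 u hu) S d hS a b
  have h4 : C₁ * (1 + C₂ * Pr C.I u ^ K) ≤ 2 * C₁ * C₂ * Pr C.I u ^ K := by
    have h5 : 1 ≤ C₂ * Pr C.I u ^ K := by nlinarith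
    nlinarith
  exact ⟨h3.1.trans h4, h3.2.trans h4⟩

end MP2794d1.WV
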