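import Pool.Agent.Lib.MP_2794d1_ag.WV.S4

/-!
S5: closeness of the Hodge structures over a polydisc, by telescoping over the coordinates.
-/

namespace MP2794d1.WV

open Matrix Complex Filter Topology MP2794d1 MP2794d1.AH MP2794d1.BW
open scoped ContDiff Manifold

variable {n m l : ℕ} {X G : Type} [TopologicalSpace X] [ChartedSpace (Fin m → ℂ) X]
  [IsManifold 𝓘(ℂ, Fin m → ℂ) ω X] [Group G] [MulAction G X]

/-- the coordinates in `s` are those of `u`, the others those of `u₀` -/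
private noncomputable def S5_us (s : Finset (Fin l)) (u u₀ : Fin l → ℂ) : Fin l → ℂ :=
  fun i => if i ∈ s then u i else u₀ i

private theorem S5_mul (A B : Matrix (Fin n) (Fin n) ℂ) {a b : ℝ} (ha : 0 ≤ a)
    (hA : ∀ i j, ‖A i j‖ ≤ a) (hB : ∀ i j, ‖B i j‖ ≤ b) (i j : Fin n) :
    ‖(A * B) i j‖ ≤ (n : ℝ) * (a * b) := by
  rw [Matrix.mul_apply]
  calc ‖∑ k, A i k * B k j‖ ≤ ∑ k, ‖A i k * B k j‖ := norm_sum_le _ _
    _ ≤ ∑ _k : Fin n, a * b := Finset.sum_le_sum fun k _ => by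
        rw [norm_mul]
        exact mul_le_mul (hA i k) (hB k j) (norm_nonneg _) ha
    _ = (n : ℝ) * (a * b) := by
        rw [Finset.sum_const, Finset.card_univ, Fintype.card_fin, nsmul_eq_mul]

omit [IsManifold 𝓘(ℂ, Fin m → ℂ) ω X] in
private theorem S5_same (V : MVHS n m X G) : ∃ B : ℝ, 0 ≤ B ∧ ∀ (x : X)
    (S S' : Matrix (Fin n) (Fin n) ℂ) (d d' : Fin n → ℤ),
    Adapted V.wt V.Q (fun p => V.F p x) S d → Adapted V.wt V.Q (fun p => V.F p x) S' d' →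
    ∀ a b, ‖(S⁻¹ * S') a b‖ ≤ B ∧ ‖(S'⁻¹ * S) a b‖ ≤ B := by
  obtain ⟨C, hC, h⟩ := conv_entries_u n (kX V)
  refine ⟨C, hC, fun x S S' d d' hS hS' => ?_⟩
  refine h (cst V x) (kc_eq V _ rfl rfl) Complex.I Complex.I (by rw [Complex.I_im]; exact one_pos)
    ?_ S S' d d' hS hS'
  rw [sub_self, norm_zero, Complex.I_im]
  norm_num

private theorem S5_ind (V : MVHS n m X G) (C : Chart V l) (s : Finset (Fin l)) :
    ∃ B : ℝ, 1 ≤ B ∧ ∀ u₀ ∈ Fund C.I,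
    ∀ (u : Fin l → ℂ) (δ : ℝ), 0 ≤ δ → δ ≤ 1 / 20 → (∀ i, ‖u i - u₀ i‖ ≤ δ * rr C.I u₀ i) →
    ∀ (S : Matrix (Fin n) (Fin n) ℂ) (d : Fin n → ℤ), Adapted V.wt V.Q (fun p => V.F p (C.c u₀)) S d →
      (∀ p a b, ‖(S⁻¹ * (prj (V.phs (C.c (S5_us s u u₀))) p - prj (V.phs (C.c u₀)) p) * S) a b‖ ≤ B * δ) ∧
      ∀ (S' : Matrix (Fin n) (Fin n) ℂ) (d' : Fin n → ℤ),
        Adapted V.wt V.Q (fun p => V.F p (C.c (S5_us s u u₀))) S' d' →
        ∀ a b, ‖(S⁻¹ * S') a b‖ ≤ B ∧ ‖(S'⁻¹ * S) a b‖ ≤ B := by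
  classical
  obtain ⟨B₀, hB₀, hstep⟩ := step_W V C
  induction s using Finset.induction_on with
  | empty =>
    obtain ⟨B₁, hB₁, hsame⟩ := S5_same V
    refine ⟨B₁ + 1, by linarith, fun u₀ hu₀ u δ hδ hδ1 hu S d hS => ?_⟩
    have h0 : S5_us ∅ u u₀ = u₀ := by
      funext i
      simp [S5_us]
    rw [h0]
    refine ⟨fun p a b => ?_, fun S' d' hS' a b => ?_⟩
    · rw [sub_self, Matrix.mul_zero, Matrix.zero_mul, Matrix.zero_apply, norm_zero]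
      positivity
    · have h1 := hsame _ S S' d d' hS hS' a b
      exact ⟨h1.1.trans (by linarith), h1.2.trans (by linarith)⟩
  | insert j s hj ih =>
    obtain ⟨Bs, hBs, ih⟩ := ih
    have hn : (0 : ℝ) ≤ n := Nat.cast_nonneg n
    have hnB : 0 ≤ (n : ℝ) * (Bs * B₀) := by positivity
    have hnnB : 0 ≤ (n : ℝ) * ((n * (Bs * B₀)) * Bs) := by positivity
    refine ⟨(n : ℝ) * ((n * (Bs * B₀)) * Bs) + Bs + n * (Bs * B₀), by linarith,
      fun u₀ hu₀ u δ hδ hδ1 hu S d hS => ?_⟩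
    have hus : ∀ i, ‖S5_us s u u₀ i - u₀ i‖ ≤ δ * rr C.I u₀ i := by
      intro i
      unfold S5_us
      split_ifs with h
      · exact hu i
      · rw [sub_self, norm_zero]
        exact mul_nonneg hδ (rr_pos (Fund_sub C.I hu₀) i).le
    have hdom : S5_us s u u₀ ∈ Dom C.I := close_Dom hu₀ (by linarith : δ < 1 / 2) hus
    have hj0 : S5_us s u u₀ j = u₀ j := by
      unfold S5_us
      rw [if_neg hj]
    have hrr : rr C.I (S5_us s u u₀) j = rr C.I u₀ j := by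
      unfold rr
      rw [hj0]
    have hins : S5_us (insert j s) u u₀ = Function.update (S5_us s u u₀) j (u j) := by
      funext i
      unfold S5_us
      by_cases h : i = j
      · subst h
        rw [Function.update_self, if_pos (Finset.mem_insert_self _ _)]
      · rw [Function.update_of_ne h]
        by_cases h1 : i ∈ s
        · rw [if_pos h1, if_pos (Finset.mem_insert_of_mem h1)]
        · rw [if_neg h1, if_neg (fun h2 => (Finset.mem_insert.1 h2).elim h h1)]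
    obtain ⟨S₁, d₁, hS₁⟩ := exists_adapted (V.phs (C.c (S5_us s u u₀)))
    obtain ⟨ih1, ih2⟩ := ih u₀ hu₀ u δ hδ hδ1 hu S d hS
    have ih3 := ih2 S₁ d₁ hS₁
    obtain ⟨st1, st2⟩ := hstep (S5_us s u u₀) j (u j) δ hdom (fun h => by
      rw [hj0]
      exact hu₀.2 j h) hδ hδ1 (by rw [hj0, hrr]; exact hu j) S₁ d₁ hS₁
    rw [hins]
    have hinv : S₁ * S₁⁻¹ = 1 := Matrix.mul_nonsing_inv S₁ hS₁.inv
    refine ⟨fun p a b => ?_, fun S' d' hS' a b => ?_⟩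
    · obtain ⟨P', hP'⟩ : ∃ P', P' = prj (V.phs (C.c (Function.update (S5_us s u u₀) j (u j)))) p := ⟨_, rfl⟩
      obtain ⟨Ps, hPs⟩ : ∃ Ps, Ps = prj (V.phs (C.c (S5_us s u u₀))) p := ⟨_, rfl⟩
      obtain ⟨P₀, hP₀⟩ : ∃ P₀, P₀ = prj (V.phs (C.c u₀)) p := ⟨_, rfl⟩
      have e1 := st1 p
      have e2 := ih1 p a b
      rw [← hP', ← hPs] at e1
      rw [← hPs, ← hP₀] at e2
      rw [← hP', ← hP₀]
      have h1 : S⁻¹ * (P' - P₀) * S = (S⁻¹ * S₁) * (S₁⁻¹ * (P' - Ps) * S₁) * (S₁⁻¹ * S) +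
          S⁻¹ * (Ps - P₀) * S := by
        have h2 : (S⁻¹ * S₁) * (S₁⁻¹ * (P' - Ps) * S₁) * (S₁⁻¹ * S) =
            S⁻¹ * (S₁ * S₁⁻¹) * (P' - Ps) * (S₁ * S₁⁻¹) * S := by
          simp only [Matrix.mul_assoc]
        rw [h2, hinv, Matrix.mul_one, Matrix.mul_one, ← Matrix.add_mul, ← Matrix.mul_add,
          sub_add_sub_cancel]
      rw [h1, Matrix.add_apply]
      refine (norm_add_le _ _).trans ?_
      have h3 := S5_mul (S⁻¹ * S₁) (S₁⁻¹ * (P' - Ps) * S₁) (by linarith : 0 ≤ Bs)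
        (fun i k => (ih3 i k).1) e1
      have h4 := S5_mul ((S⁻¹ * S₁) * (S₁⁻¹ * (P' - Ps) * S₁)) (S₁⁻¹ * S) (by positivity) h3
        (fun i k => (ih3 i k).2) a b
      have h5 : (n : ℝ) * ((n : ℝ) * (Bs * (B₀ * δ)) * Bs) = (n : ℝ) * ((n * (Bs * B₀)) * Bs) * δ := by
        ring
      rw [h5] at h4
      have h6 : 0 ≤ (n : ℝ) * (Bs * B₀) * δ := by positivity
      nlinarith
    · have e1 := st2 S' d' hS'
      have h1 : S⁻¹ * S' = (S⁻¹ * S₁) * (S₁⁻¹ * S') := by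
        have h2 : (S⁻¹ * S₁) * (S₁⁻¹ * S') = S⁻¹ * (S₁ * S₁⁻¹) * S' := by
          simp only [Matrix.mul_assoc]
        rw [h2, hinv, Matrix.mul_one]
      have h1' : S'⁻¹ * S = (S'⁻¹ * S₁) * (S₁⁻¹ * S) := by
        have h2 : (S'⁻¹ * S₁) * (S₁⁻¹ * S) = S'⁻¹ * (S₁ * S₁⁻¹) * S := by
          simp only [Matrix.mul_assoc]
        rw [h2, hinv, Matrix.mul_one]
      have h3 := S5_mul (S⁻¹ * S₁) (S₁⁻¹ * S') (by linarith : 0 ≤ Bs)
        (fun i k => (ih3 i k).1) (fun i k => (e1 i k).1) a b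
      have h4 := S5_mul (S'⁻¹ * S₁) (S₁⁻¹ * S) (by linarith : 0 ≤ B₀)
        (fun i k => (e1 i k).2) (fun i k => (ih3 i k).2) a b
      rw [h1, h1']
      rw [mul_comm B₀ Bs] at h4
      exact ⟨h3.trans (by linarith), h4.trans (by linarith)⟩

theorem close_W (V : MVHS n m X G) (C : Chart V l) : ∃ B : ℝ, 1 ≤ B ∧ ∀ u₀ ∈ Fund C.I,
    ∀ (u : Fin l → ℂ) (δ : ℝ), 0 ≤ δ → δ ≤ 1 / 20 → (∀ i, ‖u i - u₀ i‖ ≤ δ * rr C.I u₀ i) →
    ∀ (S : Matrix (Fin n) (Fin n) ℂ) (d : Fin n → ℤ), Adapted V.wt V.Q (fun p => V.F p (C.c u₀)) S d →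
      ∀ p a b, ‖(S⁻¹ * (prj (V.phs (C.c u)) p - prj (V.phs (C.c u₀)) p) * S) a b‖ ≤ B * δ := by
  obtain ⟨B, hB, h⟩ := S5_ind V C Finset.univ
  refine ⟨B, hB, fun u₀ hu₀ u δ hδ hδ1 hu S d hS p a b => ?_⟩
  have h1 := (h u₀ hu₀ u δ hδ hδ1 hu S d hS).1 p a b
  have h2 : S5_us Finset.univ u u₀ = u := by
    funext i
    unfold S5_us
    rw [if_pos (Finset.mem_univ i)]
  rwa [h2] at h1

end MP2794d1.WV
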