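import Pool.Agent.Lib.MP_2794d1_ag.WV.L2
import Pool.Agent.Lib.MP_2794d1_ag.WV.L3
import Pool.Agent.Lib.MP_2794d1_ag.WV.S3
import Pool.Agent.Lib.MP_2794d1_ag.WV.S5

/-!
L4: normalised analytic Pluecker vectors on the polydiscs of a chart.
-/

namespace MP2794d1.WV

open Matrix Complex Filter Topology MP2794d1 MP2794d1.AH MP2794d1.PC
open scoped ContDiff Manifold

variable {n m l : ℕ} {X G : Type} [TopologicalSpace X] [ChartedSpace (Fin m → ℂ) X]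
  [IsManifold 𝓘(ℂ, Fin m → ℂ) ω X] [ConnectedSpace X] [Group G] [MulAction G X]

private theorem L4_entry {L : ℕ} (r : Fin L → ℕ) (hr : ∀ p, r p ≤ n) (A : Matrix (Fin n) (Fin n) ℂ)
    {a : ℝ} (ha : 1 ≤ a) (hA : ∀ i j, ‖A i j‖ ≤ a) (f g : PIdx n L r) :
    ‖pt r A f g‖ ≤ a ^ (n * L) := by
  have h1 : pt r A f g = ∏ p, ∏ i, A (f p i) (g p i) := rfl
  rw [h1, norm_prod]
  have h2 : ∀ p ∈ (Finset.univ : Finset (Fin L)), ‖∏ i, A (f p i) (g p i)‖ ≤ a ^ n := by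
    intro p _
    rw [norm_prod]
    calc ∏ i, ‖A (f p i) (g p i)‖ ≤ ∏ _i : Fin (r p), a :=
          Finset.prod_le_prod (fun i _ => norm_nonneg _) fun i _ => hA _ _
      _ = a ^ r p := by rw [Finset.prod_const, Finset.card_univ, Fintype.card_fin]
      _ ≤ a ^ n := pow_le_pow_right₀ ha (hr p)
  calc ∏ p, ‖∏ i, A (f p i) (g p i)‖ ≤ ∏ _p : Fin L, a ^ n :=
        Finset.prod_le_prod (fun p _ => norm_nonneg _) h2
    _ = a ^ (n * L) := by rw [Finset.prod_const, Finset.card_univ, Fintype.card_fin, pow_mul]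

private theorem L4_mulVec {ι : Type} [Fintype ι] (M : Matrix ι ι ℂ) (v : ι → ℂ) {b c : ℝ} (hb : 0 ≤ b)
    (hM : ∀ i j, ‖M i j‖ ≤ b) (hv : ∀ i, ‖v i‖ ≤ c) (i : ι) :
    ‖(M *ᵥ v) i‖ ≤ (Fintype.card ι : ℝ) * (b * c) := by
  have h1 : (M *ᵥ v) i = ∑ j, M i j * v j := rfl
  rw [h1]
  calc ‖∑ j, M i j * v j‖ ≤ ∑ j, ‖M i j * v j‖ := norm_sum_le _ _
    _ ≤ ∑ _j : ι, b * c := Finset.sum_le_sum fun j _ => by
        rw [norm_mul]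
        exact mul_le_mul (hM i j) (hv j) (norm_nonneg _) hb
    _ = (Fintype.card ι : ℝ) * (b * c) := by
        rw [Finset.sum_const, Finset.card_univ, nsmul_eq_mul]

private theorem L4_pd (I : Finset (Fin l)) (ε : ℝ) (u₀ s : Fin l → ℂ) :
    DifferentiableAt ℂ (pd I ε u₀) s := by
  refine differentiableAt_pi.2 fun i => ?_
  show DifferentiableAt ℂ (fun s : Fin l → ℂ => u₀ i + ((ε * rr I u₀ i : ℝ) : ℂ) * s i) s
  exact ((differentiableAt_apply i s).const_mul _).const_add _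

theorem lift_W (V : MVHS n m X G) (C : Chart V l) : ∃ (ε C₀ : ℝ) (K : ℕ), 0 < ε ∧ ε ≤ 1 / 20 ∧
    1 ≤ C₀ ∧ ∀ u₀ ∈ Fund C.I, ∃ ψ : (Fin l → ℂ) → Jx V → ℂ,
      DifferentiableOn ℂ ψ (Metric.ball 0 1) ∧ ∀ s ∈ Metric.ball (0 : Fin l → ℂ) 1,
        PX V (C.c (pd C.I ε u₀ s)) (ψ s) ∧ (C₀ * Pr C.I u₀ ^ K)⁻¹ ≤ ‖ψ s‖ ∧
          ‖ψ s‖ ≤ C₀ * Pr C.I u₀ ^ K := by
  obtain ⟨B, hB1, hclose⟩ := close_W V C
  obtain ⟨C₁, K₁, hC₁, hfr⟩ := frame_W V C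
  obtain ⟨ε, hε⟩ : ∃ ε : ℝ, ε = min (1 / 20) (1 / (B * (2 * (n : ℝ) + 1))) := ⟨_, rfl⟩
  have hn : (0 : ℝ) < 2 * (n : ℝ) + 1 := by positivity
  have hB0 : 0 < B := by linarith
  have hε0 : 0 < ε := by
    rw [hε]
    exact lt_min (by norm_num) (by positivity)
  have hε1 : ε ≤ 1 / 20 := by
    rw [hε]
    exact min_le_left _ _
  have hBε : B * ε ≤ 1 / (2 * (n : ℝ) + 1) := by
    have h1 : ε ≤ 1 / (B * (2 * (n : ℝ) + 1)) := by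
      rw [hε]
      exact min_le_right _ _
    calc B * ε ≤ B * (1 / (B * (2 * (n : ℝ) + 1))) := mul_le_mul_of_nonneg_left h1 hB0.le
      _ = 1 / (2 * (n : ℝ) + 1) := by field_simp
  have hr : ∀ p, rX V p ≤ n := by
    intro p
    unfold rX
    refine (Submodule.finrank_le _).trans (le_of_eq ?_)
    rw [Module.finrank_fin_fun]
  obtain ⟨J, hJ⟩ : ∃ J : ℝ, J = (Fintype.card (Jx V) : ℝ) := ⟨_, rfl⟩
  obtain ⟨R, hR⟩ : ∃ R : ℝ, R = ((n.factorial : ℝ)) ^ Ls V := ⟨_, rfl⟩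
  have hJ0 : 0 ≤ J := by rw [hJ]; positivity
  have hR1 : 1 ≤ R := by
    rw [hR]
    exact one_le_pow₀ (by exact_mod_cast Nat.factorial_pos n)
  refine ⟨ε, J * R * C₁ ^ (n * Ls V) + 1, K₁ * (n * Ls V), hε0, hε1, ?_, ?_⟩
  · have : 0 ≤ J * R * C₁ ^ (n * Ls V) := by positivity
    linarith
  intro u₀ hu₀
  obtain ⟨S, d, hS⟩ := exists_adapted (V.phs (C.c u₀))
  obtain ⟨e₀, he₀⟩ := ratio_PX V (C.c u₀) S d hS
  have hP1 : 1 ≤ Pr C.I u₀ := one_le_Pr hu₀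
  obtain ⟨P, hP⟩ : ∃ P, P = Pr C.I u₀ := ⟨_, rfl⟩
  rw [← hP] at hP1
  rw [← hP]
  obtain ⟨a, ha⟩ : ∃ a : ℝ, a = C₁ * P ^ K₁ := ⟨_, rfl⟩
  have ha1 : 1 ≤ a := by
    rw [ha]
    exact one_le_mul_of_one_le_of_one_le hC₁ (one_le_pow₀ hP1)
  have hSa : ∀ i j, ‖S i j‖ ≤ a := fun i j => by
    rw [ha, hP]
    exact (hfr u₀ hu₀ S d hS i j).1
  have hSa' : ∀ i j, ‖S⁻¹ i j‖ ≤ a := fun i j => by
    rw [ha, hP]
    exact (hfr u₀ hu₀ S d hS i j).2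
  have hpS : ∀ f g, ‖pt (rX V) S f g‖ ≤ a ^ (n * Ls V) := L4_entry (rX V) hr S ha1 hSa
  have hpS' : ∀ f g, ‖pt (rX V) S⁻¹ f g‖ ≤ a ^ (n * Ls V) := L4_entry (rX V) hr S⁻¹ ha1 hSa'
  have haE : 0 ≤ a ^ (n * Ls V) := by positivity
  -- the normalising functional
  have hφ : ∀ s ∈ Metric.ball (0 : Fin l → ℂ) 1, ∀ v, PX V (C.c (pd C.I ε u₀ s)) v →
      (pt (rX V) S⁻¹ *ᵥ v) e₀ ≠ 0 ∧
        ∀ f, ‖(pt (rX V) S⁻¹ *ᵥ v) f‖ ≤ R * ‖(pt (rX V) S⁻¹ *ᵥ v) e₀‖ := by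
    intro s hs v hv
    rw [hR]
    refine he₀ (C.c (pd C.I ε u₀ s)) (fun p i j => ?_) v hv
    exact (hclose u₀ hu₀ (pd C.I ε u₀ s) ε hε0.le hε1 (fun i => pd_close hu₀ hε0 hs i) S d hS p i j).trans hBε
  -- the vectors
  have hex : ∀ s : Fin l → ℂ, ∃ v, PX V (C.c (pd C.I ε u₀ s)) v := fun s => PX_ex V _
  choose v hv using hex
  have hψ : ∀ s ∈ Metric.ball (0 : Fin l → ℂ) 1,
      PX V (C.c (pd C.I ε u₀ s)) (((pt (rX V) S⁻¹ *ᵥ v s) e₀)⁻¹ • v s) := fun s hs =>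
    PX_smul V _ _ _ (inv_ne_zero (hφ s hs (v s) (hv s)).1) (hv s)
  have hψ1 : ∀ s ∈ Metric.ball (0 : Fin l → ℂ) 1,
      (pt (rX V) S⁻¹ *ᵥ (((pt (rX V) S⁻¹ *ᵥ v s) e₀)⁻¹ • v s)) e₀ = 1 := by
    intro s hs
    rw [Matrix.mulVec_smul, Pi.smul_apply, smul_eq_mul]
    exact inv_mul_cancel₀ (hφ s hs (v s) (hv s)).1
  have huniq : ∀ s ∈ Metric.ball (0 : Fin l → ℂ) 1, ∀ v', PX V (C.c (pd C.I ε u₀ s)) v' →
      ((pt (rX V) S⁻¹ *ᵥ v s) e₀)⁻¹ • v s = ((pt (rX V) S⁻¹ *ᵥ v') e₀)⁻¹ • v' := by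
    intro s hs v' hv'
    obtain ⟨c, hc⟩ := PX_uniq V _ _ _ (hψ s hs) hv'
    have h1 : (pt (rX V) S⁻¹ *ᵥ v') e₀ = c := by
      rw [hc, Matrix.mulVec_smul, Pi.smul_apply, smul_eq_mul, hψ1 s hs, mul_one]
    have h2 := (hφ s hs v' hv').1
    rw [h1] at h2 ⊢
    rw [hc, smul_smul, inv_mul_cancel₀ h2, one_smul]
  refine ⟨fun s => ((pt (rX V) S⁻¹ *ᵥ v s) e₀)⁻¹ • v s, ?_, ?_⟩
  · -- differentiability
    intro s hs
    refine DifferentiableAt.differentiableWithinAt ?_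
    have hdom : pd C.I ε u₀ s ∈ Dom C.I :=
      close_Dom hu₀ (by linarith : ε < 1 / 2) (fun i => pd_close hu₀ hε0 hs i)
    obtain ⟨M, hM, hMe⟩ := PX_liftW V C (pd C.I ε u₀ s) hdom
    have hpd := L4_pd C.I ε u₀ s
    have hev : ∀ᶠ s' in 𝓝 s, ((pt (rX V) S⁻¹ *ᵥ v s') e₀)⁻¹ • v s' =
        ((pt (rX V) S⁻¹ *ᵥ M (pd C.I ε u₀ s')) e₀)⁻¹ • M (pd C.I ε u₀ s') := by
      filter_upwards [Metric.isOpen_ball.mem_nhds hs, hpd.continuousAt.eventually hMe] with s' h1 h2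
      exact huniq s' h1 _ h2
    have hMd : ∀ g, DifferentiableAt ℂ (fun s' => M (pd C.I ε u₀ s') g) s := fun g =>
      (hM g).differentiableAt.comp s hpd
    have hφd : DifferentiableAt ℂ (fun s' => (pt (rX V) S⁻¹ *ᵥ M (pd C.I ε u₀ s')) e₀) s := by
      have h1 : (fun s' => (pt (rX V) S⁻¹ *ᵥ M (pd C.I ε u₀ s')) e₀) =
          fun s' => ∑ g, pt (rX V) S⁻¹ e₀ g * M (pd C.I ε u₀ s') g := rfl
      rw [h1]
      exact DifferentiableAt.fun_sum fun g _ => (hMd g).const_mul _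
    have hne : (pt (rX V) S⁻¹ *ᵥ M (pd C.I ε u₀ s)) e₀ ≠ 0 :=
      (hφ s hs _ hMe.self_of_nhds).1
    refine DifferentiableAt.congr_of_eventuallyEq ?_ hev
    refine differentiableAt_pi.2 fun g => ?_
    show DifferentiableAt ℂ (fun s' => ((pt (rX V) S⁻¹ *ᵥ M (pd C.I ε u₀ s')) e₀)⁻¹ *
      M (pd C.I ε u₀ s') g) s
    exact (hφd.inv hne).mul (hMd g)
  · intro s hs
    refine ⟨hψ s hs, ?_⟩
    beta_reduce
    have h1 := hψ s hs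
    have h2 := hψ1 s hs
    obtain ⟨w, hw⟩ : ∃ w : Jx V → ℂ, w = ((pt (rX V) S⁻¹ *ᵥ v s) e₀)⁻¹ • v s := ⟨_, rfl⟩
    rw [← hw] at h1 h2 ⊢
    have h3 : ∀ f, ‖(pt (rX V) S⁻¹ *ᵥ w) f‖ ≤ R := by
      intro f
      have := (hφ s hs w h1).2 f
      rwa [h2, norm_one, mul_one] at this
    have h4 : pt (rX V) S *ᵥ (pt (rX V) S⁻¹ *ᵥ w) = w := by
      rw [Matrix.mulVec_mulVec, ← pt_mul, Matrix.mul_nonsing_inv S hS.inv, pt_one, Matrix.one_mulVec]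
    have haK : a ^ (n * Ls V) = C₁ ^ (n * Ls V) * P ^ (K₁ * (n * Ls V)) := by
      rw [ha, mul_pow, ← pow_mul]
    have hPK : 1 ≤ P ^ (K₁ * (n * Ls V)) := one_le_pow₀ hP1
    have hup : J * (a ^ (n * Ls V) * R) ≤
        (J * R * C₁ ^ (n * Ls V) + 1) * P ^ (K₁ * (n * Ls V)) := by
      rw [haK]
      have : 0 ≤ P ^ (K₁ * (n * Ls V)) := by positivity
      nlinarith
    have hupper : ‖w‖ ≤ J * (a ^ (n * Ls V) * R) := by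
      refine (pi_norm_le_iff_of_nonneg (by positivity)).2 fun f => ?_
      have h5 := L4_mulVec (pt (rX V) S) (pt (rX V) S⁻¹ *ᵥ w) haE hpS h3 f
      rwa [h4, ← hJ] at h5
    have hlow : 1 ≤ J * (a ^ (n * Ls V) * ‖w‖) := by
      have h5 := L4_mulVec (pt (rX V) S⁻¹) w haE hpS' (fun i => norm_le_pi_norm w i) e₀
      rwa [h2, norm_one, ← hJ] at h5
    constructor
    · have hpos : 0 < (J * R * C₁ ^ (n * Ls V) + 1) * P ^ (K₁ * (n * Ls V)) := by positivity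
      rw [inv_le_iff_one_le_mul₀ hpos]
      refine hlow.trans ?_
      have h6 : J * (a ^ (n * Ls V) * ‖w‖) ≤ J * (a ^ (n * Ls V) * R) * ‖w‖ := by
        have : 0 ≤ J * a ^ (n * Ls V) * ‖w‖ := by positivity
        nlinarith
      calc J * (a ^ (n * Ls V) * ‖w‖) ≤ J * (a ^ (n * Ls V) * R) * ‖w‖ := h6
        _ ≤ (J * R * C₁ ^ (n * Ls V) + 1) * P ^ (K₁ * (n * Ls V)) * ‖w‖ :=
            mul_le_mul_of_nonneg_right hup (norm_nonneg _)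
        _ = ‖w‖ * ((J * R * C₁ ^ (n * Ls V) + 1) * P ^ (K₁ * (n * Ls V))) := mul_comm _ _
    · exact hupper.trans hup

end MP2794d1.WV
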