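import Pool.Agent.Lib.MP_2794d1_ag.WV.N1

/-!
N2: the minimal Hodge norm of an integral matrix at a CM point. `j, k` from `trace_ne` (N1). `det Q * tr (B A^j B' A^k)` is an integer (`radj Q B = (qm Q)⁻¹ (qm B)ᵀ qm Q` and `det Q • (qm Q)⁻¹ = adjugate` is integral) and not `0`, so `1 ≤ |det Q| |tr (B A^j B' A^k)|`. In the basis `S`: the trace is
`tr (M N^j M' N^k)` with `M = S⁻¹ (im B) S`, `N = S⁻¹ (im A) S`, `M' = S⁻¹ (cm (radj Q B)) S` (cyclicity of the trace / conjugation), `|M a b| ≤ β`, `|M' a b| = |M b a| ≤ β` (`key` in the proof of `rosati_frob`, U01: `D * mconj M' = Mᵀ * D`, `|D a| = 1`), `|N a b| ≤ h` (`rosati_frob`), the entries of `N ^ j` are at most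
`(n h) ^ j + 1`-like, so (`1 ≤ h`, `j, k ≤ n`) `|tr| ≤ C (n) h ^ (2 n) β ^ 2`.
-/

namespace MP2794d1.WV

open Matrix Complex MP2794d1

/-- the complexified adjoint has the same entries as the transposed matrix, up to a unit -/
private theorem N2_norm {n : ℕ} {wt : ℤ} {Q : Matrix (Fin n) (Fin n) ℤ}
    {Fl : ℤ → Submodule ℂ (Fin n → ℂ)} (h : IsPHS wt Q Fl) {S : Matrix (Fin n) (Fin n) ℂ}
    {d : Fin n → ℤ} (hS : Adapted wt Q Fl S d) (B : Matrix (Fin n) (Fin n) ℤ) (a b : Fin n) :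
    ‖(S⁻¹ * cm (radj Q B) * S) b a‖ = ‖(S⁻¹ * im B * S) a b‖ := by
  have hSu : IsUnit S.det := hS.inv
  have hSS : S * S⁻¹ = 1 := Matrix.mul_nonsing_inv S hSu
  have hT : mconj S * mconj S⁻¹ = 1 := by rw [← e06_mul, hSS, e06_one]
  have hSt : S⁻¹ᵀ * Sᵀ = 1 := by rw [← Matrix.transpose_mul, hSS, Matrix.transpose_one]
  have hrel := U01_radj Q B (im_Q_unit h)
  set A' := cm (radj Q B) with hA'
  have hreal : mconj A' = A' := mconj_cm _
  set D : Matrix (Fin n) (Fin n) ℂ := Matrix.diagonal (fun a => Complex.I ^ (wt - 2 * d a)) with hD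
  have hon : Sᵀ * im Q * mconj S = D := hS.on
  set M := S⁻¹ * im B * S with hM
  set M' := S⁻¹ * A' * S with hM'
  have hMc : mconj M' = mconj S⁻¹ * A' * mconj S := by
    rw [hM', e06_mul, e06_mul, hreal]
  have key : D * mconj M' = Mᵀ * D := by
    calc D * mconj M' = Sᵀ * im Q * (mconj S * mconj S⁻¹) * A' * mconj S := by
          rw [hMc, ← hon]; simp only [Matrix.mul_assoc]
      _ = Sᵀ * (im Q * A') * mconj S := by
          rw [hT]; simp only [Matrix.mul_assoc, Matrix.mul_one]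
      _ = Sᵀ * ((im B)ᵀ * im Q) * mconj S := by rw [hrel]
      _ = Sᵀ * (im B)ᵀ * (S⁻¹ᵀ * Sᵀ) * im Q * mconj S := by
          rw [hSt]; simp only [Matrix.mul_assoc, Matrix.mul_one]
      _ = Mᵀ * D := by
          rw [← hon, hM, Matrix.transpose_mul, Matrix.transpose_mul]
          simp only [Matrix.mul_assoc]
  have hk := congrFun (congrFun key b) a
  rw [hD, Matrix.mul_diagonal, Matrix.diagonal_mul, Matrix.transpose_apply] at hk
  have h4 : mconj M' b a = (starRingEnd ℂ) (M' b a) := rfl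
  rw [h4] at hk
  have h5 := congrArg norm hk
  rw [norm_mul, norm_mul, norm_zpow, norm_zpow, Complex.norm_I, _root_.one_zpow, _root_.one_zpow, one_mul,
    mul_one, RCLike.norm_conj] at h5
  exact h5

private theorem N2_mul {n : ℕ} (X Y : Matrix (Fin n) (Fin n) ℂ) (x y : ℝ) (hx : 0 ≤ x)
    (hX : ∀ a b, ‖X a b‖ ≤ x) (hY : ∀ a b, ‖Y a b‖ ≤ y) (a b : Fin n) :
    ‖(X * Y) a b‖ ≤ n * (x * y) := by
  rw [Matrix.mul_apply]
  refine (norm_sum_le _ _).trans ?_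
  calc ∑ c, ‖X a c * Y c b‖ ≤ ∑ _c : Fin n, x * y := by
        refine Finset.sum_le_sum fun c _ => ?_
        rw [norm_mul]
        exact mul_le_mul (hX a c) (hY c b) (norm_nonneg _) hx
    _ = n * (x * y) := by
        rw [Finset.sum_const, Finset.card_univ, Fintype.card_fin, nsmul_eq_mul]

private theorem N2_pow {n : ℕ} (N : Matrix (Fin n) (Fin n) ℂ) (h : ℝ) (hh : 1 ≤ h)
    (hN : ∀ a b, ‖N a b‖ ≤ h) (j : ℕ) : ∀ a b, ‖(N ^ j) a b‖ ≤ (((n : ℝ) + 1) * h) ^ j := by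
  have hn : (0 : ℝ) ≤ n := Nat.cast_nonneg n
  have h0 : (0 : ℝ) ≤ ((n : ℝ) + 1) * h := by positivity
  induction j with
  | zero =>
    intro a b
    rw [pow_zero, pow_zero, Matrix.one_apply]
    split_ifs
    · rw [norm_one]
    · rw [norm_zero]
      exact zero_le_one
  | succ j ih =>
    intro a b
    rw [pow_succ, pow_succ]
    refine (N2_mul _ _ _ _ (pow_nonneg h0 j) ih hN a b).trans ?_
    have h1 : (0 : ℝ) ≤ (((n : ℝ) + 1) * h) ^ j := pow_nonneg h0 j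
    calc (n : ℝ) * ((((n : ℝ) + 1) * h) ^ j * h) = (((n : ℝ) + 1) * h) ^ j * (n * h) := by ring
      _ ≤ (((n : ℝ) + 1) * h) ^ j * (((n : ℝ) + 1) * h) := by
          refine mul_le_mul_of_nonneg_left ?_ h1
          nlinarith

/-- `det Q` times the rational trace is an integer -/
private theorem N2_int {n : ℕ} (Q A B : Matrix (Fin n) (Fin n) ℤ) (hQ : IsUnit (qm Q).det)
    (j k : ℕ) : ∃ z : ℤ, (Q.det : ℚ) * (qm B * qm A ^ j * radj Q B * qm A ^ k).trace = z := by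
  have hmap : ∀ X : Matrix (Fin n) (Fin n) ℤ, qm X = X.map (Int.castRingHom ℚ) := by
    intro X
    ext a b
    rfl
  have hdet : (qm Q).det = (Q.det : ℚ) := by
    rw [hmap, ← RingHom.mapMatrix_apply, ← RingHom.map_det]
    rfl
  have hadj : (Q.det : ℚ) • (qm Q)⁻¹ = qm Q.adjugate := by
    rw [Matrix.inv_def, hdet, Ring.inverse_eq_inv', smul_smul, mul_inv_cancel₀, one_smul, hmap,
      hmap, ← RingHom.mapMatrix_apply, ← RingHom.mapMatrix_apply, RingHom.map_adjugate]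
    rw [← hdet]
    exact hQ.ne_zero
  have hmul : ∀ X Y : Matrix (Fin n) (Fin n) ℤ, qm (X * Y) = qm X * qm Y := by
    intro X Y
    rw [hmap, hmap, hmap, Matrix.map_mul]
  have hpow : ∀ (X : Matrix (Fin n) (Fin n) ℤ) (j : ℕ), qm (X ^ j) = qm X ^ j := by
    intro X j
    rw [hmap, hmap, ← RingHom.mapMatrix_apply, ← RingHom.mapMatrix_apply, map_pow]
  have hrad : (Q.det : ℚ) • radj Q B = qm (Q.adjugate * Bᵀ * Q) := by
    unfold radj
    rw [hmul, hmul, ← hadj, Matrix.smul_mul, Matrix.smul_mul]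
    rfl
  refine ⟨(B * A ^ j * (Q.adjugate * Bᵀ * Q) * A ^ k).trace, ?_⟩
  have h1 : (Q.det : ℚ) * (qm B * qm A ^ j * radj Q B * qm A ^ k).trace =
      (qm (B * A ^ j * (Q.adjugate * Bᵀ * Q) * A ^ k)).trace := by
    rw [hmul, hmul, hmul, hpow, hpow, ← hrad, Matrix.mul_smul, Matrix.smul_mul,
      Matrix.trace_smul, smul_eq_mul]
  rw [h1]
  have h2 : ∀ X : Matrix (Fin n) (Fin n) ℤ, (qm X).trace = (X.trace : ℚ) := by
    intro X
    rw [Matrix.trace, Matrix.trace, Int.cast_sum]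
    rfl
  exact h2 _

theorem min_norm {n : ℕ} (Q : Matrix (Fin n) (Fin n) ℤ) : ∃ C : ℝ, 1 ≤ C ∧
    ∀ (wt : ℤ) (Fl : ℤ → Submodule ℂ (Fin n → ℂ)), IsPHS wt Q Fl →
    ∀ (S : Matrix (Fin n) (Fin n) ℂ) (d : Fin n → ℤ), Adapted wt Q Fl S d →
    ∀ (A B : Matrix (Fin n) (Fin n) ℤ) (h β : ℝ), 1 ≤ h → 0 ≤ β → (im A).charpoly.Separable →
      (∀ p, ∀ y ∈ Fl p, im A *ᵥ y ∈ Fl p) → (((qm A * radj Q A).trace : ℚ) : ℝ) ≤ h ^ 2 → B ≠ 0 →
      (∀ a b, ‖(S⁻¹ * im B * S) a b‖ ≤ β) → 1 ≤ C * h ^ (2 * n) * β ^ 2 := by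
  have hn : (0 : ℝ) ≤ n := Nat.cast_nonneg n
  refine ⟨1 + |(Q.det : ℝ)| * (n ^ 4 * ((n : ℝ) + 1) ^ (2 * n)), ?_, ?_⟩
  · have : 0 ≤ |(Q.det : ℝ)| * (n ^ 4 * ((n : ℝ) + 1) ^ (2 * n)) := by positivity
    linarith
  intro wt Fl hP S d hS A B h β hh hβ hsep hA htr hB hM
  have hQ : IsUnit (qm Q).det := U01_det (qm Q) (by rw [U01_cm_qm]; exact im_Q_unit hP)
  obtain ⟨j, k, hj, hk, hne⟩ := trace_ne hP A B hsep hA hB
  obtain ⟨z, hz⟩ := N2_int Q A B hQ j k
  -- the integer is not zero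
  have hQ0 : (Q.det : ℚ) ≠ 0 := by
    intro h0
    apply hQ.ne_zero
    have hdet : (qm Q).det = (Q.det : ℚ) := by
      have hmap : qm Q = Q.map (Int.castRingHom ℚ) := by
        ext a b
        rfl
      rw [hmap, ← RingHom.mapMatrix_apply, ← RingHom.map_det]
      rfl
    rw [hdet, h0]
  have hz0 : z ≠ 0 := by
    rintro rfl
    rw [Int.cast_zero, mul_eq_zero] at hz
    rcases hz with h1 | h1
    · exact hQ0 h1
    · exact hne h1
  -- the trace in the basis `S`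
  have hSu : IsUnit S.det := hS.inv
  have hSS : S * S⁻¹ = 1 := Matrix.mul_nonsing_inv S hSu
  have hSS' : S⁻¹ * S = 1 := Matrix.nonsing_inv_mul S hSu
  obtain ⟨M, hMd⟩ : ∃ M, M = S⁻¹ * im B * S := ⟨_, rfl⟩
  obtain ⟨N, hNd⟩ : ∃ N, N = S⁻¹ * im A * S := ⟨_, rfl⟩
  obtain ⟨M', hMd'⟩ : ∃ M', M' = S⁻¹ * cm (radj Q B) * S := ⟨_, rfl⟩
  have hpw : ∀ j : ℕ, S⁻¹ * im A ^ j * S = N ^ j := by
    intro j
    induction j with
    | zero => rw [pow_zero, pow_zero, Matrix.mul_one, hSS']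
    | succ j ih =>
      rw [pow_succ, pow_succ, ← ih, hNd]
      calc S⁻¹ * (im A ^ j * im A) * S = S⁻¹ * im A ^ j * 1 * im A * S := by
            simp only [Matrix.mul_assoc, Matrix.mul_one]
        _ = S⁻¹ * im A ^ j * (S * S⁻¹) * im A * S := by rw [hSS]
        _ = _ := by simp only [Matrix.mul_assoc]
  have hcmpow : ∀ j : ℕ, cm (qm A ^ j) = im A ^ j := by
    intro j
    induction j with
    | zero =>
      rw [pow_zero, pow_zero]
      ext a b
      by_cases hab : a = b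
      · subst hab
        simp [cm]
      · simp [cm, hab]
    | succ j ih => rw [pow_succ, pow_succ, S01_cm_mul, ih, U01_cm_qm]
  have htrace : (cm (qm B * qm A ^ j * radj Q B * qm A ^ k)).trace =
      (M * N ^ j * M' * N ^ k).trace := by
    rw [S01_cm_mul, S01_cm_mul, S01_cm_mul, hcmpow, hcmpow, U01_cm_qm, hMd, hMd', ← hpw, ← hpw]
    have e1 : S⁻¹ * im B * S * (S⁻¹ * im A ^ j * S) * (S⁻¹ * cm (radj Q B) * S) *
        (S⁻¹ * im A ^ k * S) = S⁻¹ * (im B * im A ^ j * cm (radj Q B) * im A ^ k * S) := by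
      calc _ = S⁻¹ * im B * (S * S⁻¹) * im A ^ j * (S * S⁻¹) * cm (radj Q B) * (S * S⁻¹) *
            im A ^ k * S := by simp only [Matrix.mul_assoc]
        _ = _ := by rw [hSS]; simp only [Matrix.mul_assoc, Matrix.mul_one]
    rw [e1, Matrix.trace_mul_comm S⁻¹, Matrix.mul_assoc _ S S⁻¹, hSS, Matrix.mul_one]
  -- bounds for the entries
  have bM : ∀ a b, ‖M a b‖ ≤ β := by
    rw [hMd]
    exact hM
  have bM' : ∀ a b, ‖M' a b‖ ≤ β := by
    intro a b
    rw [hMd', N2_norm hP hS B b a]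
    exact hM b a
  have bN : ∀ a b, ‖N a b‖ ≤ h := by
    intro a b
    have h1 := rosati_frob hP hS A hA
    rw [← hNd] at h1
    have h2 : Complex.normSq (N a b) ≤ h ^ 2 := by
      rw [h1] at htr
      refine le_trans ?_ htr
      refine le_trans ?_ (Finset.single_le_sum (f := fun a => ∑ b, Complex.normSq (N a b))
        (fun i _ => Finset.sum_nonneg fun _ _ => Complex.normSq_nonneg _) (Finset.mem_univ a))
      exact Finset.single_le_sum (f := fun b => Complex.normSq (N a b))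
        (fun i _ => Complex.normSq_nonneg _) (Finset.mem_univ b)
    rw [Complex.normSq_eq_norm_sq] at h2
    exact (pow_le_pow_iff_left₀ (norm_nonneg _) (by linarith) two_ne_zero).1 h2
  obtain ⟨E, hE⟩ : ∃ E : ℝ, E = (((n : ℝ) + 1) * h) ^ n := ⟨_, rfl⟩
  have hnh : (1 : ℝ) ≤ ((n : ℝ) + 1) * h := by nlinarith
  have hE0 : 0 ≤ E := by
    rw [hE]
    positivity
  have bP : ∀ i, i ≤ n → ∀ a b, ‖(N ^ i) a b‖ ≤ E := by
    intro i hi a b
    refine (N2_pow N h hh bN i a b).trans ?_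
    rw [hE]
    exact pow_le_pow_right₀ hnh hi
  have b1 := N2_mul M (N ^ j) β E hβ bM (bP j hj)
  have b2 := N2_mul (M * N ^ j) M' (n * (β * E)) β (by positivity) b1 bM'
  have b3 := N2_mul (M * N ^ j * M') (N ^ k) (n * (n * (β * E) * β)) E (by positivity) b2 (bP k hk)
  have b4 : ‖(M * N ^ j * M' * N ^ k).trace‖ ≤ n * (n * (n * (n * (β * E) * β) * E)) := by
    rw [Matrix.trace]
    refine (norm_sum_le _ _).trans ?_
    calc ∑ a, ‖(M * N ^ j * M' * N ^ k).diag a‖ ≤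
          ∑ _a : Fin n, (n : ℝ) * (n * (n * (β * E) * β) * E) :=
          Finset.sum_le_sum fun a _ => b3 a a
      _ = _ := by rw [Finset.sum_const, Finset.card_univ, Fintype.card_fin, nsmul_eq_mul]
  -- the integer
  have hzabs : (1 : ℝ) ≤ |(z : ℝ)| := by
    have h1 := Int.one_le_abs hz0
    exact_mod_cast h1
  have hzt : |(z : ℝ)| = |(Q.det : ℝ)| * ‖(M * N ^ j * M' * N ^ k).trace‖ := by
    have h1 : ((z : ℚ) : ℂ) = (Q.det : ℂ) * (M * N ^ j * M' * N ^ k).trace := by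
      rw [← hz, ← htrace, U01_cm_trace, Rat.cast_mul, Rat.cast_intCast]
    have h2 := congrArg norm h1
    rw [norm_mul] at h2
    have h3 : ‖((z : ℚ) : ℂ)‖ = |(z : ℝ)| := by
      rw [Rat.cast_intCast, Complex.norm_intCast]
    have h4 : ‖(Q.det : ℂ)‖ = |(Q.det : ℝ)| := Complex.norm_intCast _
    rw [h3, h4] at h2
    exact h2
  have hfin : (1 : ℝ) ≤ |(Q.det : ℝ)| * (n * (n * (n * (n * (β * E) * β) * E))) := by
    refine hzabs.trans ?_
    rw [hzt]
    exact mul_le_mul_of_nonneg_left b4 (abs_nonneg _)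
  have heq : |(Q.det : ℝ)| * (n * (n * (n * (n * (β * E) * β) * E))) =
      |(Q.det : ℝ)| * (n ^ 4 * ((n : ℝ) + 1) ^ (2 * n)) * h ^ (2 * n) * β ^ 2 := by
    have e1 : ((n : ℝ) + 1) ^ (2 * n) = (((n : ℝ) + 1) ^ n) ^ 2 := by rw [← pow_mul, mul_comm]
    have e2 : h ^ (2 * n) = (h ^ n) ^ 2 := by rw [← pow_mul, mul_comm]
    have e3 : E = ((n : ℝ) + 1) ^ n * h ^ n := by rw [hE, mul_pow]
    rw [e1, e2, e3]
    ring
  rw [heq] at hfin
  have h9 : (0 : ℝ) ≤ h ^ (2 * n) * β ^ 2 := by positivity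
  nlinarith

end MP2794d1.WV
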