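import Pool.Agent.Lib.MP_2794d1_ag.WV.S1
import Pool.Agent.Lib.MP_2794d1_ag.WV.N2
import Pool.Agent.Lib.MP_2794d1_ag.BW.U3

/-!
N3: CM points of complexity at most `h` are not too close to the boundary. For `i ∈ I`: `M, N` from `exists_unip` (S1), `C₁, Y` from `MN_exp_u n (kX V)` (BW/U3), `C₂` from `min_norm V.Q` (N2). Let `u ∈ Fund I`, `x = C.c u` a CM point of complexity at most `h`, `S, d` adapted at `x`. `W, c` from `exists_cusp` (S1) at `u`,
`z = u i / M`: `Function.update u i (M * z) = u`, `Im z = Im (u i) / M`. If `Y ≤ Im z`: the entries of `S⁻¹ (uexp (cm N) 1 - 1) S` are at most `β = C₁ / Im z` (`MN_exp_u` with `s = 1`; `kc_eq`, BW/ADefs), and `uexp (cm N) 1 - 1 = im B` with `B = rho (T i) ^ M - 1 ≠ 0`: `min_norm`: `(Im z) ^ 2 ≤ C₂ h ^ (2 n) C₁ ^ 2`, so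
`Im (u i) ≤ M (C₁ + 1) (C₂ + 1) h ^ n`. If `Im z < Y`: `Im (u i) < M Y`. `C₀` = the sum over `i ∈ I` (or the maximum) of the constants (`Finset` of indices: `choose`), `1 ≤ h ^ n`.
-/

namespace MP2794d1.WV

open Matrix Complex Filter Topology MP2794d1 MP2794d1.AH MP2794d1.BW
open scoped ContDiff Manifold

variable {n m l : ℕ} {X G : Type} [TopologicalSpace X] [ChartedSpace (Fin m → ℂ) X]
  [IsManifold 𝓘(ℂ, Fin m → ℂ) ω X] [Group G] [MulAction G X]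

private theorem n3_im_sub_one (A : Matrix (Fin n) (Fin n) ℤ) : im (A - 1) = im A - 1 := by
  ext a b
  unfold im
  rw [Matrix.map_apply, Matrix.sub_apply, Matrix.sub_apply, Matrix.map_apply, Matrix.one_apply,
    Matrix.one_apply]
  split_ifs <;> push_cast <;> ring

theorem im_bound (V : MVHS n m X G) (C : Chart V l) : ∃ C₀ : ℝ, 1 ≤ C₀ ∧ ∀ u ∈ Fund C.I,
    ∀ h : ℝ, 1 ≤ h → IsCMX V (C.c u) h → ∀ i ∈ C.I, (u i).im ≤ C₀ * h ^ n := by
  classical
  obtain ⟨C₁, Y, hC₁, hY, hexp⟩ := MN_exp_u n (kX V)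
  obtain ⟨C₂, hC₂, hmin⟩ := min_norm V.Q
  have hun : ∀ i : Fin l, ∃ M : ℕ, i ∈ C.I → 0 < M ∧ ∃ N : Matrix (Fin n) (Fin n) ℚ, N ^ n = 0 ∧
      im ((V.rho (C.T i) : Matrix (Fin n) (Fin n) ℤ) ^ M) = uexp (cm N) 1 ∧
      (V.rho (C.T i) : Matrix (Fin n) (Fin n) ℤ) ^ M ≠ 1 := by
    intro i
    by_cases hi : i ∈ C.I
    · obtain ⟨M, N, h1, h2, h3, h4⟩ := exists_unip V C i hi
      exact ⟨M, fun _ => ⟨h1, N, h2, h3, h4⟩⟩
    · exact ⟨0, fun h => absurd h hi⟩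
  choose M hM using hun
  have hK0 : 0 ≤ Y + (C₁ + 1) * (C₂ + 1) := by positivity
  have hsum : ∀ i, 0 ≤ (M i : ℝ) * (Y + (C₁ + 1) * (C₂ + 1)) := fun i => by positivity
  refine ⟨1 + ∑ i, (M i : ℝ) * (Y + (C₁ + 1) * (C₂ + 1)), ?_, ?_⟩
  · have := Finset.sum_nonneg (s := Finset.univ) fun i _ => hsum i
    linarith
  intro u hu h hh hCM i hi
  have hhn : 1 ≤ h ^ n := one_le_pow₀ hh
  suffices hsuf : (u i).im ≤ (M i : ℝ) * (Y + (C₁ + 1) * (C₂ + 1)) * h ^ n by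
    refine hsuf.trans (mul_le_mul_of_nonneg_right ?_ (by linarith))
    have := Finset.single_le_sum (s := Finset.univ) (fun i _ => hsum i) (Finset.mem_univ i)
    linarith
  obtain ⟨hM0, N, hN, he, hne⟩ := hM i hi
  have hMr : (0 : ℝ) < M i := by exact_mod_cast hM0
  have hMc : (M i : ℂ) ≠ 0 := by exact_mod_cast hM0.ne'
  have hdom := Fund_sub C.I hu
  have hui : 0 < (u i).im := hdom.1 i hi
  obtain ⟨z, hz⟩ : ∃ z : ℂ, z = u i / M i := ⟨_, rfl⟩
  have hzim : z.im = (u i).im / M i := by rw [hz, Complex.div_natCast_im]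
  have hMz : (M i : ℂ) * z = u i := by rw [hz]; field_simp
  have hMzim : (u i).im = M i * z.im := by rw [hzim]; field_simp
  have hz0 : 0 < z.im := by rw [hzim]; positivity
  by_cases hYz : Y ≤ z.im
  · obtain ⟨W, c, hwt, hQ, hlo, hhi, hcN, hF⟩ := exists_cusp V C i hi (M i) hM0 N hN he u hdom
    have hF' : (fun p => W.F p z) = fun p => V.F p (C.c u) := by
      funext p
      rw [hF, hMz, Function.update_eq_self]
    obtain ⟨S, d, hS⟩ := exists_adapted (W.phs z hz0)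
    have hent := hexp W c (kc_eq V W hlo hhi) z hYz S d hS 1 (by rw [norm_one]; linarith)
    rw [hF', hwt, hQ] at hS
    have hB : uexp (cm c.N) 1 - 1 = im ((V.rho (C.T i) : Matrix (Fin n) (Fin n) ℤ) ^ M i - 1) := by
      rw [n3_im_sub_one, he, hcN]
    rw [hB] at hent
    simp only [norm_one] at hent
    obtain ⟨A, hsep, hstab, htr⟩ := hCM
    have h1 := hmin V.wt (fun p => V.F p (C.c u)) (V.phs (C.c u)) S d hS A _ h (C₁ * (1 / z.im)) hh
      (by positivity) hsep hstab htr (sub_ne_zero.2 hne) hent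
    have h2 : z.im ^ 2 ≤ C₂ * h ^ (2 * n) * C₁ ^ 2 := by
      have h3 : C₂ * h ^ (2 * n) * (C₁ * (1 / z.im)) ^ 2 =
          C₂ * h ^ (2 * n) * C₁ ^ 2 / z.im ^ 2 := by
        field_simp
      rw [h3, le_div_iff₀ (by positivity), one_mul] at h1
      exact h1
    have h4 : C₂ * h ^ (2 * n) * C₁ ^ 2 ≤ ((C₁ + 1) * (C₂ + 1) * h ^ n) ^ 2 := by
      have h5 : ((C₁ + 1) * (C₂ + 1) * h ^ n) ^ 2 =
          (C₂ + 1) ^ 2 * h ^ (2 * n) * (C₁ + 1) ^ 2 := by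
        rw [pow_mul, ← pow_mul h 2 n, mul_comm 2 n, pow_mul]
        ring
      rw [h5]
      have h6 : C₂ ≤ (C₂ + 1) ^ 2 := by nlinarith
      have h7 : C₁ ^ 2 ≤ (C₁ + 1) ^ 2 := by nlinarith
      have h8 : 0 ≤ h ^ (2 * n) := by positivity
      exact mul_le_mul (mul_le_mul_of_nonneg_right h6 h8) h7 (by positivity) (by positivity)
    have h5 : z.im ≤ (C₁ + 1) * (C₂ + 1) * h ^ n :=
      (pow_le_pow_iff_left₀ hz0.le (by positivity) two_ne_zero).1 (h2.trans h4)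
    rw [hMzim]
    have h6 : z.im ≤ (Y + (C₁ + 1) * (C₂ + 1)) * h ^ n := by
      have h7 : 0 ≤ Y * h ^ n := by positivity
      nlinarith
    calc (M i : ℝ) * z.im ≤ M i * ((Y + (C₁ + 1) * (C₂ + 1)) * h ^ n) :=
          mul_le_mul_of_nonneg_left h6 hMr.le
      _ = (M i : ℝ) * (Y + (C₁ + 1) * (C₂ + 1)) * h ^ n := by ring
  · rw [not_le] at hYz
    rw [hMzim]
    have h6 : z.im ≤ (Y + (C₁ + 1) * (C₂ + 1)) * h ^ n := by
      have h7 : 0 ≤ (C₁ + 1) * (C₂ + 1) := by positivity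
      nlinarith
    calc (M i : ℝ) * z.im ≤ M i * ((Y + (C₁ + 1) * (C₂ + 1)) * h ^ n) :=
          mul_le_mul_of_nonneg_left h6 hMr.le
      _ = (M i : ℝ) * (Y + (C₁ + 1) * (C₂ + 1)) * h ^ n := by ring

end MP2794d1.WV
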