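import Pool.Agent.Lib.MP_2794d1_ag.WV.L4
import Pool.Agent.Lib.MP_2794d1_ag.WV.H1
import Pool.Agent.Lib.MP_2794d1_ag.WV.N3
import Pool.Agent.Lib.MP_2794d1_ag.WV.K2

/-!
M1: the hypotheses of C4 for one chart. `C₂` from `im_bound` (N3): for a CM point `C.c u`, `u ∈ Fund I`, of complexity at most `exp E`: `Im (u i) ≤ C₂ exp (n E) ≤ exp (C₃ E)` with `C₃ = n + log C₂ + 1` (`E ≥ 1`), so `Pr I u ≤ exp (l C₃ E)`. Heights: `heights_W` (H1), `C₀ (P exp E) ^ K ≤ exp ((log C₀ + K (l C₃ + 1)) E)`; `IntRep` is monotone.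
Net: `net_W I (min η (1/2) * ε)` (K2) at `E' = C₃ E ≥ 1`, `ε` from `lift_W` (L4): `T`, `β = {u₀ // u₀ ∈ T}`, `ψ u₀` from `lift_W`, `card ≤ C₄ (C₃ E) ^ card I`. Norms: `Pr I u₀ ≤ exp (l C₃ E)`, `(C₀ Pr ^ K)⁻¹ ≥ exp (-(C E))`. A CM point `C.c u` as above: `u₀ ∈ T` with `‖u i - u₀ i‖ ≤ min η (1/2) ε rr`; `s i = (u i - u₀ i) / (ε rr I u₀ i)`:
`pd I ε u₀ s = u`, `‖s‖ ≤ min η (1/2)`.
-/

namespace MP2794d1.WV

open Matrix Complex Filter Topology MP2794d1 MP2794d1.AH MP2794d1.PC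
open scoped ContDiff Manifold

private theorem M1_pr {l : ℕ} (I : Finset (Fin l)) (u : Fin l → ℂ) (hu : u ∈ Fund I) {B : ℝ}
    (hB : 0 ≤ B) (h : ∀ i ∈ I, (u i).im ≤ Real.exp B) : Pr I u ≤ Real.exp (l * B) := by
  unfold Pr
  have h1 : ∏ i ∈ I, (u i).im ≤ ∏ _i ∈ I, Real.exp B :=
    Finset.prod_le_prod (fun i hi => zero_le_one.trans (hu.1 i hi).2) h
  refine h1.trans ?_
  rw [Finset.prod_const, ← Real.exp_nat_mul]
  apply Real.exp_le_exp.2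
  have h2 : (I.card : ℝ) ≤ l := by
    have h3 := Finset.card_le_univ I
    rw [Fintype.card_fin] at h3
    exact_mod_cast h3
  exact mul_le_mul_of_nonneg_right h2 hB

private theorem M1_exp {C : ℝ} (hC : 1 ≤ C) {K : ℕ} {x B E : ℝ} (hE : 1 ≤ E) (hx : 0 ≤ x)
    (h : x ≤ Real.exp (B * E)) :
    C * x ^ K ≤ Real.exp ((Real.log C + K * B) * E) := by
  have h1 : x ^ K ≤ Real.exp (K * (B * E)) := by
    rw [Real.exp_nat_mul]
    exact pow_le_pow_left₀ hx h K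
  have h2 : C ≤ Real.exp (Real.log C * E) := by
    have h3 : Real.log C ≤ Real.log C * E := le_mul_of_one_le_right (Real.log_nonneg hC) hE
    calc C = Real.exp (Real.log C) := (Real.exp_log (by linarith)).symm
      _ ≤ _ := Real.exp_le_exp.2 h3
  calc C * x ^ K ≤ Real.exp (Real.log C * E) * Real.exp (K * (B * E)) :=
        mul_le_mul h2 h1 (pow_nonneg hx K) (Real.exp_pos _).le
    _ = Real.exp ((Real.log C + K * B) * E) := by
        rw [← Real.exp_add]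
        congr 1
        ring

variable {n m l : ℕ} {X G : Type} [TopologicalSpace X] [ChartedSpace (Fin m → ℂ) X]
  [IsManifold 𝓘(ℂ, Fin m → ℂ) ω X] [ConnectedSpace X] [Group G] [MulAction G X]

theorem chart_data (V : MVHS n m X G) (C : Chart V l) (η : ℝ) (hη : 0 < η) : ∃ C₁ : ℝ, 1 ≤ C₁ ∧
    ∀ E : ℝ, 1 ≤ E →
      (∀ u ∈ Fund C.I, IsCMX V (C.c u) (Real.exp E) →
        ∃ v, PX V (C.c u) v ∧ IntRep (Fin n → Fin n) (Real.exp (C₁ * E)) v) ∧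
      ∃ (β : Type) (_ : Fintype β) (ψ : β → (Fin l → ℂ) → Jx V → ℂ),
        (Fintype.card β : ℝ) ≤ C₁ * E ^ C.I.card ∧ (∀ b, DifferentiableOn ℂ (ψ b) (Metric.ball 0 1)) ∧
        (∀ b, ∀ s ∈ Metric.ball (0 : Fin l → ℂ) 1,
          Real.exp (-(C₁ * E)) ≤ ‖ψ b s‖ ∧ ‖ψ b s‖ ≤ Real.exp (C₁ * E)) ∧
        ∀ u ∈ Fund C.I, IsCMX V (C.c u) (Real.exp E) → ∃ b, ∃ s ∈ Metric.ball (0 : Fin l → ℂ) 1,
          s ∈ Metric.closedBall (0 : Fin l → ℂ) η ∧ PX V (C.c u) (ψ b s) := by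
  obtain ⟨C₂, hC₂, him⟩ := im_bound V C
  obtain ⟨Ch, Kh, hCh, hheight⟩ := heights_W V C
  obtain ⟨ε, Cl, Kl, hε, hε20, hCl, hlift⟩ := lift_W V C
  obtain ⟨κ, hκ⟩ : ∃ κ : ℝ, κ = min η (1 / 2) := ⟨_, rfl⟩
  have hκ0 : 0 < κ := by rw [hκ]; exact lt_min hη (by norm_num)
  have hκη : κ ≤ η := by rw [hκ]; exact min_le_left _ _
  have hκ1 : κ ≤ 1 / 2 := by rw [hκ]; exact min_le_right _ _
  obtain ⟨C₄, hC₄, hnet⟩ := net_W C.I (κ * ε) (mul_pos hκ0 hε)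
  obtain ⟨C₃, hC₃⟩ : ∃ C₃ : ℝ, C₃ = n + Real.log C₂ + 1 := ⟨_, rfl⟩
  have hlog2 : 0 ≤ Real.log C₂ := Real.log_nonneg hC₂
  have hC₃1 : 1 ≤ C₃ := by
    rw [hC₃]
    have : (0 : ℝ) ≤ n := Nat.cast_nonneg n
    linarith
  have hlogh : 0 ≤ Real.log Ch := Real.log_nonneg hCh
  have hlogl : 0 ≤ Real.log Cl := Real.log_nonneg hCl
  have hl0 : (0 : ℝ) ≤ l := Nat.cast_nonneg l
  obtain ⟨D₁, hD₁⟩ : ∃ D₁ : ℝ, D₁ = Real.log Ch + Kh * (l * C₃ + 1) := ⟨_, rfl⟩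
  obtain ⟨D₂, hD₂⟩ : ∃ D₂ : ℝ, D₂ = Real.log Cl + Kl * (l * C₃) := ⟨_, rfl⟩
  obtain ⟨D₃, hD₃⟩ : ∃ D₃ : ℝ, D₃ = C₄ * C₃ ^ C.I.card := ⟨_, rfl⟩
  have hD₁0 : 0 ≤ D₁ := by rw [hD₁]; positivity
  have hD₂0 : 0 ≤ D₂ := by rw [hD₂]; positivity
  have hD₃0 : 0 ≤ D₃ := by rw [hD₃]; positivity
  refine ⟨1 + D₁ + D₂ + D₃, by linarith, ?_⟩
  intro E hE
  have hE0 : 0 ≤ E := by linarith
  have hexpE : 1 ≤ Real.exp E := Real.one_le_exp hE0
  -- imaginary parts of CM points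
  have himE : ∀ u ∈ Fund C.I, IsCMX V (C.c u) (Real.exp E) → ∀ i ∈ C.I,
      (u i).im ≤ Real.exp (C₃ * E) := by
    intro u hu hcm i hi
    have h1 := him u hu _ hexpE hcm i hi
    have h2 := M1_exp (K := n) hC₂ hE (Real.exp_pos E).le (B := 1) (by rw [one_mul])
    refine h1.trans (h2.trans (Real.exp_le_exp.2 ?_))
    rw [hC₃]
    nlinarith
  refine ⟨?_, ?_⟩
  · intro u hu hcm
    obtain ⟨v, hv, hI⟩ := hheight u hu _ hexpE hcm
    refine ⟨v, hv, ?_⟩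
    have hpr := M1_pr C.I u hu (B := C₃ * E) (by positivity) (himE u hu hcm)
    have h1 : Pr C.I u * Real.exp E ≤ Real.exp ((l * C₃ + 1) * E) := by
      calc Pr C.I u * Real.exp E ≤ Real.exp (l * (C₃ * E)) * Real.exp E :=
            mul_le_mul_of_nonneg_right hpr (Real.exp_pos _).le
        _ = _ := by
            rw [← Real.exp_add]
            congr 1
            ring
    have h2 := M1_exp (K := Kh) hCh hE
      (mul_nonneg (zero_le_one.trans (one_le_Pr hu)) (Real.exp_pos E).le) h1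
    have h3 : Ch * (Pr C.I u * Real.exp E) ^ Kh ≤ Real.exp ((1 + D₁ + D₂ + D₃) * E) := by
      refine h2.trans (Real.exp_le_exp.2 ?_)
      rw [← hD₁]
      nlinarith [mul_nonneg hD₂0 hE0, mul_nonneg hD₃0 hE0]
    obtain ⟨Y, w, hw, hY, hb⟩ := hI
    exact ⟨Y, w, hw, hY, fun i a => (hb i a).trans h3⟩
  · have hE' : 1 ≤ C₃ * E := one_le_mul_of_one_le_of_one_le hC₃1 hE
    obtain ⟨T, hTc, hTF, hTn⟩ := hnet (C₃ * E) hE'
    have hψ : ∀ b : {u₀ // u₀ ∈ T}, ∃ ψ : (Fin l → ℂ) → Jx V → ℂ,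
        DifferentiableOn ℂ ψ (Metric.ball 0 1) ∧ ∀ s ∈ Metric.ball (0 : Fin l → ℂ) 1,
        PX V (C.c (pd C.I ε b.1 s)) (ψ s) ∧ (Cl * Pr C.I b.1 ^ Kl)⁻¹ ≤ ‖ψ s‖ ∧
          ‖ψ s‖ ≤ Cl * Pr C.I b.1 ^ Kl := fun b => hlift b.1 (hTF b.1 b.2).1
    choose ψ hψd hψ using hψ
    have hbd : ∀ b : {u₀ // u₀ ∈ T}, Cl * Pr C.I b.1 ^ Kl ≤
        Real.exp ((1 + D₁ + D₂ + D₃) * E) := by
      intro b
      have hpr := M1_pr C.I b.1 (hTF b.1 b.2).1 (B := C₃ * E) (by positivity) (hTF b.1 b.2).2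
      rw [← mul_assoc] at hpr
      have h2 := M1_exp (K := Kl) hCl hE (zero_le_one.trans (one_le_Pr (hTF b.1 b.2).1)) hpr
      refine h2.trans (Real.exp_le_exp.2 ?_)
      rw [← hD₂]
      nlinarith [mul_nonneg hD₁0 hE0, mul_nonneg hD₃0 hE0]
    refine ⟨{u₀ // u₀ ∈ T}, inferInstance, ψ, ?_, hψd, ?_, ?_⟩
    · rw [Fintype.card_coe]
      refine hTc.trans ?_
      rw [mul_pow, ← mul_assoc, ← hD₃]
      exact mul_le_mul_of_nonneg_right (by linarith) (pow_nonneg hE0 _)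
    · intro b s hs
      obtain ⟨-, h1, h2⟩ := hψ b s hs
      have hpos : 0 < Cl * Pr C.I b.1 ^ Kl :=
        mul_pos (by linarith) (pow_pos (zero_lt_one.trans_le (one_le_Pr (hTF b.1 b.2).1)) _)
      refine ⟨?_, h2.trans (hbd b)⟩
      refine le_trans ?_ h1
      rw [Real.exp_neg]
      exact inv_anti₀ hpos (hbd b)
    · intro u hu hcm
      obtain ⟨u₀, hu₀, hclose⟩ := hTn u hu (himE u hu hcm)
      have hF := (hTF u₀ hu₀).1
      have hr : ∀ i, 0 < ε * rr C.I u₀ i := fun i => mul_pos hε (rr_pos (Fund_sub _ hF) i)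
      obtain ⟨s, hs⟩ : ∃ s : Fin l → ℂ, s = fun i => (u i - u₀ i) / ((ε * rr C.I u₀ i : ℝ) : ℂ) :=
        ⟨_, rfl⟩
      have hsn : ∀ i, ‖s i‖ ≤ κ := by
        intro i
        rw [hs]
        change ‖(u i - u₀ i) / ((ε * rr C.I u₀ i : ℝ) : ℂ)‖ ≤ κ
        rw [norm_div, Complex.norm_real, Real.norm_eq_abs, abs_of_pos (hr i), div_le_iff₀ (hr i)]
        have h1 := hclose i
        rw [mul_assoc] at h1
        exact h1
      have hsn' : ‖s‖ ≤ κ := (pi_norm_le_iff_of_nonneg hκ0.le).2 hsn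
      have hpd : pd C.I ε u₀ s = u := by
        funext i
        unfold pd
        rw [hs]
        have h1 : ((ε * rr C.I u₀ i : ℝ) : ℂ) ≠ 0 := by
          exact_mod_cast (hr i).ne'
        change u₀ i + ((ε * rr C.I u₀ i : ℝ) : ℂ) * ((u i - u₀ i) / ((ε * rr C.I u₀ i : ℝ) : ℂ)) = u i
        rw [mul_div_cancel₀ _ h1]
        ring
      have hball : s ∈ Metric.ball (0 : Fin l → ℂ) 1 := by
        rw [mem_ball_zero_iff]
        linarith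
      refine ⟨⟨u₀, hu₀⟩, s, hball, ?_, ?_⟩
      · rw [mem_closedBall_zero_iff]
        linarith
      · have h1 := (hψ ⟨u₀, hu₀⟩ s hball).1
        rw [hpd] at h1
        exact h1

end MP2794d1.WV
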