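import Pool.Agent.Lib.MP_2794d1_ag.BW.A1
import Pool.Agent.Lib.MP_2794d1_ag.U01
import Pool.Agent.Lib.MP_2794d1_ag.U00

/-!
N1: at a CM point some trace `tr (B A^j B' A^k)` is not zero. `S, d` adapted; `M = S⁻¹ (im B) S`, `M' = S⁻¹ (cm B') S` with `B' = radj Q B`; `D = diagonal (I ^ (wt - 2 d a))`: `D * mconj M' = Mᵀ * D` (this is `key` in the proof of `rosati_frob`, U01, which does not use that `B` is an endomorphism).
So `conj (M a b) = (-1) ^ (d a) (-1) ^ (d b) M' b a` (`I ^ (wt - 2 d a) = I ^ wt (-1) ^ (d a)`), and `∑ a, ∑ b, normSq (M a b) = tr (M Δ M' Δ)`, `Δ = diagonal ((-1) ^ (d a))`. `Δ = S⁻¹ Y S` with `Y = S Δ S⁻¹`, and `Y` commutes with `im A`: `S⁻¹ (im A) S` is block diagonal (`M a b ≠ 0 → d a = d b`: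
`hdeg` in the proof of `rosati_frob`). `im A` is diagonalisable with distinct eigenvalues: `im A * P = P * diagonal e`, `e` injective (`exists_cmbasis`, BW/A1, see the theorem which gives `CMBasis` from the hypotheses). `P⁻¹ Y P` commutes with `diagonal e`, so it is diagonal, `= diagonal γ`; with the polynomial `g` of degree `< n`,
`g (e j) = γ j` (`Lagrange.interpolate`): `Y = ∑ j < n, g_j (im A) ^ j`. If all the traces are `0` then `∑ a, ∑ b, normSq (M a b) = tr (B Y B' Y) = 0`, so `M = 0` and `B = 0`.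
-/

namespace MP2794d1.WV

open Matrix Complex MP2794d1 MP2794d1.BW

private theorem N1_cm_qm_pow {n : ℕ} (X : Matrix (Fin n) (Fin n) ℤ) (k : ℕ) : cm (qm X ^ k) = im X ^ k := by
  induction k with
  | zero =>
    ext i j
    by_cases h : i = j
    · subst h; simp [cm]
    · simp [cm, Matrix.one_apply_ne h]
  | succ k ih => rw [pow_succ, pow_succ, S01_cm_mul, ih, U01_cm_qm]

private theorem N1_aeval {n : ℕ} (A P : Matrix (Fin n) (Fin n) ℂ) (e : Fin n → ℂ)
    (h : A * P = P * Matrix.diagonal e) (g : Polynomial ℂ) :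
    Polynomial.aeval A g * P = P * Matrix.diagonal (fun j => g.eval (e j)) := by
  have hp : ∀ k : ℕ, A ^ k * P = P * Matrix.diagonal (fun j => e j ^ k) := by
    intro k
    induction k with
    | zero => simp
    | succ k ih =>
      rw [pow_succ, Matrix.mul_assoc, h, ← Matrix.mul_assoc, ih, Matrix.mul_assoc, Matrix.diagonal_mul_diagonal]
      simp only [pow_succ]
  induction g using Polynomial.induction_on' with
  | add p q hp' hq' =>
    rw [map_add, Matrix.add_mul, hp', hq', ← Matrix.mul_add, Matrix.diagonal_add]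
    simp only [Polynomial.eval_add]
  | monomial k a =>
    rw [Polynomial.aeval_monomial, Matrix.mul_assoc, hp, Algebra.algebraMap_eq_smul_one, Matrix.smul_mul,
      Matrix.one_mul, ← Matrix.mul_smul]
    refine congrArg (fun Z => P * Z) ?_
    ext i j
    by_cases hij : i = j
    · subst hij; simp [Polynomial.eval_monomial]
    · simp [hij]

theorem trace_ne {n : ℕ} {wt : ℤ} {Q : Matrix (Fin n) (Fin n) ℤ} {Fl : ℤ → Submodule ℂ (Fin n → ℂ)}
    (h : IsPHS wt Q Fl) (A B : Matrix (Fin n) (Fin n) ℤ) (hs : (im A).charpoly.Separable)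
    (hA : ∀ p, ∀ y ∈ Fl p, im A *ᵥ y ∈ Fl p) (hB : B ≠ 0) :
    ∃ j k : ℕ, j ≤ n ∧ k ≤ n ∧ (qm B * qm A ^ j * radj Q B * qm A ^ k).trace ≠ 0 := by
  classical
  obtain ⟨S, d, hS⟩ := exists_adapted h
  obtain ⟨e, P, q, hP⟩ := exists_cmbasis h A hs hA
  by_contra hcon
  push Not at hcon
  have hSu : IsUnit S.det := hS.inv
  have hSS : S * S⁻¹ = 1 := Matrix.mul_nonsing_inv S hSu
  have hSS' : S⁻¹ * S = 1 := Matrix.nonsing_inv_mul S hSu
  have hT : mconj S * mconj S⁻¹ = 1 := by rw [← e06_mul, hSS, e06_one]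
  have hSt : S⁻¹ᵀ * Sᵀ = 1 := by rw [← Matrix.transpose_mul, hSS, Matrix.transpose_one]
  have hrel := U01_radj Q B (im_Q_unit h)
  set B' := cm (radj Q B) with hB'
  have hreal : mconj B' = B' := mconj_cm _
  set D : Matrix (Fin n) (Fin n) ℂ := Matrix.diagonal (fun a => Complex.I ^ (wt - 2 * d a)) with hD
  have hon : Sᵀ * im Q * mconj S = D := hS.on
  set M := S⁻¹ * im B * S with hM
  set M' := S⁻¹ * B' * S with hM'
  have hMc : mconj M' = mconj S⁻¹ * B' * mconj S := by
    rw [hM', e06_mul, e06_mul, hreal]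
  have key : D * mconj M' = Mᵀ * D := by
    calc D * mconj M' = Sᵀ * im Q * (mconj S * mconj S⁻¹) * B' * mconj S := by
          rw [hMc, ← hon]; simp only [Matrix.mul_assoc]
      _ = Sᵀ * (im Q * B') * mconj S := by
          rw [hT]; simp only [Matrix.mul_assoc, Matrix.mul_one]
      _ = Sᵀ * ((im B)ᵀ * im Q) * mconj S := by rw [hrel]
      _ = Sᵀ * (im B)ᵀ * (S⁻¹ᵀ * Sᵀ) * im Q * mconj S := by
          rw [hSt]; simp only [Matrix.mul_assoc, Matrix.mul_one]
      _ = Mᵀ * D := by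
          rw [← hon, hM, Matrix.transpose_mul, Matrix.transpose_mul]
          simp only [Matrix.mul_assoc]
  let δ : Fin n → ℂ := fun a => (-1 : ℂ) ^ (d a)
  have hδ : ∀ a, δ a * δ a = 1 := by
    intro a
    show (-1 : ℂ) ^ (d a) * (-1 : ℂ) ^ (d a) = 1
    rw [← mul_zpow]
    simp
  have hδc : ∀ a, (starRingEnd ℂ) (δ a) = δ a := by
    intro a
    show (starRingEnd ℂ) ((-1 : ℂ) ^ (d a)) = (-1 : ℂ) ^ (d a)
    rw [map_zpow₀]
    simp
  have hI : ∀ a, Complex.I ^ (wt - 2 * d a) = Complex.I ^ wt * δ a := by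
    intro a
    show Complex.I ^ (wt - 2 * d a) = Complex.I ^ wt * (-1 : ℂ) ^ (d a)
    rw [sub_eq_add_neg, zpow_add₀ Complex.I_ne_zero, ← mul_neg, _root_.zpow_mul]
    congr 1
    have h1 : (Complex.I ^ (2 : ℤ)) = -1 := by
      rw [zpow_ofNat, Complex.I_sq]
    rw [h1, _root_.zpow_neg, ← _root_.inv_zpow]
    norm_num
  have hent : ∀ a b, M' b a = (starRingEnd ℂ) (M a b) * (δ a * δ b) := by
    intro a b
    have hk := congrFun (congrFun key b) a
    rw [hD, Matrix.mul_diagonal, Matrix.diagonal_mul, Matrix.transpose_apply] at hk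
    have h4 : mconj M' b a = (starRingEnd ℂ) (M' b a) := rfl
    rw [h4, hI, hI] at hk
    have hI0 : Complex.I ^ wt ≠ 0 := zpow_ne_zero _ Complex.I_ne_zero
    have h5 : (starRingEnd ℂ) (M' b a) = M a b * (δ a * δ b) := by
      apply mul_left_cancel₀ hI0
      calc Complex.I ^ wt * (starRingEnd ℂ) (M' b a)
          = (Complex.I ^ wt * δ b * (starRingEnd ℂ) (M' b a)) * δ b := by
            linear_combination (-(Complex.I ^ wt * (starRingEnd ℂ) (M' b a))) * hδ b
        _ = (M a b * (Complex.I ^ wt * δ a)) * δ b := by rw [hk]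
        _ = _ := by ring
    have h6 := congrArg (starRingEnd ℂ) h5
    rw [Complex.conj_conj, map_mul, map_mul, hδc, hδc] at h6
    exact h6
  have hQd : Matrix.diagonal δ * (S⁻¹ * P) = (S⁻¹ * P) * Matrix.diagonal (fun j => (-1 : ℂ) ^ (q j)) := by
    ext a j
    rw [Matrix.diagonal_mul, Matrix.mul_diagonal]
    by_cases h0 : (S⁻¹ * P) a j = 0
    · rw [h0]; simp
    · have h1 := hP.deg hS a j h0
      show (-1 : ℂ) ^ (d a) * _ = _
      rw [h1, mul_comm]
  set Y : Matrix (Fin n) (Fin n) ℂ := S * Matrix.diagonal δ * S⁻¹ with hY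
  have hYP : Y * P = P * Matrix.diagonal (fun j => (-1 : ℂ) ^ (q j)) := by
    calc Y * P = S * (Matrix.diagonal δ * (S⁻¹ * P)) := by rw [hY]; simp only [Matrix.mul_assoc]
      _ = (S * S⁻¹) * P * Matrix.diagonal (fun j => (-1 : ℂ) ^ (q j)) := by
          rw [hQd]; simp only [Matrix.mul_assoc]
      _ = _ := by rw [hSS, Matrix.one_mul]
  let g : Polynomial ℂ := Lagrange.interpolate Finset.univ e (fun j => (-1 : ℂ) ^ (q j))
  have hge : ∀ j, g.eval (e j) = (-1 : ℂ) ^ (q j) := fun j =>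
    Lagrange.eval_interpolate_at_node _ (fun a _ b _ hab => hP.inj hab) (Finset.mem_univ j)
  have hgd : g.natDegree < n + 1 := by
    have h1 : g.degree < (Finset.univ : Finset (Fin n)).card :=
      Lagrange.degree_interpolate_lt _ (fun a _ b _ hab => hP.inj hab)
    rw [Finset.card_univ, Fintype.card_fin] at h1
    exact Nat.lt_succ_of_le (Polynomial.natDegree_le_of_degree_le h1.le)
  have hYg : Y = Polynomial.aeval (im A) g := by
    have h1 := N1_aeval (im A) P e hP.eig g
    have h2 : (fun j => g.eval (e j)) = fun j => (-1 : ℂ) ^ (q j) := funext hge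
    rw [h2, ← hYP] at h1
    have h3 : P * P⁻¹ = 1 := Matrix.mul_nonsing_inv P hP.inv
    calc Y = Y * P * P⁻¹ := by rw [Matrix.mul_assoc, h3, Matrix.mul_one]
      _ = Polynomial.aeval (im A) g * P * P⁻¹ := by rw [h1]
      _ = _ := by rw [Matrix.mul_assoc, h3, Matrix.mul_one]
  have hYs : Y = ∑ i ∈ Finset.range (n + 1), g.coeff i • im A ^ i := by
    rw [hYg, Polynomial.aeval_eq_sum_range' hgd]
  have hzero : ∀ j ∈ Finset.range (n + 1), ∀ k ∈ Finset.range (n + 1),
      (im B * im A ^ j * B' * im A ^ k).trace = 0 := by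
    intro j hj k hk
    have h1 := hcon j k (Nat.lt_succ_iff.mp (Finset.mem_range.mp hj)) (Nat.lt_succ_iff.mp (Finset.mem_range.mp hk))
    have h2 : cm (qm B * qm A ^ j * radj Q B * qm A ^ k) = im B * im A ^ j * B' * im A ^ k := by
      rw [S01_cm_mul, S01_cm_mul, S01_cm_mul, N1_cm_qm_pow, N1_cm_qm_pow, U01_cm_qm, ← hB']
    rw [← h2, U01_cm_trace, h1]
    simp
  have htr0 : (im B * Y * B' * Y).trace = 0 := by
    rw [hYs]
    simp only [Finset.mul_sum, Finset.sum_mul, Matrix.trace_sum, Matrix.mul_smul, Matrix.smul_mul,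
      Matrix.trace_smul]
    refine Finset.sum_eq_zero fun k hk => Finset.sum_eq_zero fun j hj => ?_
    rw [hzero j hj k hk, smul_zero, smul_zero]
  have htr1 : (im B * Y * B' * Y).trace = (M * Matrix.diagonal δ * M' * Matrix.diagonal δ).trace := by
    have e1 : im B * Y * B' * Y = S * (M * Matrix.diagonal δ * M' * Matrix.diagonal δ * S⁻¹) := by
      calc im B * Y * B' * Y = (S * S⁻¹) * im B * Y * B' * Y := by rw [hSS, Matrix.one_mul]
        _ = _ := by rw [hM, hM', hY]; simp only [Matrix.mul_assoc]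
    rw [e1, Matrix.trace_mul_comm S, Matrix.mul_assoc, hSS', Matrix.mul_one]
  have htr2 : (M * Matrix.diagonal δ * M' * Matrix.diagonal δ).trace =
      ((∑ a, ∑ b, Complex.normSq (M a b) : ℝ) : ℂ) := by
    rw [Matrix.trace, Complex.ofReal_sum]
    refine Finset.sum_congr rfl fun a _ => ?_
    rw [Matrix.diag_apply, Matrix.mul_diagonal, Matrix.mul_apply, Finset.sum_mul, Complex.ofReal_sum]
    refine Finset.sum_congr rfl fun b _ => ?_
    rw [Matrix.mul_diagonal, hent a b, ← Complex.mul_conj]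
    linear_combination (M a b * (starRingEnd ℂ) (M a b) * (δ b * δ b)) * hδ a +
      (M a b * (starRingEnd ℂ) (M a b)) * hδ b
  have hsum : (∑ a, ∑ b, Complex.normSq (M a b) : ℝ) = 0 := by
    rw [htr0, htr2] at htr1
    exact_mod_cast htr1.symm
  have hM0 : M = 0 := by
    ext a b
    have h1 := (Finset.sum_eq_zero_iff_of_nonneg (fun a _ =>
      Finset.sum_nonneg (fun b _ => Complex.normSq_nonneg (M a b)))).mp hsum a (Finset.mem_univ a)
    have h2 := (Finset.sum_eq_zero_iff_of_nonneg (fun b _ => Complex.normSq_nonneg (M a b))).mp h1 b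
      (Finset.mem_univ b)
    exact Complex.normSq_eq_zero.mp h2
  have hB0 : im B = 0 := by
    calc im B = S * (S⁻¹ * im B * S) * S⁻¹ := by
          rw [Matrix.mul_assoc, Matrix.mul_assoc, Matrix.mul_assoc, hSS, Matrix.mul_one, ← Matrix.mul_assoc, hSS,
            Matrix.one_mul]
      _ = 0 := by rw [← hM, hM0, Matrix.mul_zero, Matrix.zero_mul]
  apply hB
  ext i j
  have h1 := congrFun (congrFun hB0 i) j
  simp only [im, Matrix.map_apply, Matrix.zero_apply] at h1
  exact_mod_cast h1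

end MP2794d1.WV
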