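import Pool.Agent.Lib.MP_2794d1_ag.WV.Defs
import Pool.Agent.Lib.MP_2794d1_ag.AC.Defs

/-!
# Hilbert functions of sets of CM points
-/

namespace MP2794d1.WV

open Matrix Complex Filter Topology MP2794d1.AH
open scoped ContDiff Manifold

/-- Bound `C d ^ a (log h) ^ b` for the Hilbert functions of the sets `Z h` (the number of independent monomials of
degree `d` in the Pluecker coordinates on `Z h`), over the integers: any family of more than `C d ^ a (log h) ^ b`
monomials of degree `d` satisfies on `Z h` a non-trivial linear relation with integral coefficients at most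
`exp (C d log h)`. -/
def HilbertBd {n m : ℕ} {X G : Type} [TopologicalSpace X] [ChartedSpace (Fin m → ℂ) X] [Group G]
    [MulAction G X] [Nonempty X] (V : MVHS n m X G) (Z : ℝ → Set X) (a b : ℕ) : Prop :=
  ∃ C : ℝ, ∀ h : ℝ, 2 ≤ h → ∀ d : ℕ, 1 ≤ d → ∀ (τ : Type) [Fintype τ] (I : τ → Fin d → Jx V),
    C * (d : ℝ) ^ a * Real.log h ^ b < Fintype.card τ →
    ∃ c : τ → ℤ, c ≠ 0 ∧ (∀ t, |(c t : ℝ)| ≤ Real.exp (C * d * Real.log h)) ∧
      ∀ x ∈ Z h, ∀ v, PX V x v → ∑ t, (c t : ℂ) * ∏ i, v (I t i) = 0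

/-- The sets `Z h` lie on hypersurfaces (in Pluecker coordinates) which do not contain the period image, of degree at
most `C (log h) ^ a`, with integral coefficients the sum of whose absolute values is at most `exp (C (log h) ^ b)`. -/
def HypersurfaceBd {n m : ℕ} {X G : Type} [TopologicalSpace X] [ChartedSpace (Fin m → ℂ) X] [Group G]
    [MulAction G X] [Nonempty X] (V : MVHS n m X G) (Z : ℝ → Set X) (a b : ℝ) : Prop :=
  ∃ C : ℝ, ∀ h : ℝ, 2 ≤ h → ∃ (d : ℕ) (F : (Jx V → ℂ) → ℂ), (d : ℝ) ≤ C * Real.log h ^ a ∧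
    AC.IF d (Real.exp (C * Real.log h ^ b)) F ∧ (∃ x v, PX V x v ∧ F v ≠ 0) ∧
    ∀ x ∈ Z h, ∀ v, PX V x v → F v = 0

/-- the CM points of complexity at most `h` in `K` -/
def CMin {n m : ℕ} {X G : Type} [TopologicalSpace X] [ChartedSpace (Fin m → ℂ) X] [Group G]
    [MulAction G X] (V : MVHS n m X G) (K : Set X) (h : ℝ) : Set X := {x ∈ K | IsCMX V x h}

/-- the part of `X` (or of `S = G \ X`) covered by the sets `Fund` of finitely many charts -/
def Cov {n m : ℕ} {X G : Type} [TopologicalSpace X] [ChartedSpace (Fin m → ℂ) X] [Group G]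
    [MulAction G X] {V : MVHS n m X G} {l J : ℕ} (ch : Fin J → Chart V l) : Set X :=
  {x | ∃ j, ∃ u ∈ Fund (ch j).I, x = (ch j).c u}

end MP2794d1.WV
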