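import Pool.Agent.Lib.MP_2794d1_ag.WV.C1

/-!
R1: as C1 (`small_fam`), for an arbitrary family of monomials. Copy the proof of C1 with `pigeon` (AH/A02) for `E = τ`, `G = β × (Fin ρ → Fin N)`, `a (b, g) t = ∏ i, ψ b (ζ ∘ g) (I t i)`, `‖a g t‖ ≤ m ^ d`, `A = card τ * m ^ d`, `N' = ⌈4 A H (2 C₀) ^ N⌉₊ + 1`.
`log N' ≤ log 6 + log card τ + d log m + log H + N log (2 C₀) ≤ 2 + N + N log (2 C₀) ≤ C N` for `C = 4 + log (2 C₀)`. (`card τ ≥ 1` by the strict inequality.) The function `s ↦ ∑ t, c t * ∏ i, ψ b s (I t i)` is differentiable on the ball, bounded by `card τ * H * m ^ d`.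
-/

namespace MP2794d1.WV

open Matrix Complex Filter Topology MP2794d1.PC MP2794d1.AC MP2794d1.AH

private theorem R1_count {b ρ T d N H : ℕ} {m C₀ : ℝ} (hm : 1 ≤ m) (hC₀ : 1 ≤ C₀) (hH : 1 ≤ H)
    (hT : 1 ≤ T)
    (h1 : (4 + Real.log (2 * C₀)) * (Real.log T + Real.log H + d * Real.log m + 1) ≤ N)
    (h2 : 2 * ((b : ℝ) * (N : ℝ) ^ ρ) * ((4 + Real.log (2 * C₀)) * N) <
      T * Real.log (H + 1)) :
    (⌈4 * ((T : ℝ) * m ^ d) * H * (2 * C₀) ^ N⌉₊ + 1) ^ (2 * (b * N ^ ρ)) < (H + 1) ^ T := by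
  have hlm : 0 ≤ Real.log m := Real.log_nonneg hm
  have hlC : 0 ≤ Real.log (2 * C₀) := Real.log_nonneg (by linarith)
  have hHR : (1 : ℝ) ≤ H := by exact_mod_cast hH
  have hTR : (1 : ℝ) ≤ T := by exact_mod_cast hT
  have hlH : 0 ≤ Real.log H := Real.log_nonneg hHR
  have hlT : 0 ≤ Real.log T := Real.log_nonneg hTR
  set C : ℝ := 4 + Real.log (2 * C₀) with hC
  have hC1 : 1 ≤ C := by rw [hC]; linarith
  have hdm : 0 ≤ (d : ℝ) * Real.log m := by positivity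
  have h3 : Real.log T + Real.log H + (d : ℝ) * Real.log m + 1 ≤ N := by
    have : 1 * (Real.log T + Real.log H + (d : ℝ) * Real.log m + 1) ≤
        C * (Real.log T + Real.log H + (d : ℝ) * Real.log m + 1) :=
      mul_le_mul_of_nonneg_right hC1 (by positivity)
    linarith
  have hN1 : (1 : ℝ) ≤ N := by linarith
  have hmd : 1 ≤ m ^ d := one_le_pow₀ hm
  have hCN : 1 ≤ (2 * C₀) ^ N := one_le_pow₀ (by linarith)
  set X : ℝ := (T : ℝ) * m ^ d * H * (2 * C₀) ^ N with hX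
  have hX1 : 1 ≤ X := by
    rw [hX]
    have e1 : 1 ≤ (T : ℝ) * m ^ d := one_le_mul_of_one_le_of_one_le hTR hmd
    have e2 : 1 ≤ (T : ℝ) * m ^ d * H := one_le_mul_of_one_le_of_one_le e1 hHR
    exact one_le_mul_of_one_le_of_one_le e2 hCN
  have hXX : 4 * ((T : ℝ) * m ^ d) * H * (2 * C₀) ^ N = 4 * X := by rw [hX]; ring
  rw [hXX]
  have hN' : ((⌈4 * X⌉₊ + 1 : ℕ) : ℝ) ≤ 6 * X := by
    have := Nat.ceil_lt_add_one (show (0 : ℝ) ≤ 4 * X by linarith)
    push_cast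
    linarith
  have hlogX : Real.log X = Real.log T + d * Real.log m + Real.log H + N * Real.log (2 * C₀) := by
    have e0 : (0 : ℝ) < T := by linarith
    have e1 : (0 : ℝ) < m ^ d := by linarith
    have e2 : (0 : ℝ) < H := by linarith
    have e3 : (0 : ℝ) < (2 * C₀) ^ N := by linarith
    rw [hX, Real.log_mul (by positivity) e3.ne', Real.log_mul (by positivity) e2.ne',
      Real.log_mul e0.ne' e1.ne', Real.log_pow m d, Real.log_pow (2 * C₀) N]
  have hlogN : Real.log ((⌈4 * X⌉₊ + 1 : ℕ) : ℝ) ≤ C * N := by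
    have e1 : Real.log ((⌈4 * X⌉₊ + 1 : ℕ) : ℝ) ≤ Real.log (6 * X) :=
      Real.log_le_log (by positivity) hN'
    have e2 : Real.log (6 * X) = Real.log 6 + Real.log X :=
      Real.log_mul (by norm_num) (by linarith)
    have e3 : Real.log 6 ≤ 2 := by
      have h6 : (6 : ℝ) ≤ Real.exp 2 := by
        have h7 : Real.exp 2 = Real.exp 1 * Real.exp 1 := by
          rw [← Real.exp_add]; norm_num
        have h8 := Real.exp_one_gt_d9
        rw [h7]
        nlinarith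
      calc Real.log 6 ≤ Real.log (Real.exp 2) := Real.log_le_log (by norm_num) h6
        _ = 2 := Real.log_exp 2
    rw [e2] at e1
    have e5 : C * N = 4 * N + N * Real.log (2 * C₀) := by rw [hC]; ring
    rw [e5]
    linarith
  have hfin : (((⌈4 * X⌉₊ + 1) ^ (2 * (b * N ^ ρ)) : ℕ) : ℝ) < (((H + 1) ^ T : ℕ) : ℝ) := by
    rw [← Real.log_lt_log_iff (by positivity) (by positivity)]
    rw [Nat.cast_pow, Nat.cast_pow (H + 1), Real.log_pow, Real.log_pow]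
    push_cast at hlogN ⊢
    have e1 : 2 * ((b : ℝ) * (N : ℝ) ^ ρ) * Real.log ((⌈4 * X⌉₊ : ℝ) + 1) ≤
        2 * ((b : ℝ) * (N : ℝ) ^ ρ) * (C * N) :=
      mul_le_mul_of_nonneg_left hlogN (by positivity)
    linarith
  exact_mod_cast hfin

theorem small_famT (ρ : ℕ) : ∃ η : ℝ, 0 < η ∧ η < 1 ∧ ∃ C : ℝ, 1 ≤ C ∧
    ∀ (β τ : Type) [Fintype β] [Fintype τ] (m : ℝ), 1 ≤ m → ∀ d N H : ℕ, 1 ≤ N → 1 ≤ H →
      C * (Real.log (Fintype.card τ) + Real.log H + d * Real.log m + 1) ≤ N →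
      2 * ((Fintype.card β : ℝ) * (N : ℝ) ^ ρ) * (C * N) < Fintype.card τ * Real.log (H + 1) →
      ∀ (ι : Type) [Fintype ι] (ψ : β → (Fin ρ → ℂ) → ι → ℂ) (I : τ → Fin d → ι),
        (∀ b, DifferentiableOn ℂ (ψ b) (Metric.ball 0 1)) →
        (∀ b, ∀ s ∈ Metric.ball (0 : Fin ρ → ℂ) 1, ‖ψ b s‖ ≤ m) →
        ∃ c : τ → ℤ, c ≠ 0 ∧ (∀ t, |(c t : ℝ)| ≤ H) ∧
          ∀ b, ∀ s ∈ Metric.closedBall (0 : Fin ρ → ℂ) η, ‖∑ t, (c t : ℂ) * ∏ i, ψ b s (I t i)‖ ≤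
            2 * (Fintype.card τ * H * m ^ d) * (1 / 2) ^ N := by
  obtain ⟨η, C₀, hη0, hη1, hC₀, hint⟩ := interp ρ
  have hlC : 0 ≤ Real.log (2 * C₀) := Real.log_nonneg (by linarith)
  refine ⟨η, hη0, hη1, 4 + Real.log (2 * C₀), by linarith, ?_⟩
  intro β τ _ _ m hm d N H hN hH h1 h2 ι _ ψ I hψ hψm
  obtain ⟨ζ, hζ, hf⟩ := hint N hN
  have hHR : (1 : ℝ) ≤ H := by exact_mod_cast hH
  have hT : 1 ≤ Fintype.card τ := by
    by_contra h0
    have h0' : Fintype.card τ = 0 := by omega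
    rw [h0', Nat.cast_zero, zero_mul] at h2
    have : 0 ≤ 2 * ((Fintype.card β : ℝ) * (N : ℝ) ^ ρ) * ((4 + Real.log (2 * C₀)) * N) := by
      positivity
    linarith
  have hTR : (1 : ℝ) ≤ (Fintype.card τ : ℝ) := by exact_mod_cast hT
  have hmd : 1 ≤ m ^ d := one_le_pow₀ hm
  -- coordinates
  have hx : ∀ b, ∀ s ∈ Metric.ball (0 : Fin ρ → ℂ) 1, ∀ i, ‖ψ b s i‖ ≤ m := fun b s hs i =>
    (norm_le_pi_norm (ψ b s) i).trans (hψm b s hs)
  have hmono : ∀ b, ∀ s ∈ Metric.ball (0 : Fin ρ → ℂ) 1, ∀ t, ‖∏ i, ψ b s (I t i)‖ ≤ m ^ d := by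
    intro b s hs t
    rw [norm_prod]
    refine (Finset.prod_le_prod (fun _ _ => norm_nonneg _) fun i _ => hx b s hs (I t i)).trans ?_
    rw [Finset.prod_const, Finset.card_univ, Fintype.card_fin]
  have hnode : ∀ g : Fin ρ → Fin N, (fun i => ζ (g i)) ∈ Metric.ball (0 : Fin ρ → ℂ) 1 := by
    intro g
    rw [mem_ball_zero_iff]
    refine lt_of_le_of_lt ((pi_norm_le_iff_of_nonneg hη0.le).2 fun i => ?_) hη1
    exact hζ (g i)
  set A : ℝ := (Fintype.card τ : ℝ) * m ^ d with hA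
  have hA1 : 1 ≤ A := one_le_mul_of_one_le_of_one_le hTR hmd
  set N' : ℕ := ⌈4 * A * H * (2 * C₀) ^ N⌉₊ + 1 with hN'
  have hcnt := R1_count (b := Fintype.card β) (ρ := ρ) (T := Fintype.card τ) (d := d) (N := N)
    (H := H) hm hC₀ hH hT h1 h2
  obtain ⟨c, hc0, hcH, hcn⟩ := pigeon (E := τ) (G := β × (Fin ρ → Fin N))
    (fun g t => ∏ i, ψ g.1 (fun j => ζ (g.2 j)) (I t i))
    (A := A) (by
      intro g
      refine (Finset.sum_le_sum fun t _ => hmono g.1 _ (hnode g.2) t).trans ?_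
      rw [Finset.sum_const, nsmul_eq_mul, Finset.card_univ])
    (by linarith) H N' (by rw [hN']; omega)
    (by
      rw [Fintype.card_prod, Fintype.card_fun, Fintype.card_fin, Fintype.card_fin]
      exact hcnt)
  refine ⟨c, hc0, hcH, ?_⟩
  have hCN : 0 < (2 * C₀) ^ N := by
    have : 0 < 2 * C₀ := by linarith
    positivity
  have heps : ∀ (b : β) (g : Fin ρ → Fin N),
      ‖(fun s => ∑ t, (c t : ℂ) * ∏ i, ψ b s (I t i)) (fun i => ζ (g i))‖ ≤ ((2 * C₀) ^ N)⁻¹ := by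
    intro b g
    refine (hcn (b, g)).trans ?_
    have hN'pos : (0 : ℝ) < (N' : ℝ) := by
      rw [hN']
      positivity
    rw [div_le_iff₀ hN'pos, inv_mul_eq_div, le_div_iff₀ hCN]
    have := Nat.le_ceil (4 * A * H * (2 * C₀) ^ N)
    rw [hN']
    push_cast
    linarith
  intro b s hs
  have hdiff : DifferentiableOn ℂ (fun s => ∑ t, (c t : ℂ) * ∏ i, ψ b s (I t i))
      (Metric.ball 0 1) := by
    have hco : ∀ j, DifferentiableOn ℂ (fun s => ψ b s j) (Metric.ball 0 1) := fun j =>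
      differentiableOn_pi.1 (hψ b) j
    refine DifferentiableOn.fun_sum fun t _ => ?_
    refine DifferentiableOn.const_mul ?_ _
    have h : ∀ i ∈ (Finset.univ : Finset (Fin d)),
        DifferentiableOn ℂ (fun s => ψ b s (I t i)) (Metric.ball 0 1) := fun i _ => hco (I t i)
    intro x hx
    classical
    exact (HasFDerivWithinAt.finsetProd
      (fun i hi => (h i hi x hx).hasFDerivWithinAt)).differentiableWithinAt
  have hbound : ∀ s ∈ Metric.ball (0 : Fin ρ → ℂ) 1,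
      ‖∑ t, (c t : ℂ) * ∏ i, ψ b s (I t i)‖ ≤ (Fintype.card τ : ℝ) * H * m ^ d := by
    intro s hs
    refine (norm_sum_le _ _).trans ?_
    have h3 : ∀ t ∈ (Finset.univ : Finset τ), ‖(c t : ℂ) * ∏ i, ψ b s (I t i)‖ ≤
        (H : ℝ) * m ^ d := by
      intro t _
      rw [norm_mul]
      have h2 : ‖(c t : ℂ)‖ ≤ H := by
        rw [Complex.norm_intCast]
        exact hcH t
      exact mul_le_mul h2 (hmono b s hs t) (norm_nonneg _) (Nat.cast_nonneg _)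
    refine (Finset.sum_le_sum h3).trans ?_
    rw [Finset.sum_const, nsmul_eq_mul, Finset.card_univ, mul_assoc]
  have hB := hf (fun s => ∑ t, (c t : ℂ) * ∏ i, ψ b s (I t i)) hdiff
    ((Fintype.card τ : ℝ) * H * m ^ d) (((2 * C₀) ^ N)⁻¹) (by positivity)
    (by positivity) hbound (heps b) s hs
  refine hB.trans ?_
  have e1 : C₀ ^ N * ((2 * C₀) ^ N)⁻¹ = (1 / 2) ^ N := by
    have hC0 : C₀ ≠ 0 := by linarith
    rw [mul_pow]
    field_simp
    rw [← mul_pow]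
    norm_num
  rw [e1]
  have e2 : 1 ≤ (Fintype.card τ : ℝ) * H * m ^ d :=
    one_le_mul_of_one_le_of_one_le (one_le_mul_of_one_le_of_one_le hTR hHR) hmd
  have e3 : (0 : ℝ) ≤ (1 / 2) ^ N := by positivity
  nlinarith [mul_le_mul_of_nonneg_right e2 e3]

end MP2794d1.WV
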