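import Pool.Agent.Lib.MP_2794d1_ag.WV.R0
import Pool.Agent.Lib.MP_2794d1_ag.WV.R2
import Pool.Agent.Lib.MP_2794d1_ag.AH.CA

/-!
R3: Hilbert functions of the CM points in a compact set. `rel_abs` (R2) with `k = 0`, `Z E = {x ∈ K | IsCMX V x (Real.exp E)}`, `L = PX V` (`LFX`: see AH/CA), for the following data (compare `caseA_abs`, AH/A15). Given `η`: `η' = min η (1/2)`; `slice hL x₁ (locX V ρ hle x₁) η'` (AH/A10, A20) gives `U₀, ψ₀, m₀, m₁`;
`β = Unit`, `ψ = fun _ => ψ₀`, `m = m₁`; `global_pgX (local_pgX hL hloc) U₀ ..` (AH/A12, A13) gives `A, θ, Y`; `T = 2 m₁ / m₀ ≥ 1`, `cm_vanish` (AH/A14) with this `T` and `hP` from `heightsX` (AH/A19) gives `C₂`; `C₁ = 2 C₂ + log m₁ + 1`. For `E ≥ 1` put `h = exp E ≥ 2` (`log h = E`). If `‖F (ψ₀ s)‖ ≤ 2 (S m₁ ^ d) (1/2) ^ N`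
for `s ∈ closedBall 0 η'` and `x ∈ U₀`, `PX V x v`: `v = c • ψ₀ s`, `‖F v‖ = ‖c‖ ^ d ‖F (ψ₀ s)‖`, `‖c‖ m₀ ≤ ‖v‖`, so `‖F v‖ ≤ T ^ d S (1/2) ^ N ‖v‖ ^ d` if `1 ≤ d` (`2 ≤ 2 ^ d`); for `d = 0` use `S = 2 S` in `cm_vanish` (or treat `d = 0` by `IF 0 (2 S) F`: in general apply `cm_vanish` with `2 S` instead of `S`,
`log (2 S) ≤ log S + 1`). Then: for `h ≥ 2`, `E = max 1 (log h)`: `IsCMX V x h → IsCMX V x (exp E)` (monotone), `1 ≤ E ≤ log h / log 2`, so the constant `C (1 / log 2) ^ (ρ + 1)` works in `HilbertBd`.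
-/

namespace MP2794d1.WV

open Matrix Complex Filter Topology MP2794d1 MP2794d1.AH MP2794d1.PC
open scoped ContDiff Manifold

private theorem R3_log2 : 0 < Real.log 2 := Real.log_pos (by norm_num)

/-- from `E` to `h` -/
private theorem R3_pass {n m : ℕ} {X G : Type} [TopologicalSpace X] [ChartedSpace (Fin m → ℂ) X]
    [Group G] [MulAction G X] [Nonempty X] (V : MVHS n m X G) (Z Z' : ℝ → Set X) (a b : ℕ)
    (hZ : ∀ h : ℝ, 2 ≤ h → Z' h ⊆ Z (max 1 (Real.log h)))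
    (H : ∃ C : ℝ, 1 ≤ C ∧ ∀ E : ℝ, 1 ≤ E → ∀ d : ℕ, 1 ≤ d → ∀ (τ : Type) [Fintype τ]
      (I : τ → Fin d → Jx V), C * (d : ℝ) ^ a * E ^ b < Fintype.card τ →
      ∃ c : τ → ℤ, c ≠ 0 ∧ (∀ t, |(c t : ℝ)| ≤ Real.exp (C * d * E)) ∧
        ∀ x ∈ Z E, ∀ v, PX V x v → ∑ t, (c t : ℂ) * ∏ i, v (I t i) = 0) :
    HilbertBd V Z' a b := by
  obtain ⟨C, hC, H⟩ := H
  have hl2 : 0 < Real.log 2 := R3_log2
  have hl2' : Real.log 2 ≤ 1 := by
    have := Real.log_le_sub_one_of_pos (show (0 : ℝ) < 2 by norm_num)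
    linarith
  have hinv : 1 ≤ 1 / Real.log 2 := by
    rw [le_div_iff₀ hl2]
    linarith
  refine ⟨C * (1 / Real.log 2) ^ (b + 1), fun h hh d hd τ _ I hcard => ?_⟩
  have hlh : Real.log 2 ≤ Real.log h := Real.log_le_log (by norm_num) hh
  have hlh0 : 0 < Real.log h := lt_of_lt_of_le hl2 hlh
  have hE1 : (1 : ℝ) ≤ max 1 (Real.log h) := le_max_left _ _
  have hE2 : max 1 (Real.log h) ≤ (1 / Real.log 2) * Real.log h := by
    refine max_le ?_ ?_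
    · rw [div_mul_eq_mul_div, one_mul, le_div_iff₀ hl2]
      linarith
    · exact le_mul_of_one_le_left hlh0.le hinv
  obtain ⟨E, hEd⟩ : ∃ E : ℝ, E = max 1 (Real.log h) := ⟨_, rfl⟩
  rw [← hEd] at hE1 hE2
  have hd0 : (0 : ℝ) ≤ d := Nat.cast_nonneg d
  have hC0 : 0 ≤ C := by linarith
  have h1 : C * (d : ℝ) ^ a * E ^ b < Fintype.card τ := by
    refine lt_of_le_of_lt ?_ hcard
    have e1 : E ^ b ≤ ((1 / Real.log 2) * Real.log h) ^ b :=
      pow_le_pow_left₀ (by linarith) hE2 b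
    calc C * (d : ℝ) ^ a * E ^ b ≤ C * (d : ℝ) ^ a * ((1 / Real.log 2) * Real.log h) ^ b :=
          mul_le_mul_of_nonneg_left e1 (by positivity)
      _ = (C * (1 / Real.log 2) ^ b * (d : ℝ) ^ a * Real.log h ^ b) * 1 := by
          rw [mul_pow]
          ring
      _ ≤ (C * (1 / Real.log 2) ^ b * (d : ℝ) ^ a * Real.log h ^ b) * (1 / Real.log 2) :=
          mul_le_mul_of_nonneg_left hinv (by positivity)
      _ = C * (1 / Real.log 2) ^ (b + 1) * (d : ℝ) ^ a * Real.log h ^ b := by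
          rw [pow_succ]
          ring
  obtain ⟨c, hc0, hcb, hc⟩ := H E hE1 d hd τ I h1
  refine ⟨c, hc0, fun t => (hcb t).trans (Real.exp_le_exp.2 ?_), fun x hx v hv => ?_⟩
  · have e1 : 1 ≤ (1 / Real.log 2) ^ b := one_le_pow₀ hinv
    calc C * d * E ≤ C * d * ((1 / Real.log 2) * Real.log h) :=
          mul_le_mul_of_nonneg_left hE2 (by positivity)
      _ = 1 * (C * d * ((1 / Real.log 2) * Real.log h)) := by ring
      _ ≤ (1 / Real.log 2) ^ b * (C * d * ((1 / Real.log 2) * Real.log h)) :=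
          mul_le_mul_of_nonneg_right e1 (by positivity)
      _ = C * (1 / Real.log 2) ^ (b + 1) * d * Real.log h := by
          rw [pow_succ]
          ring
  · exact hc x (by rw [hEd]; exact hZ h hh hx) v hv

/-- monotonicity of `IsCMX` -/
private theorem R3_mono {n m : ℕ} {X G : Type} [TopologicalSpace X] [ChartedSpace (Fin m → ℂ) X]
    [Group G] [MulAction G X] (V : MVHS n m X G) (x : X) {h h' : ℝ} (h0 : 0 ≤ h) (hh : h ≤ h')
    (H : IsCMX V x h) : IsCMX V x h' := by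
  obtain ⟨A, h1, h2, h3⟩ := H
  exact ⟨A, h1, h2, h3.trans (pow_le_pow_left₀ h0 hh 2)⟩

private theorem R3_monoE {n m : ℕ} {X G : Type} [TopologicalSpace X] [ChartedSpace (Fin m → ℂ) X]
    [Group G] [MulAction G X] (V : MVHS n m X G) (x : X) {h : ℝ} (hh : 2 ≤ h)
    (H : IsCMX V x h) : IsCMX V x (Real.exp (max 1 (Real.log h))) := by
  refine R3_mono V x (by linarith) ?_ H
  calc h = Real.exp (Real.log h) := (Real.exp_log (by linarith)).symm
    _ ≤ _ := Real.exp_le_exp.2 (le_max_right _ _)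

variable {n m : ℕ} {X G : Type} [TopologicalSpace X] [ChartedSpace (Fin m → ℂ) X]
  [IsManifold 𝓘(ℂ, Fin m → ℂ) ω X] [ConnectedSpace X] [Group G] [MulAction G X]

/-- the data, abstract -/
private theorem R3_abs {X : Type} [TopologicalSpace X] [ConnectedSpace X] {ι κ : Type} [Fintype ι]
    [Fintype κ] [DecidableEq κ] {m ρ : ℕ} {L : X → (ι → ℂ) → Prop} (hL : LFX L)
    (hloc : ∀ x₀ : X, LocX m ρ L x₀) (K : Set X) (hK : IsCompact K) (P : X → ℝ → Prop)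
    (hP : ∃ C : ℕ, 1 ≤ C ∧ ∀ x ∈ K, ∀ h : ℝ, 1 ≤ h → P x h → ∃ v, L x v ∧ IntRep κ (C * h ^ C) v)
    (η : ℝ) (hη : 0 < η) : ∃ C₁ : ℝ, 1 ≤ C₁ ∧ ∀ E : ℝ, 1 ≤ E →
      ∃ (β : Type) (_ : Fintype β) (ψ : β → (Fin ρ → ℂ) → ι → ℂ) (m : ℝ),
        1 ≤ m ∧ Real.log m ≤ C₁ * E ∧ (Fintype.card β : ℝ) ≤ C₁ * E ^ 0 ∧
        (∀ b, DifferentiableOn ℂ (ψ b) (Metric.ball 0 1)) ∧
        (∀ b, ∀ s ∈ Metric.ball (0 : Fin ρ → ℂ) 1, ‖ψ b s‖ ≤ m) ∧
        ∀ (d N : ℕ) (S : ℝ) (F : (ι → ℂ) → ℂ), 1 ≤ S → AC.IF d S F →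
          C₁ * (Real.log S + d * (E + 1) + 1) ≤ N →
          (∀ b, ∀ s ∈ Metric.ball (0 : Fin ρ → ℂ) 1, s ∈ Metric.closedBall (0 : Fin ρ → ℂ) η →
            ‖F (ψ b s)‖ ≤ 2 * (S * m ^ d) * (1 / 2) ^ N) →
          ∀ x ∈ {x | x ∈ K ∧ P x (Real.exp E)}, ∀ v, L x v → F v = 0 := by
  classical
  obtain ⟨x₁⟩ : Nonempty X := inferInstance
  have hη'0 : 0 < min η (1 / 2) := lt_min hη (by norm_num)
  have hη'1 : min η (1 / 2) < 1 := lt_of_le_of_lt (min_le_right _ _) (by norm_num)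
  obtain ⟨U₀, ψ, m₀, m₁, hUo, hUne, hm₀, hm₀1, hm₁, hψd, hψb, hψL⟩ :=
    slice hL x₁ (hloc x₁) (min η (1 / 2)) hη'0
  obtain ⟨A, θ, Y, hA, hθ, hθ1, hY, hPg⟩ := global_pgX (local_pgX hL hloc) U₀ hUo hUne K hK
  obtain ⟨T, hTd⟩ : ∃ T : ℝ, T = m₁ / m₀ := ⟨_, rfl⟩
  have hT : 1 ≤ T := by
    rw [hTd, le_div_iff₀ hm₀]
    linarith
  obtain ⟨C₂, hC₂, hcm⟩ := cm_vanish hL U₀ K A hθ hθ1 hY hPg P hP T hT
  have hlm : 0 ≤ Real.log m₁ := Real.log_nonneg hm₁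
  refine ⟨2 * C₂ + Real.log m₁ + 1, by linarith, fun E hE => ?_⟩
  refine ⟨Unit, inferInstance, fun _ => ψ, m₁, hm₁, ?_, ?_, fun _ => hψd,
    fun _ s hs => (hψb s hs).2, ?_⟩
  · have : Real.log m₁ * 1 ≤ Real.log m₁ * E := mul_le_mul_of_nonneg_left hE hlm
    nlinarith
  · rw [Fintype.card_unit, pow_zero, mul_one, Nat.cast_one]
    linarith
  · intro d N S F hS hIF hN hsmall x hx v hv
    have hS0 : 0 < S := by linarith
    have hE2 : (2 : ℝ) ≤ Real.exp E := by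
      have := Real.add_one_le_exp E
      linarith
    have hIF2 : AC.IF d (2 * S) F := hIF.mono (by linarith)
    refine hcm (Real.exp E) hE2 d N (2 * S) F (by linarith) hIF2 ?_ ?_ x hx.1 hx.2 v hv
    · intro y hy w hw
      obtain ⟨s, hs, hLs⟩ := hψL y hy
      obtain ⟨c', hc'⟩ := hL.uniq y (ψ s) w hLs hw
      have hs1 : s ∈ Metric.ball (0 : Fin ρ → ℂ) 1 := Metric.closedBall_subset_ball hη'1 hs
      have hs2 : s ∈ Metric.closedBall (0 : Fin ρ → ℂ) η :=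
        Metric.closedBall_subset_closedBall (min_le_left _ _) hs
      have b1 : F w = c' ^ d * F (ψ s) := by
        rw [hc']
        exact hIF.hom'.hom c' (ψ s)
      have b2 := hsmall () s hs1 hs2
      have b3 : ‖w‖ = ‖c'‖ * ‖ψ s‖ := by rw [hc', norm_smul]
      have b4 : ‖c'‖ * m₀ ≤ ‖w‖ := by
        rw [b3]
        exact mul_le_mul_of_nonneg_left (hψb s hs1).1 (norm_nonneg _)
      have b5 : (T * (‖c'‖ * m₀)) ^ d ≤ T ^ d * ‖w‖ ^ d := by
        rw [← mul_pow]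
        exact pow_le_pow_left₀ (by positivity) (mul_le_mul_of_nonneg_left b4 (by linarith)) d
      have b6 : (T * (‖c'‖ * m₀)) ^ d = m₁ ^ d * ‖c'‖ ^ d := by
        rw [← mul_pow, hTd]
        congr 1
        field_simp
      rw [b6] at b5
      rw [b1, norm_mul, norm_pow]
      calc ‖c'‖ ^ d * ‖F (ψ s)‖
          ≤ ‖c'‖ ^ d * (2 * (S * m₁ ^ d) * (1 / 2) ^ N) :=
            mul_le_mul_of_nonneg_left b2 (by positivity)
        _ = (m₁ ^ d * ‖c'‖ ^ d) * (2 * S * (1 / 2) ^ N) := by ring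
        _ ≤ (T ^ d * ‖w‖ ^ d) * (2 * S * (1 / 2) ^ N) :=
            mul_le_mul_of_nonneg_right b5 (by positivity)
        _ = T ^ d * (2 * S) * (1 / 2) ^ N * ‖w‖ ^ d := by ring
    · refine le_trans ?_ hN
      rw [Real.log_exp, Real.log_mul (by norm_num) hS0.ne']
      have hl2' : Real.log 2 ≤ 1 := by
        have := Real.log_le_sub_one_of_pos (show (0 : ℝ) < 2 by norm_num)
        linarith
      have hlS : 0 ≤ Real.log S := Real.log_nonneg hS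
      have hdE : 0 ≤ (d : ℝ) * (E + 1) := by positivity
      have hQ : 0 ≤ Real.log S + d * (E + 1) + 1 := by linarith
      calc C₂ * (Real.log 2 + Real.log S + d * (E + 1) + 1)
          ≤ C₂ * (2 * (Real.log S + d * (E + 1) + 1)) :=
            mul_le_mul_of_nonneg_left (by linarith) (by linarith)
        _ = (2 * C₂) * (Real.log S + d * (E + 1) + 1) := by ring
        _ ≤ (2 * C₂ + Real.log m₁ + 1) * (Real.log S + d * (E + 1) + 1) :=
            mul_le_mul_of_nonneg_right (by linarith) hQ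

theorem compact_rel (V : MVHS n m X G) (ρ : ℕ) (hρ : ∀ x, rankX V x ≤ ρ) (K : Set X)
    (hK : IsCompact K) : HilbertBd V (CMin V K) ρ ρ := by
  have hL : LFX (PX V) := ⟨PX_ne V, PX_smul V, PX_uniq V⟩
  have hP := heightsX V (fun p x => rk_const V x p) K hK
  refine R3_pass V (fun E => {x | x ∈ K ∧ IsCMX V x (Real.exp E)}) _ ρ ρ ?_ ?_
  · rintro h hh x ⟨hxK, hx⟩
    exact ⟨hxK, R3_monoE V x hh hx⟩
  · have := rel_abs (k := 0) (L := PX V) (fun E => {x | x ∈ K ∧ IsCMX V x (Real.exp E)})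
      (fun η hη => R3_abs (κ := Fin n → Fin n) hL (locX V ρ hρ) K hK (IsCMX V) hP η hη)
    exact this

end MP2794d1.WV
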