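import Pool.Agent.Lib.MP_2794d1_ag.WV.ADefs
import Pool.Agent.Lib.MP_2794d1_ag.BW.S1
import Pool.Agent.Lib.MP_2794d1_ag.QU.Q1
import Pool.Agent.Lib.MP_2794d1_ag.QU.Q2
import Pool.Agent.Lib.MP_2794d1_ag.QU.Q3

/-!
S1: slices of a chart (copy the proofs in BW/S1). `exists_slice`: `V.pull a` (AH/B04) for the arc `a.c w = C.c (update u i (f w))`, `a.Γ = ⊥`, `a.φ = 1`. `exists_cusp`: `a.c w = C.c (update u i (M w))`,
`a.Γ = S1_Γ`, `a.φ = S1_φ (C.T i ^ M)` (BW/S1), since `C.c (update u i (M (w + 1))) = (C.T i) ^ M • C.c (update u i (M w))` (`eqv`, `M` times). `exists_unip`: by `exists_cusp`-like slice with `M = 1` (only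
equivariance is needed, not `exp`) at the point `u = fun i => if i ∈ I then Complex.I else 0` of `Dom I`, the eigenvalues of `rho (T i)` have absolute value `1` (`eig_one`, QU/Q1), `quasi_unip` (QU/Q2): `(A ^ M - 1) ^ n = 0`,
and `exists_log` (QU/Q3) for `U = A ^ M`. `A ^ M ≠ 1`: `C.inf`.
-/

namespace MP2794d1.WV

open Matrix Complex Filter Topology MP2794d1 MP2794d1.AH
open scoped ContDiff Manifold

variable {n m l : ℕ} {X G : Type} [TopologicalSpace X] [ChartedSpace (Fin m → ℂ) X]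
  [IsManifold 𝓘(ℂ, Fin m → ℂ) ω X] [Group G] [MulAction G X]

omit [IsManifold 𝓘(ℂ, Fin m → ℂ) ω X] in
theorem S1_hol (V : MVHS n m X G) (C : Chart V l) (u : Fin l → ℂ) (i : Fin l) (f : ℂ → ℂ) (w : ℂ)
    (hf : AnalyticAt ℂ f w) (hd : Function.update u i (f w) ∈ Dom C.I) :
    ContMDiffAt 𝓘(ℂ, ℂ) 𝓘(ℂ, Fin m → ℂ) ω (fun w => C.c (Function.update u i (f w))) w := by
  have h1 := C.hol (Function.update u i (f w)) hd
  have h2 : ContMDiffAt 𝓘(ℂ, ℂ) 𝓘(ℂ, Fin l → ℂ) ω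
      (fun w : ℂ => (Function.update u i (f w) : Fin l → ℂ)) w := by
    apply ContDiffAt.contMDiffAt
    refine contDiffAt_pi.2 fun j => ?_
    by_cases hij : j = i
    · subst hij
      simp only [Function.update_self]
      exact hf.contDiffAt
    · simp only [Function.update_of_ne hij]
      exact contDiffAt_const
  exact ContMDiffAt.comp w h1 h2

theorem exists_slice (V : MVHS n m X G) (C : Chart V l) (u : Fin l → ℂ) (i : Fin l) (f : ℂ → ℂ)
    (hf : ∀ w : ℂ, 0 < w.im → AnalyticAt ℂ f w ∧ Function.update u i (f w) ∈ Dom C.I) :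
    ∃ W : PolVHS n, W.wt = V.wt ∧ W.Q = V.Q ∧ W.lo = V.lo ∧ W.hi = V.hi ∧
      ∀ p w, W.F p w = V.F p (C.c (Function.update u i (f w))) := by
  let a : Arc m X G :=
    { Γ := ⊥
      c := fun w => C.c (Function.update u i (f w))
      φ := 1
      hol := fun w hw => S1_hol V C u i f w (hf w hw).1 (hf w hw).2
      eqv := by
        intro g w hw
        have h1 : (g : Matrix.SpecialLinearGroup (Fin 2) ℝ) = 1 := Subgroup.mem_bot.1 g.2
        rw [h1]
        have h2 : mob 1 w = w := by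
          unfold mob
          simp
        rw [h2]
        simp }
  exact ⟨V.pull a, rfl, rfl, rfl, rfl, fun p w => rfl⟩

theorem S1_step {X G : Type} [Group G] [MulAction G X] (c : ℂ → X) (g : G)
    (h : ∀ w : ℂ, 0 < w.im → c (w + 1) = g • c w) (a : ℤ) (w : ℂ) (hw : 0 < w.im) :
    c (w + ((a : ℝ) : ℂ)) = g ^ a • c w := by
  induction a using Int.induction_on with
  | zero => simp
  | succ j ih =>
    have h1 : w + (((j : ℤ) + 1 : ℤ) : ℝ) = (w + (((j : ℤ) : ℝ) : ℂ)) + 1 := by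
      push_cast
      ring
    have h2 : 0 < (w + (((j : ℤ) : ℝ) : ℂ)).im := by
      rw [Complex.add_im, Complex.ofReal_im, add_zero]
      exact hw
    rw [h1, h _ h2, ih, ← mul_smul, ← _root_.zpow_one_add, add_comm (1 : ℤ)]
  | pred j ih =>
    have h1 : (w + ((-(j : ℤ) - 1 : ℤ) : ℝ)) + 1 = w + (((-(j : ℤ) : ℤ) : ℝ) : ℂ) := by
      push_cast
      ring
    have h2 : 0 < (w + (((-(j : ℤ) - 1 : ℤ) : ℝ) : ℂ)).im := by
      rw [Complex.add_im, Complex.ofReal_im, add_zero]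
      exact hw
    have h3 := h _ h2
    rw [h1, ih] at h3
    have h4 : c (w + (((-(j : ℤ) - 1 : ℤ) : ℝ) : ℂ)) = g⁻¹ • g ^ (-(j : ℤ)) • c w := by
      rw [h3, inv_smul_smul]
    rw [h4, ← mul_smul, sub_eq_add_neg, add_comm (-(j : ℤ)), _root_.zpow_add, _root_.zpow_neg_one]

theorem S1_Dom {l : ℕ} {I : Finset (Fin l)} {i : Fin l} (hi : i ∈ I) {u : Fin l → ℂ} (hu : u ∈ Dom I)
    {w : ℂ} (hw : 0 < w.im) : Function.update u i w ∈ Dom I := by
  constructor
  · intro j hj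
    by_cases hij : j = i
    · rw [hij, Function.update_self]
      exact hw
    · rw [Function.update_of_ne hij]
      exact hu.1 j hj
  · intro j hj
    have hij : j ≠ i := by
      rintro rfl
      exact hj hi
    rw [Function.update_of_ne hij]
    exact hu.2 j hj

theorem S1_im {M : ℕ} (hM : 0 < M) {w : ℂ} (hw : 0 < w.im) : 0 < ((M : ℂ) * w).im := by
  have h1 : ((M : ℂ) * w).im = (M : ℝ) * w.im := by
    rw [Complex.mul_im]
    simp
  rw [h1]
  exact mul_pos (Nat.cast_pos.2 hM) hw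

omit [IsManifold 𝓘(ℂ, Fin m → ℂ) ω X] in
theorem S1_nat (V : MVHS n m X G) (C : Chart V l) (i : Fin l) (hi : i ∈ C.I) (u : Fin l → ℂ)
    (hu : u ∈ Dom C.I) (k : ℕ) (w : ℂ) (hw : 0 < w.im) :
    C.c (Function.update u i (w + (k : ℂ))) = C.T i ^ k • C.c (Function.update u i w) := by
  induction k with
  | zero => simp
  | succ k ih =>
    have h2 : 0 < (w + (k : ℂ)).im := by
      rw [Complex.add_im, Complex.natCast_im, add_zero]
      exact hw
    have h3 := C.eqv (Function.update u i (w + (k : ℂ))) (S1_Dom hi hu h2) i hi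
    rw [Function.update_self, Function.update_idem] at h3
    have h4 : w + ((k + 1 : ℕ) : ℂ) = w + (k : ℂ) + 1 := by
      push_cast
      ring
    rw [h4, h3, ih, ← mul_smul, pow_succ']

/-- the arc in the direction of the coordinate `i` -/
noncomputable def S1_arc (V : MVHS n m X G) (C : Chart V l) (i : Fin l) (hi : i ∈ C.I) (M : ℕ)
    (hM : 0 < M) (u : Fin l → ℂ) (hu : u ∈ Dom C.I) : Arc m X G where
  Γ := BW.S1_Γ
  c := fun w => C.c (Function.update u i ((M : ℂ) * w))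
  φ := BW.S1_φ (C.T i ^ M)
  hol := fun w hw => S1_hol V C u i (fun w => (M : ℂ) * w) w
    (analyticAt_const.mul analyticAt_id) (S1_Dom hi hu (S1_im hM hw))
  eqv := by
    rintro ⟨_, b, rfl⟩ z hz
    show C.c (Function.update u i ((M : ℂ) * mob (BW.S1_U b) z)) =
      (C.T i ^ M) ^ ⌊(BW.S1_U b) 0 1⌋ • C.c (Function.update u i ((M : ℂ) * z))
    rw [BW.S1_mob, BW.S1_01, Int.floor_intCast]
    refine S1_step (fun w => C.c (Function.update u i ((M : ℂ) * w))) (C.T i ^ M) ?_ b z hz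
    intro w hw
    have h1 := S1_nat V C i hi u hu M ((M : ℂ) * w) (S1_im hM hw)
    show C.c (Function.update u i ((M : ℂ) * (w + 1))) = _
    rw [mul_add, mul_one]
    exact h1

theorem S1_mem : BW.S1_U 1 ∈ BW.S1_Γ := ⟨1, by rw [Int.cast_one]⟩

theorem S1_phi {G : Type} [Group G] (g : G) : BW.S1_φ g ⟨BW.S1_U 1, S1_mem⟩ = g := by
  show g ^ ⌊(BW.S1_U 1) 0 1⌋ = g
  rw [BW.S1_01, Int.floor_one, zpow_one]

theorem S1_mob1 (z : ℂ) : mob (BW.S1_U 1) z = z + 1 := by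
  rw [BW.S1_mob, Complex.ofReal_one]

theorem exists_unip (V : MVHS n m X G) (C : Chart V l) (i : Fin l) (hi : i ∈ C.I) :
    ∃ (M : ℕ) (N : Matrix (Fin n) (Fin n) ℚ), 0 < M ∧ N ^ n = 0 ∧
      im ((V.rho (C.T i) : Matrix (Fin n) (Fin n) ℤ) ^ M) = uexp (cm N) 1 ∧
      (V.rho (C.T i) : Matrix (Fin n) (Fin n) ℤ) ^ M ≠ 1 := by
  classical
  have hu : (fun j => if j ∈ C.I then Complex.I else 0 : Fin l → ℂ) ∈ Dom C.I := by
    constructor
    · intro j hj
      show 0 < (if j ∈ C.I then Complex.I else 0 : ℂ).im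
      rw [if_pos hj, Complex.I_im]
      exact one_pos
    · intro j hj
      show ‖(if j ∈ C.I then Complex.I else 0 : ℂ)‖ < 1
      rw [if_neg hj, norm_zero]
      exact one_pos
  set a : Arc m X G := S1_arc V C i hi 1 one_pos _ hu with ha
  have hrho : ((V.pull a).rho ⟨BW.S1_U 1, S1_mem⟩ : Matrix (Fin n) (Fin n) ℤ) =
      (V.rho (C.T i) : Matrix (Fin n) (Fin n) ℤ) := by
    show (V.rho (BW.S1_φ (C.T i ^ 1) ⟨BW.S1_U 1, S1_mem⟩) : Matrix (Fin n) (Fin n) ℤ) = _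
    rw [S1_phi, pow_one]
  have heig : ∀ (lam : ℂ) (v : Fin n → ℂ), v ≠ 0 →
      im (V.rho (C.T i) : Matrix (Fin n) (Fin n) ℤ) *ᵥ v = lam • v → ‖lam‖ = 1 := by
    intro lam v hv h
    rw [← hrho] at h
    exact QU.eig_one (V.pull a) ⟨BW.S1_U 1, S1_mem⟩ (fun z _ => S1_mob1 z) lam v hv h
  obtain ⟨M, hM, hMn⟩ := QU.quasi_unip _ heig
  obtain ⟨N, hN, he⟩ := QU.exists_log _ hMn
  refine ⟨M, N, hM, hN, he, fun h => C.inf i hi M hM ?_⟩
  apply Units.ext
  rw [Units.val_pow_eq_pow_val, h, Units.val_one]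

theorem exists_cusp (V : MVHS n m X G) (C : Chart V l) (i : Fin l) (hi : i ∈ C.I) (M : ℕ) (hM : 0 < M)
    (N : Matrix (Fin n) (Fin n) ℚ) (hN : N ^ n = 0)
    (he : im ((V.rho (C.T i) : Matrix (Fin n) (Fin n) ℤ) ^ M) = uexp (cm N) 1) (u : Fin l → ℂ)
    (hu : u ∈ Dom C.I) :
    ∃ (W : PolVHS n) (c : UCusp W), W.wt = V.wt ∧ W.Q = V.Q ∧ W.lo = V.lo ∧ W.hi = V.hi ∧ c.N = N ∧
      ∀ p w, W.F p w = V.F p (C.c (Function.update u i ((M : ℂ) * w))) := by
  refine ⟨V.pull (S1_arc V C i hi M hM u hu), ⟨⟨BW.S1_U 1, S1_mem⟩, fun z => S1_mob1 z, N, hN, ?_⟩,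
    rfl, rfl, rfl, rfl, rfl, fun p w => rfl⟩
  show im (V.rho (BW.S1_φ (C.T i ^ M) ⟨BW.S1_U 1, S1_mem⟩) : Matrix (Fin n) (Fin n) ℤ) =
    uexp (cm N) 1
  rw [S1_phi, map_pow, Units.val_pow_eq_pow_val]
  exact he

end MP2794d1.WV
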