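import Pool.Agent.Lib.MP_2794d1_ag.WV.S1
import Pool.Agent.Lib.MP_2794d1_ag.BW.S2
import Pool.Agent.Lib.MP_2794d1_ag.BW.U8
import Pool.Agent.Lib.MP_2794d1_ag.AH.A18

/-!
S2: growth of the Hodge norm in a chart: copy of BW/S3. `growth_u n (kX V)` (BW/U8) for the slices `exists_slice` (S1) with `f = id` in the directions `i ∈ I` (`update u i w ∈ Dom I` for `Im w > 0`), `qf_cst` (BW/S2),
`kc_eq` (BW/ADefs). Induction over the subset `s ⊆ I` of the coordinates which have been replaced by `Complex.I` (`Finset.induction_on` with the hypothesis `s ⊆ C.I`, or over all finsets with the product over `s ∩ C.I`). At the end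
all coordinates in `I` are `Complex.I` and the others satisfy `‖u i‖ ≤ 1 / 2`: these points form a compact subset of `Dom I` (the image of the compact set `{t | ∀ i, ‖t i‖ ≤ 1 / 2}` by `t ↦ fun i => if i ∈ I then Complex.I else t i`),
its image under `C.c` is compact (`C.hol`, continuity), `frX` (AH/A18).
-/

namespace MP2794d1.WV

open Matrix Complex Filter Topology MP2794d1 MP2794d1.AH MP2794d1.BW
open scoped ContDiff Manifold

variable {n m l : ℕ} {X G : Type} [TopologicalSpace X] [ChartedSpace (Fin m → ℂ) X]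
  [IsManifold 𝓘(ℂ, Fin m → ℂ) ω X] [Group G] [MulAction G X]

private theorem w2_dom {I : Finset (Fin l)} {u : Fin l → ℂ} (hu : u ∈ Dom I) {i : Fin l} (hi : i ∈ I)
    {w : ℂ} (hw : 0 < w.im) : Function.update u i w ∈ Dom I := by
  constructor
  · intro j hj
    by_cases h : j = i
    · subst h
      rw [Function.update_self]
      exact hw
    · rw [Function.update_of_ne h]
      exact hu.1 j hj
  · intro j hj
    have h : j ≠ i := fun h => hj (h ▸ hi)
    rw [Function.update_of_ne h]
    exact hu.2 j hj

private theorem w2_u (V : MVHS n m X G) (C : Chart V l) (A : ℝ) (K : ℕ)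
    (hg : ∀ W : PolVHS n, kc W = kX V → ∀ w : ℂ, |w.re| ≤ 1 → 1 ≤ w.im →
      ∀ v : Fin n → ℂ, qf W w v ≤ A * w.im ^ K * qf W Complex.I v)
    (u : Fin l → ℂ) (hu : u ∈ Dom C.I) (i : Fin l) (hi : i ∈ C.I) (h1 : |(u i).re| ≤ 1)
    (h2 : 1 ≤ (u i).im) (v : Fin n → ℂ) :
    qf (cst V (C.c u)) Complex.I v ≤
      A * (u i).im ^ K * qf (cst V (C.c (Function.update u i Complex.I))) Complex.I v := by
  obtain ⟨W, hwt, hQ, hlo, hhi, hF⟩ := exists_slice V C u i id
    (fun w hw => ⟨analyticAt_id, w2_dom hu hi hw⟩)
  have h3 := hg W (kc_eq V W hlo hhi) (u i) h1 h2 v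
  have h4 := qf_cst V (C.c u) W (u i) (hu.1 i hi) hwt hQ (fun p => by
    rw [hF, id, Function.update_eq_self]) v
  have h5 := qf_cst V (C.c (Function.update u i Complex.I)) W Complex.I
    (by rw [Complex.I_im]; exact one_pos) hwt hQ (fun p => hF p Complex.I) v
  rwa [h4, h5] at h3

private theorem w2_ind (V : MVHS n m X G) (C : Chart V l) (A : ℝ) (K : ℕ) (hA : 1 ≤ A)
    (hg : ∀ W : PolVHS n, kc W = kX V → ∀ w : ℂ, |w.re| ≤ 1 → 1 ≤ w.im →
      ∀ v : Fin n → ℂ, qf W w v ≤ A * w.im ^ K * qf W Complex.I v)
    (u : Fin l → ℂ) (hu : u ∈ Fund C.I) (v : Fin n → ℂ) (s : Finset (Fin l)) :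
    s ⊆ C.I → qf (cst V (C.c u)) Complex.I v ≤ A ^ s.card * (∏ j ∈ s, (u j).im) ^ K *
      qf (cst V (C.c (fun j => if j ∈ s then Complex.I else u j))) Complex.I v := by
  induction s using Finset.induction_on with
  | empty => intro _; simp
  | insert a s ha ih =>
    intro hs
    have hsC : s ⊆ C.I := (Finset.subset_insert a s).trans hs
    have haC : a ∈ C.I := hs (Finset.mem_insert_self a s)
    have ih' := ih hsC
    obtain ⟨us, hus⟩ : ∃ us : Fin l → ℂ, us = fun j => if j ∈ s then Complex.I else u j := ⟨_, rfl⟩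
    have hpos : us ∈ Dom C.I := by
      rw [hus]
      constructor
      · intro j hj
        simp only
        split_ifs
        · rw [Complex.I_im]
          exact one_pos
        · linarith [(hu.1 j hj).2]
      · intro j hj
        simp only
        rw [if_neg (fun h => hj (hsC h))]
        linarith [hu.2 j hj]
    have hua : us a = u a := by
      rw [hus]
      simp only
      rw [if_neg ha]
    have h1 := w2_u V C A K hg us hpos a haC (by rw [hua]; exact (hu.1 a haC).1)
      (by rw [hua]; exact (hu.1 a haC).2) v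
    have h2 : Function.update us a Complex.I = fun j => if j ∈ insert a s then Complex.I else u j := by
      funext j
      by_cases h : j = a
      · subst h
        rw [Function.update_self, if_pos (Finset.mem_insert_self j s)]
      · rw [Function.update_of_ne h, hus]
        simp only [Finset.mem_insert, h, false_or]
    rw [h2, hua] at h1
    rw [← hus] at ih'
    have hP : 0 ≤ A ^ s.card * (∏ j ∈ s, (u j).im) ^ K := by
      have h3 : 0 ≤ ∏ j ∈ s, (u j).im :=
        Finset.prod_nonneg fun j hj => by linarith [(hu.1 j (hsC hj)).2]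
      positivity
    have h3 := mul_le_mul_of_nonneg_left h1 hP
    rw [Finset.card_insert_of_notMem ha, Finset.prod_insert ha, pow_succ, mul_pow]
    refine (ih'.trans h3).trans (le_of_eq ?_)
    ring

private theorem w2_compact (V : MVHS n m X G) (C : Chart V l) :
    IsCompact ((fun t : Fin l → ℂ => C.c (fun i => if i ∈ C.I then Complex.I else t i)) ''
      Metric.closedBall (0 : Fin l → ℂ) (1 / 2)) := by
  refine (isCompact_closedBall (0 : Fin l → ℂ) (1 / 2)).image_of_continuousOn fun t ht =>
    ContinuousAt.continuousWithinAt ?_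
  have hD : (fun i => if i ∈ C.I then Complex.I else t i) ∈ Dom C.I := by
    constructor
    · intro i hi
      simp only
      rw [if_pos hi, Complex.I_im]
      exact one_pos
    · intro i hi
      simp only
      rw [if_neg hi]
      have h1 : ‖t i‖ ≤ 1 / 2 := (norm_le_pi_norm t i).trans (mem_closedBall_zero_iff.1 ht)
      linarith
  have h1 := (C.hol _ hD).continuousAt
  have h2 : ContinuousAt (fun t : Fin l → ℂ => fun i => if i ∈ C.I then Complex.I else t i) t := by
    apply Continuous.continuousAt
    refine continuous_pi fun i => ?_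
    by_cases hi : i ∈ C.I
    · simp only [if_pos hi]
      exact continuous_const
    · simp only [if_neg hi]
      exact continuous_apply i
  exact ContinuousAt.comp (f := fun t : Fin l → ℂ => fun i => if i ∈ C.I then Complex.I else t i)
    h1 h2

theorem growth_W (V : MVHS n m X G) (C : Chart V l) : ∃ (C₀ : ℝ) (K : ℕ), 1 ≤ C₀ ∧ ∀ u ∈ Fund C.I,
    ∀ a, qf (cst V (C.c u)) Complex.I (Pi.single a 1) ≤ C₀ * Pr C.I u ^ K := by
  obtain ⟨A, K, hA, hg⟩ := growth_u n (kX V)
  obtain ⟨b, hb⟩ := frX V _ (w2_compact V C)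
  have hAk : (1 : ℝ) ≤ A ^ C.I.card := one_le_pow₀ hA
  have hb0 : 0 ≤ |b| := abs_nonneg b
  refine ⟨A ^ C.I.card * (1 + |b|), K, by nlinarith, fun u hu a => ?_⟩
  have h3 := w2_ind V C A K hA hg u hu (Pi.single a 1) C.I (Finset.Subset.refl _)
  have ht : (fun i => if i ∈ C.I then (0 : ℂ) else u i) ∈
      Metric.closedBall (0 : Fin l → ℂ) (1 / 2) := by
    rw [mem_closedBall_zero_iff, pi_norm_le_iff_of_nonneg (by norm_num)]
    intro i
    split_ifs with h
    · rw [norm_zero]
      norm_num
    · exact hu.2 i h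
  have h6 : qf (cst V (C.c (fun j => if j ∈ C.I then Complex.I else u j))) Complex.I
      (Pi.single a 1) ≤ 1 + |b| := by
    have h7 := hb _ ⟨_, ht, rfl⟩ a
    have h8 : (fun i => if i ∈ C.I then Complex.I else (fun i => if i ∈ C.I then (0 : ℂ) else u i) i)
        = fun j => if j ∈ C.I then Complex.I else u j := by
      funext i
      by_cases h : i ∈ C.I
      · rw [if_pos h, if_pos h]
      · simp only [if_neg h]
    simp only [h8] at h7
    have h9 := le_abs_self b
    linarith
  have hprod : 0 ≤ ∏ j ∈ C.I, (u j).im :=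
    Finset.prod_nonneg fun j hj => by linarith [(hu.1 j hj).2]
  have hP : 0 ≤ A ^ C.I.card * (∏ j ∈ C.I, (u j).im) ^ K := by positivity
  refine (h3.trans (mul_le_mul_of_nonneg_left h6 hP)).trans (le_of_eq ?_)
  unfold Pr
  ring

end MP2794d1.WV
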