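import Pool.Agent.Lib.MP_2794d1_ag.WV.S1
import Pool.Agent.Lib.MP_2794d1_ag.BW.U1
import Pool.Agent.Lib.MP_2794d1_ag.BW.U2

/-!
S4: change of one coordinate. `B₁` from `conv_entries_u n (kX V)` (BW/U1), `B₂` from `Pi_close_u n (kX V)` (BW/U2); `B = 1 + B₁ + 10 B₂`. `kc_eq` (BW/ADefs).
(1) `i ∈ I`: slice `W` of `exists_slice` (S1) with `f = id`, `z₀ = u i`, `z₁ = w`: `‖z₁ - z₀‖ ≤ δ Im z₀ ≤ Im z₀ / 2`; `Function.update_eq_self`.
(2) `i ∉ I`: slice with `f w' = u i + (1/4) (w' - I) / (w' + I)` (analytic for `Im w' > 0`, `‖f w' - u i‖ < 1/4`, so `‖f w'‖ < 3/4`), `z₀ = I`, `f I = u i`; put `τ = 4 (w - u i)`, `‖τ‖ ≤ 4 δ ≤ 1/5`, `z₁ = I (1 + τ) / (1 - τ)`: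
`(z₁ - I) / (z₁ + I) = τ`, so `f z₁ = w`; `z₁ - z₀ = 2 I τ / (1 - τ)`, `‖z₁ - z₀‖ ≤ 2 ‖τ‖ / (4/5) ≤ 10 δ`, and `≤ 1/2 = Im z₀ / 2`.
The projectors: `PiV W p z = prj (W.phs z hz) p` (definition, `dif_pos`; `0 < Im z₁` follows from `‖z₁ - z₀‖ ≤ Im z₀ / 2`), `prj_congr` (ADefs).
-/

namespace MP2794d1.WV

open Matrix Complex Filter Topology MP2794d1 MP2794d1.AH MP2794d1.BW
open scoped ContDiff Manifold

variable {n m l : ℕ} {X G : Type} [TopologicalSpace X] [ChartedSpace (Fin m → ℂ) X]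
  [IsManifold 𝓘(ℂ, Fin m → ℂ) ω X] [Group G] [MulAction G X]

/-- `prj` depends only on the weight and the filtration -/
private theorem S4_prj_congr {n : ℕ} {wt wt' : ℤ} {Q Q' : Matrix (Fin n) (Fin n) ℤ}
    {Fl Fl' : ℤ → Submodule ℂ (Fin n → ℂ)} (hwt : wt = wt') (_ : Q = Q') (h : IsPHS wt Q Fl)
    (h' : IsPHS wt' Q' Fl') (hF : ∀ p, Fl p = Fl' p) (p : ℤ) : prj h p = prj h' p :=
  prj_congr h h' hwt hF p

omit [IsManifold 𝓘(ℂ, Fin m → ℂ) ω X] in
/-- comparison of two points of a slice -/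
private theorem S4_slice (V : MVHS n m X G) {B₁ B₂ : ℝ} (hB₁ : 0 ≤ B₁) (hB₂ : 0 ≤ B₂)
    (hc : ∀ V' : PolVHS n, kc V' = kX V → ∀ z₀ z₁ : ℂ, 0 < z₀.im →
      ‖z₁ - z₀‖ ≤ z₀.im / 2 → ∀ (S S' : Matrix (Fin n) (Fin n) ℂ) (d d' : Fin n → ℤ),
        Adapted V'.wt V'.Q (fun p => V'.F p z₀) S d → Adapted V'.wt V'.Q (fun p => V'.F p z₁) S' d' →
        ∀ a b, ‖(S⁻¹ * S') a b‖ ≤ B₁ ∧ ‖(S'⁻¹ * S) a b‖ ≤ B₁)
    (hp : ∀ V' : PolVHS n, kc V' = kX V → ∀ z₀ z₁ : ℂ, 0 < z₀.im →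
      ‖z₁ - z₀‖ ≤ z₀.im / 2 → ∀ (S : Matrix (Fin n) (Fin n) ℂ) (d : Fin n → ℤ),
        Adapted V'.wt V'.Q (fun p => V'.F p z₀) S d → ∀ p a b,
        ‖(S⁻¹ * (PiV V' p z₁ - PiV V' p z₀) * S) a b‖ ≤ B₂ * (‖z₁ - z₀‖ / z₀.im))
    (W : PolVHS n) (hwt : W.wt = V.wt) (hQ : W.Q = V.Q) (hlo : W.lo = V.lo) (hhi : W.hi = V.hi)
    (z₀ z₁ : ℂ) (x₀ x₁ : X) (h₀ : ∀ p, W.F p z₀ = V.F p x₀) (h₁ : ∀ p, W.F p z₁ = V.F p x₁)
    (hz₀ : 0 < z₀.im) (hz : ‖z₁ - z₀‖ ≤ z₀.im / 2) (δ : ℝ) (hδ : ‖z₁ - z₀‖ ≤ 10 * δ * z₀.im)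
    (S : Matrix (Fin n) (Fin n) ℂ) (d : Fin n → ℤ)
    (hS : Adapted V.wt V.Q (fun p => V.F p x₀) S d) :
    (∀ p a b, ‖(S⁻¹ * (prj (V.phs x₁) p - prj (V.phs x₀) p) * S) a b‖ ≤
      (1 + B₁ + 10 * B₂) * δ) ∧
      ∀ (S' : Matrix (Fin n) (Fin n) ℂ) (d' : Fin n → ℤ),
        Adapted V.wt V.Q (fun p => V.F p x₁) S' d' →
        ∀ a b, ‖(S⁻¹ * S') a b‖ ≤ 1 + B₁ + 10 * B₂ ∧ ‖(S'⁻¹ * S) a b‖ ≤ 1 + B₁ + 10 * B₂ := by
  have hk : kc W = kX V := kc_eq V W hlo hhi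
  have hz₁ : 0 < z₁.im := by
    have h1 : |(z₁ - z₀).im| ≤ ‖z₁ - z₀‖ := Complex.abs_im_le_norm _
    rw [Complex.sub_im] at h1
    have h2 := (abs_le.1 (h1.trans hz)).1
    linarith
  have hδ0 : 0 ≤ δ := by
    have h1 := (norm_nonneg (z₁ - z₀)).trans hδ
    by_contra hneg
    push Not at hneg
    nlinarith [mul_pos (neg_pos.2 hneg) hz₀]
  have e0 : (fun p => W.F p z₀) = fun p => V.F p x₀ := funext h₀
  have e1 : (fun p => W.F p z₁) = fun p => V.F p x₁ := funext h₁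
  have hS0 : Adapted W.wt W.Q (fun p => W.F p z₀) S d := by
    rw [hwt, hQ, e0]
    exact hS
  have hq : ‖z₁ - z₀‖ / z₀.im ≤ 10 * δ := by
    rw [div_le_iff₀ hz₀]
    exact hδ
  constructor
  · intro p a b
    have h1 := hp W hk z₀ z₁ hz₀ hz S d hS0 p a b
    have ep : ∀ (z : ℂ) (hz : 0 < z.im) (x : X), (∀ p, W.F p z = V.F p x) →
        PiV W p z = prj (V.phs x) p := by
      intro z hz x hx
      rw [PiV_eq W hz]
      exact S4_prj_congr hwt hQ _ _ hx p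
    rw [ep z₁ hz₁ x₁ h₁, ep z₀ hz₀ x₀ h₀] at h1
    refine h1.trans ?_
    have h2 : B₂ * (‖z₁ - z₀‖ / z₀.im) ≤ B₂ * (10 * δ) := mul_le_mul_of_nonneg_left hq hB₂
    nlinarith [mul_nonneg hB₁ hδ0]
  · intro S' d' hS' a b
    have hS1 : Adapted W.wt W.Q (fun p => W.F p z₁) S' d' := by
      rw [hwt, hQ, e1]
      exact hS'
    have h1 := hc W hk z₀ z₁ hz₀ hz S S' d d' hS0 hS1 a b
    exact ⟨by linarith [h1.1], by linarith [h1.2]⟩

theorem step_W (V : MVHS n m X G) (C : Chart V l) : ∃ B : ℝ, 1 ≤ B ∧ ∀ (u : Fin l → ℂ) (i : Fin l)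
    (w : ℂ) (δ : ℝ), u ∈ Dom C.I → (i ∉ C.I → ‖u i‖ ≤ 1 / 2) → 0 ≤ δ → δ ≤ 1 / 20 →
    ‖w - u i‖ ≤ δ * rr C.I u i → ∀ (S : Matrix (Fin n) (Fin n) ℂ) (d : Fin n → ℤ),
      Adapted V.wt V.Q (fun p => V.F p (C.c u)) S d →
      (∀ p a b, ‖(S⁻¹ * (prj (V.phs (C.c (Function.update u i w))) p - prj (V.phs (C.c u)) p) * S) a b‖ ≤
        B * δ) ∧
      ∀ (S' : Matrix (Fin n) (Fin n) ℂ) (d' : Fin n → ℤ),
        Adapted V.wt V.Q (fun p => V.F p (C.c (Function.update u i w))) S' d' →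
        ∀ a b, ‖(S⁻¹ * S') a b‖ ≤ B ∧ ‖(S'⁻¹ * S) a b‖ ≤ B := by
  obtain ⟨B₁, hB₁, hc⟩ := conv_entries_u n (kX V)
  obtain ⟨B₂, hB₂, hp⟩ := Pi_close_u n (kX V)
  refine ⟨1 + B₁ + 10 * B₂, by linarith, ?_⟩
  intro u i w δ hu hi hδ0 hδ hw S d hS
  by_cases hI : i ∈ C.I
  · have him : 0 < (u i).im := hu.1 i hI
    unfold rr at hw
    rw [if_pos hI] at hw
    obtain ⟨W, e1, e2, e3, e4, e5⟩ := exists_slice V C u i id (by
      intro w' hw'
      refine ⟨analyticAt_id, ?_⟩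
      constructor
      · intro j hj
        by_cases hji : j = i
        · subst hji
          rw [Function.update_self]
          exact hw'
        · rw [Function.update_of_ne hji]
          exact hu.1 j hj
      · intro j hj
        have hji : j ≠ i := by
          rintro rfl
          exact hj hI
        rw [Function.update_of_ne hji]
        exact hu.2 j hj)
    refine S4_slice V hB₁ hB₂ hc hp W e1 e2 e3 e4 (u i) w (C.c u) _ ?_ ?_ him ?_ δ ?_ S d hS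
    · intro p
      rw [e5, id, Function.update_eq_self]
    · intro p
      rw [e5, id]
    · nlinarith
    · nlinarith [mul_nonneg hδ0 him.le]
  · have hui := hi hI
    unfold rr at hw
    rw [if_neg hI, mul_one] at hw
    have key : ∀ w' : ℂ, 0 < w'.im → w' + Complex.I ≠ 0 ∧
        ‖(w' - Complex.I) / (w' + Complex.I)‖ < 1 := by
      intro w' hw'
      have h1 : w' + Complex.I ≠ 0 := by
        intro h
        have h2 := congrArg Complex.im h
        simp only [Complex.add_im, Complex.I_im, Complex.zero_im] at h2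
        linarith
      refine ⟨h1, ?_⟩
      rw [norm_div, div_lt_one (norm_pos_iff.2 h1)]
      apply lt_of_pow_lt_pow_left₀ 2 (norm_nonneg _)
      rw [← Complex.normSq_eq_norm_sq, ← Complex.normSq_eq_norm_sq, Complex.normSq_apply,
        Complex.normSq_apply]
      simp only [Complex.add_im, Complex.I_im, Complex.sub_im, Complex.add_re, Complex.sub_re,
        Complex.I_re]
      nlinarith
    obtain ⟨f, hf⟩ : ∃ f : ℂ → ℂ, f = fun w' => u i + (1 / 4) * ((w' - Complex.I) / (w' + Complex.I)) :=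
      ⟨_, rfl⟩
    obtain ⟨W, e1, e2, e3, e4, e5⟩ := exists_slice V C u i f (by
      intro w' hw'
      obtain ⟨h1, h2⟩ := key w' hw'
      constructor
      · rw [hf]
        have a1 : AnalyticAt ℂ (fun w' : ℂ => w' - Complex.I) w' :=
          analyticAt_id.sub analyticAt_const
        have a2 : AnalyticAt ℂ (fun w' : ℂ => w' + Complex.I) w' :=
          analyticAt_id.add analyticAt_const
        exact analyticAt_const.add (analyticAt_const.mul (a1.div a2 h1))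
      · constructor
        · intro j hj
          have hji : j ≠ i := by
            rintro rfl
            exact hI hj
          rw [Function.update_of_ne hji]
          exact hu.1 j hj
        · intro j hj
          by_cases hji : j = i
          · subst hji
            rw [Function.update_self, hf]
            have h3 : ‖u j + 1 / 4 * ((w' - Complex.I) / (w' + Complex.I))‖ ≤
                ‖u j‖ + ‖(1 / 4 : ℂ) * ((w' - Complex.I) / (w' + Complex.I))‖ := norm_add_le _ _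
            have h4 : ‖(1 / 4 : ℂ) * ((w' - Complex.I) / (w' + Complex.I))‖ =
                1 / 4 * ‖(w' - Complex.I) / (w' + Complex.I)‖ := by
              rw [norm_mul]
              norm_num
            change ‖u j + 1 / 4 * ((w' - Complex.I) / (w' + Complex.I))‖ < 1
            rw [h4] at h3
            linarith
          · rw [Function.update_of_ne hji]
            exact hu.2 j hj)
    obtain ⟨τ, hτ⟩ : ∃ τ : ℂ, τ = 4 * (w - u i) := ⟨_, rfl⟩
    have hτn : ‖τ‖ ≤ 4 * δ := by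
      rw [hτ, norm_mul]
      have h4 : ‖(4 : ℂ)‖ = 4 := by norm_num
      rw [h4]
      linarith
    have hτ5 : ‖τ‖ ≤ 1 / 5 := by linarith
    have h1τ : 4 / 5 ≤ ‖1 - τ‖ := by
      have h1 := norm_sub_norm_le (1 : ℂ) τ
      rw [norm_one] at h1
      linarith
    have h1τ0 : 1 - τ ≠ 0 := by
      intro h
      rw [h, norm_zero] at h1τ
      linarith
    obtain ⟨z₁, hz₁⟩ : ∃ z₁ : ℂ, z₁ = Complex.I * (1 + τ) / (1 - τ) := ⟨_, rfl⟩
    have hd : z₁ - Complex.I = 2 * Complex.I * τ / (1 - τ) := by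
      rw [hz₁]
      field_simp
      ring
    have hs : z₁ + Complex.I = 2 * Complex.I / (1 - τ) := by
      rw [hz₁]
      field_simp
      ring
    have hfz : f z₁ = w := by
      rw [hf]
      change u i + 1 / 4 * ((z₁ - Complex.I) / (z₁ + Complex.I)) = w
      rw [hd, hs]
      have h2 : 2 * Complex.I * τ / (1 - τ) / (2 * Complex.I / (1 - τ)) = τ := by
        have hI0 : Complex.I ≠ 0 := Complex.I_ne_zero
        field_simp
      rw [h2, hτ]
      ring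
    have hfI : f Complex.I = u i := by
      rw [hf]
      change u i + 1 / 4 * ((Complex.I - Complex.I) / (Complex.I + Complex.I)) = u i
      rw [sub_self, zero_div, mul_zero, add_zero]
    have hzn : ‖z₁ - Complex.I‖ ≤ 10 * δ := by
      rw [hd, norm_div, norm_mul, norm_mul, Complex.norm_I, mul_one]
      have h2 : ‖(2 : ℂ)‖ = 2 := by norm_num
      rw [h2, div_le_iff₀ (by linarith)]
      nlinarith [norm_nonneg τ]
    have hI1 : (Complex.I).im = 1 := Complex.I_im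
    refine S4_slice V hB₁ hB₂ hc hp W e1 e2 e3 e4 Complex.I z₁ (C.c u) _ ?_ ?_ ?_ ?_ δ ?_ S d hS
    · intro p
      rw [e5, hfI, Function.update_eq_self]
    · intro p
      rw [e5, hfz]
    · rw [hI1]; exact one_pos
    · rw [hI1]; linarith
    · rw [hI1]; linarith

end MP2794d1.WV
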